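import Pool.Agent.P.MP_25bc1d_an.Main

namespace Pool.Agent.P.MP_25bc1d_an

/-- A periodic chain is admissible unless its word is `R L ⋯ L *` read from its largest point. -/
lemma periodic_adm2 {s : ℝ} (hs : 1 < s) (hs2 : s ≤ 2) (q : ℕ) (hq : 2 ≤ q)
    (H : s ^ (q - 2) * (2 - s) < 1) (w : ℕ → Bool) (y : ℕ → ℝ)
    (hw : ∀ t, w (t + q) = w t) (hyp : ∀ t, y (t + q) = y t)
    (hy : ∀ t, y t = br s (w t) (y (t + 1))) :
    (∀ t, y t < s / 2) ∨ ∃ t0, t0 < q ∧ s / 2 ≤ y t0 ∧ w t0 = true ∧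
      ∀ r, 1 ≤ r → r ≤ q - 2 → w (t0 + r) = false := by
  have hs0 : 0 < s := by linarith
  have hmod : ∀ t, y t = y (t % q) := by
    intro t
    have : ∀ k r, y (r + q * k) = y r := by
      intro k
      induction k with
      | zero => simp
      | succ k ih => intro r; rw [Nat.mul_succ, ← add_assoc, hyp, ih]
    conv_lhs => rw [← Nat.mod_add_div t q]
    exact this _ _
  obtain ⟨t0, ht0q, ht0⟩ := Finset.exists_max_image (Finset.range q) y
    ⟨0, Finset.mem_range.2 (by omega)⟩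
  have hM : ∀ t, y t ≤ y t0 := fun t => by
    rw [hmod t]; exact ht0 _ (Finset.mem_range.2 (Nat.mod_lt _ (by omega)))
  set M := y t0 with hMdef
  by_cases hcon : M < s / 2
  · exact Or.inl fun t => lt_of_le_of_lt (hM t) hcon
  right
  push Not at hcon
  have hw0 : w t0 = true := by
    by_contra h
    have h' : w t0 = false := by simpa using h
    have e := hy t0
    rw [h', br_false] at e
    have h1 : y (t0 + 1) = s * M := by rw [hMdef, e]; field_simp
    have := hM (t0 + 1)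
    nlinarith
  have hex : ∃ j, 1 ≤ j ∧ w (t0 + j) = true := ⟨q, by omega, by rw [hw, hw0]⟩
  classical
  let j := Nat.find hex
  have hj1 : 1 ≤ j := (Nat.find_spec hex).1
  have hjw : w (t0 + j) = true := (Nat.find_spec hex).2
  have hfalse : ∀ r, 1 ≤ r → r < j → w (t0 + r) = false := fun r hr hrj => by
    by_contra h
    have h' : w (t0 + r) = true := by simpa using h
    exact Nat.find_min hex hrj ⟨hr, h'⟩
  have hrun : ∀ r, 1 ≤ r → r ≤ j → y (t0 + r) = s ^ r * (1 - M) := by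
    intro r hr1
    induction r, hr1 using Nat.le_induction with
    | base =>
      intro _
      have e := hy t0
      rw [hw0, br_true] at e
      have : y (t0 + 1) / s = 1 - M := by rw [hMdef]; linarith
      rw [← this]; field_simp
    | succ r hr ih =>
      intro hrj
      have e := hy (t0 + r)
      rw [hfalse r hr (by omega), br_false, ih (by omega)] at e
      rw [← add_assoc, pow_succ]
      have : y (t0 + r + 1) = s ^ r * (1 - M) * s := by rw [e]; field_simp
      rw [this]; ring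
  have hj := hrun j hj1 le_rfl
  refine ⟨t0, Finset.mem_range.1 ht0q, hcon, hw0, fun r h1 h2 => hfalse r h1 ?_⟩
  by_contra hlt
  have e := hy (t0 + j)
  rw [hjw, br_true, hj] at e
  have h1 : y (t0 + j + 1) / s ≤ M / s := div_le_div_of_nonneg_right (hM _) hs0.le
  have H' : s ^ j * (2 - s) < 1 := pow_mono_H hs.le hs2 (by omega) H
  have h2 : 1 ≤ s ^ j := one_le_pow₀ hs.le
  have h3 : 1 - M / s ≤ s ^ j * (1 - M) := by linarith
  have h4 : s - M ≤ s * (s ^ j * (1 - M)) := by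
    have := mul_le_mul_of_nonneg_left h3 hs0.le
    have e2 : s * (1 - M / s) = s - M := by field_simp
    linarith
  have h5 : 0 ≤ (M - s / 2) * (s * s ^ j - 1) := by
    apply mul_nonneg (by linarith); nlinarith
  nlinarith

lemma chain_step (s : ℝ) (u : ℕ → Bool) (i q : ℕ) (hq : 1 ≤ q) (p : ℝ) (hp : W s u i q p = p)
    (t : ℕ) : W s u (i + t % q) (q - t % q) p =
      br s (u (i + t % q)) (W s u (i + (t + 1) % q) (q - (t + 1) % q) p) := by
  have hlt : t % q < q := Nat.mod_lt _ (by omega)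
  obtain ⟨e, he⟩ : ∃ e, q - t % q = e + 1 := ⟨q - t % q - 1, by omega⟩
  rw [he, W_succ]
  congr 1
  rcases Nat.lt_or_ge (t % q + 1) q with h | h
  · have : (t + 1) % q = t % q + 1 := by
      rw [Nat.add_mod, Nat.mod_eq_of_lt (show 1 < q by omega), Nat.mod_eq_of_lt h]
    rw [this, show q - (t % q + 1) = e by omega, add_assoc]
  · have h1 : t % q + 1 = q := by omega
    have : (t + 1) % q = 0 := by
      conv_lhs => rw [← Nat.mod_add_mod, h1]
      simp
    rw [this, show e = 0 by omega]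
    simp only [add_zero, Nat.sub_zero, W_zero]
    exact hp.symm

lemma chain_all {s : ℝ} (u : ℕ → Bool) (m i : ℕ) (hi : i < m) (p : ℝ)
    (hp : W s u i (m - i) p = p)
    (key : ∀ t, W s u (i + t % (m - i)) (m - i - t % (m - i)) p < s / 2) :
    ∀ k, i ≤ k → k ≤ m → W s u k (m - k) p < s / 2 := by
  intro k hik hkm
  rcases Nat.lt_or_ge k m with h | h
  · have := key (k - i)
    rw [Nat.mod_eq_of_lt (show k - i < m - i by omega), show i + (k - i) = k by omega,
      show m - i - (k - i) = m - k by omega] at this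
    exact this
  · have := key 0
    simp only [Nat.zero_mod, add_zero, Nat.sub_zero] at this
    rw [hp] at this
    rw [show m - k = 0 by omega]
    exact this

lemma fixed_adm1 {s : ℝ} (hs : 1 < s) (hs2 : s ≤ 2) (m : ℕ) (H : s ^ (m - 2) * (2 - s) < 1)
    (u : ℕ → Bool) (i : ℕ) (hi1 : 1 ≤ i) (hi : i < m) (p : ℝ) (hp : W s u i (m - i) p = p) :
    ∀ k, i ≤ k → k ≤ m → W s u k (m - k) p < s / 2 :=
  chain_all u m i hi p hp (periodic_adm hs hs2 (m - i) (by omega)
    (pow_mono_H hs.le hs2 (by omega) H)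
    (fun t => u (i + t % (m - i))) (fun t => W s u (i + t % (m - i)) (m - i - t % (m - i)) p)
    (fun t => by simp) (fun t => by simp) (chain_step s u i (m - i) (by omega) p hp))

/-- read cyclically from `t0`, the word `u_0 ⋯ u_{m-1}` is `R L ⋯ L *` -/
def Special (u : ℕ → Bool) (m t0 : ℕ) : Prop :=
  t0 < m ∧ u t0 = true ∧ ∀ r, 1 ≤ r → r ≤ m - 2 → u ((t0 + r) % m) = false

lemma Special.hi {u : ℕ → Bool} {m t0 : ℕ} (h : Special u m t0) {k : ℕ} (h1 : t0 < k)
    (h2 : k < m) (h3 : k + 2 ≤ m + t0) : u k = false := by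
  have := h.2.2 (k - t0) (by omega) (by omega)
  rwa [show t0 + (k - t0) = k by omega, Nat.mod_eq_of_lt h2] at this

lemma Special.lo {u : ℕ → Bool} {m t0 : ℕ} (h : Special u m t0) {k : ℕ} (h1 : k + 2 ≤ t0) :
    u k = false := by
  have hm := h.1
  have := h.2.2 (m + k - t0) (by omega) (by omega)
  rwa [show t0 + (m + k - t0) = m + k by omega, Nat.add_mod_left,
    Nat.mod_eq_of_lt (by omega)] at this

lemma fixed_adm0 {s : ℝ} (hs : 1 < s) (hs2 : s ≤ 2) (m : ℕ) (hm : 2 ≤ m)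
    (H : s ^ (m - 2) * (2 - s) < 1) (u : ℕ → Bool) (p : ℝ) (hp : W s u 0 (m - 0) p = p) :
    (∀ k, 0 ≤ k → k ≤ m → W s u k (m - k) p < s / 2) ∨
      ∃ t0, Special u m t0 ∧ s / 2 ≤ W s u t0 (m - t0) p := by
  rcases periodic_adm2 hs hs2 (m - 0) (by omega) H
    (fun t => u (0 + t % (m - 0))) (fun t => W s u (0 + t % (m - 0)) (m - 0 - t % (m - 0)) p)
    (fun t => by simp) (fun t => by simp) (chain_step s u 0 (m - 0) (by omega) p hp) with h | h
  · exact Or.inl (chain_all u m 0 (by omega) p hp h)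
  · obtain ⟨t0, h1, h2, h3, h4⟩ := h
    simp only [Nat.sub_zero, zero_add] at h1 h2 h3 h4
    rw [Nat.mod_eq_of_lt h1] at h2 h3
    exact Or.inr ⟨t0, ⟨h1, h3, h4⟩, h2⟩

lemma fixed_order2 {s : ℝ} (hs : 1 < s) (m : ℕ)
    (u : ℕ → Bool) (P Q : ℕ → ℝ) (hP : ∀ i, W s u i (m - i) (P i) = P i)
    (hQ : ∀ i, W 2 u i (m - i) (Q i) = Q i) (hQ' : ∀ i, Q i ∈ Set.Icc (0 : ℝ) 1)
    (i j : ℕ) (hi : i < m) (hj : j < m)
    (ai : ∀ k, i ≤ k → k ≤ m → W s u k (m - k) (P i) < s / 2)
    (aj : ∀ k, j ≤ k → k ≤ m → W s u k (m - k) (P j) < s / 2)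
    (h : Q i < Q j) : P i < P j := by
  let σ := {a : ℕ × ℕ // (a.1 = i ∨ a.1 = j) ∧ a.1 ≤ a.2 ∧ a.2 < m}
  let nx : σ → σ := fun a => ⟨nxt m a.1, by
    obtain ⟨⟨a1, a2⟩, h0, h1, h2⟩ := a
    unfold nxt
    split_ifs with hh
    · exact ⟨h0, by simp at h1 ⊢; omega, hh⟩
    · exact ⟨h0, le_rfl, by simp at h1 h2 ⊢; omega⟩⟩
  have step : ∀ (t : ℝ) (R : ℕ → ℝ), (∀ i, W t u i (m - i) (R i) = R i) → ∀ a : σ,
      W t u a.1.2 (m - a.1.2) (R a.1.1) =
        br t (u a.1.2) (W t u (nx a).1.2 (m - (nx a).1.2) (R (nx a).1.1)) := by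
    rintro t R hR ⟨⟨a1, a2⟩, h0, h1, h2⟩
    simp only [] at h1 h2
    obtain ⟨e, he⟩ : ∃ e, m - a2 = e + 1 := ⟨m - a2 - 1, by omega⟩
    simp only [nx, nxt]
    rw [he, W_succ]
    congr 1
    split_ifs with hh
    · simp only []; rw [show m - (a2 + 1) = e by omega]
    · simp only []; rw [hR, show e = 0 by omega]; rfl
  have := order_lemma s (by linarith) nx (fun a => u a.1.2)
    (fun a => W s u a.1.2 (m - a.1.2) (P a.1.1)) (fun a => W 2 u a.1.2 (m - a.1.2) (Q a.1.1))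
    (step s P hP) (step 2 Q hQ)
    (fun a => by
      obtain ⟨⟨a1, a2⟩, h0, h1, h2⟩ := a
      simp only [] at h0 h1 h2 ⊢
      rcases h0 with rfl | rfl
      · exact ai _ h1 h2.le
      · exact aj _ h1 h2.le)
    (fun a => W_mem (by norm_num) u (hQ' _) _ _)
    ⟨(i, i), Or.inl rfl, le_rfl, hi⟩ ⟨(j, j), Or.inr rfl, le_rfl, hj⟩
  simp only [hP, hQ] at this
  exact this h

lemma back_pos {s : ℝ} (hs : 1 < s) (u : ℕ → Bool) (z : ℕ → ℝ) (k0 : ℕ)
    (hz : ∀ k, k < k0 → z k = br s (u k) (z (k + 1))) (hz1 : ∀ k, z k ≤ 1) (h0 : 0 < z k0) :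
    ∀ d, d ≤ k0 → 0 < z (k0 - d) := by
  have hs0 : 0 < s := by linarith
  intro d
  induction d with
  | zero => intro _; simpa using h0
  | succ d ih =>
    intro hd
    have h1 := ih (by omega)
    have e := hz (k0 - (d + 1)) (by omega)
    rw [show k0 - (d + 1) + 1 = k0 - d by omega] at e
    have h2 : z (k0 - d) / s < 1 := by rw [div_lt_one hs0]; linarith [hz1 (k0 - d)]
    have h3 : 0 < z (k0 - d) / s := div_pos h1 hs0
    cases hu : u (k0 - (d + 1)) <;> rw [hu] at e <;> simp only [br_true, br_false] at e <;> linarith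

end Pool.Agent.P.MP_25bc1d_an
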