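import Pool.Agent.P.MP_25bc1d_an.AlA

namespace Pool.Agent.P.MP_25bc1d_an

/-- Transfer one step beyond the threshold, for orbits that are not exceptional. -/
theorem transfer2 {s : ℝ} (hs : 1 < s) (hs2 : s ≤ 2) (m : ℕ) (hm : 3 ≤ m)
    (H : s ^ (m - 2) * (2 - s) < 1) (x : ℝ) (hx : x ∈ Set.Icc (0 : ℝ) 1)
    (hE : ∀ t0, Special (fun k => decide (1 / 2 < (Ts 2)^[k] x)) m t0 →
      (t0 = 0 → (Ts 2)^[m] x < (Ts 2)^[0] x) ∧ (1 ≤ t0 → (Ts 2)^[0] x < (Ts 2)^[m] x)) :
    ∃ y ∈ Set.Icc (0 : ℝ) 1, ∀ i j, i ≤ m → j ≤ m →
      (Ts 2)^[i] x < (Ts 2)^[j] x → (Ts s)^[i] y < (Ts s)^[j] y := by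
  classical
  have hs0 : 0 < s := by linarith
  set a : ℕ → ℝ := fun k => (Ts 2)^[k] x with hadef
  have hamem : ∀ k, a k ∈ Set.Icc (0 : ℝ) 1 := Ts_iter_mem (by norm_num) le_rfl hx
  set u : ℕ → Bool := fun k => decide (1 / 2 < a k) with hudef
  have ha : ∀ k, a k = br 2 (u k) (a (k + 1)) := fun k => by
    simp only [hadef, hudef, Function.iterate_succ_apply']; rw [br_Ts]
  have haW : ∀ i, i ≤ m → W 2 u i (m - i) (a m) = a i := fun i hi => by
    have := W_orbit 2 u a ha (m - i) i
    rwa [show i + (m - i) = m by omega] at this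
  choose P hPm hP using fun i => exists_fixed hs.le u i (m - i)
  choose Q hQm hQ using fun i => exists_fixed (s := 2) (by norm_num) u i (m - i)
  have hQlt : ∀ i, i < m → a i < a m → Q i < a m := fun i hi h =>
    fixed_lt_of_W_lt (by norm_num) u (by omega) (hQ i) (by rw [haW i hi.le]; exact h)
  have hQgt : ∀ i, i < m → a m < a i → a m < Q i := fun i hi h =>
    lt_fixed_of_lt_W (by norm_num) u (by omega) (hQ i) (by rw [haW i hi.le]; exact h)
  -- the upper bound `U`
  let Up : Finset ℝ := insert (s / 2) (((Finset.range m).filter fun i => a m < a i).image P)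
  have hUne : Up.Nonempty := ⟨_, Finset.mem_insert_self _ _⟩
  set U := Up.min' hUne with hU
  have hUmem : U ∈ Up := Finset.min'_mem _ _
  have hU1 : U ≤ s / 2 := Finset.min'_le _ _ (Finset.mem_insert_self _ _)
  have hU2 : ∀ i, i < m → a m < a i → U ≤ P i := fun i hi h =>
    Finset.min'_le _ _ (Finset.mem_insert_of_mem (Finset.mem_image_of_mem _
      (Finset.mem_filter.2 ⟨Finset.mem_range.2 hi, h⟩)))
  have hrec : ∀ (y : ℝ) (k : ℕ), k < m →
      W s u k (m - k) y = br s (u k) (W s u (k + 1) (m - (k + 1)) y) := fun y k hk => by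
    rw [show m - k = (m - (k + 1)) + 1 by omega, W_succ]
  change ∀ t0, Special u m t0 → (t0 = 0 → a m < a 0) ∧ (1 ≤ t0 → a 0 < a m) at hE
  have hadm1 : ∀ i, 1 ≤ i → i < m → ∀ k, i ≤ k → k ≤ m → W s u k (m - k) (P i) < s / 2 :=
    fun i h1 h2 => fixed_adm1 hs hs2 m H u i h1 h2 _ (hP i)
  have hadm0 := fixed_adm0 hs hs2 m (by omega) H u (P 0) (hP 0)
  have hwit : U = s / 2 ∨ ∃ j, j < m ∧ a m < a j ∧ P j = U ∧
      ∀ k, j ≤ k → k ≤ m → W s u k (m - k) (P j) < s / 2 := by
    rcases Finset.mem_insert.1 hUmem with h | h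
    · exact Or.inl h
    · obtain ⟨j, hj, hjU⟩ := Finset.mem_image.1 h
      obtain ⟨hj1, hj2⟩ := Finset.mem_filter.1 hj
      have hj1' : j < m := Finset.mem_range.1 hj1
      rcases Nat.eq_zero_or_pos j with rfl | hj0
      · rcases hadm0 with h0 | ⟨t0, hsp, hge⟩
        · exact Or.inr ⟨0, hj1', hj2, hjU, h0⟩
        · rcases Nat.eq_zero_or_pos t0 with rfl | ht
          · rw [hP 0, hjU] at hge
            exact Or.inl (le_antisymm hU1 hge)
          · exact absurd ((hE t0 hsp).2 ht) (not_lt.2 hj2.le)
      · exact Or.inr ⟨j, hj1', hj2, hjU, hadm1 j hj0 hj1'⟩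
  have hUI : U ∈ Set.Icc (0 : ℝ) 1 := by
    rcases hwit with h | ⟨j, -, -, h, -⟩
    · rw [h]; exact ⟨by linarith, by linarith⟩
    · rw [← h]; exact hPm j
  set Z : ℕ → ℝ := fun k => W s u k (m - k) U with hZdef
  have hZm : Z m = U := by simp [hZdef]
  have hZI : ∀ k, Z k ∈ Set.Icc (0 : ℝ) 1 := fun k => W_mem hs.le u hUI _ _
  have hZrec : ∀ k, k < m → Z k = br s (u k) (Z (k + 1)) := fun k hk => hrec U k hk
  have hU4 : 0 < U ∧ ∀ k, 1 ≤ k → k < m → Z k < s / 2 := by
    rcases hwit with h | ⟨j, hj1', hj2, hjU, hadm⟩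
    · refine ⟨by rw [h]; linarith, fun k hk1 hk => ?_⟩
      have e : Z (m - 1) = 1 / 2 := by
        rw [hZrec (m - 1) (by omega), show m - 1 + 1 = m by omega, hZm, h]
        cases u (m - 1)
        · rw [br_false]; field_simp
        · rw [br_true]; field_simp; ring
      rcases Nat.lt_or_ge k (m - 1) with h' | h'
      · have := back_prop hs hs2 (m - 2) H u Z (m - 1) (fun k hk => hZrec k (by omega))
          (by rw [e]) (by rw [e]; linarith) (m - 1 - k) (by omega) (by omega)
        rw [show m - 1 - (m - 1 - k) = k by omega] at this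
        exact this.2.2 (by omega)
      · rw [show k = m - 1 by omega, e]; linarith
    · have hQj := hQgt j hj1' hj2
      rw [hjU] at hadm
      change ∀ k, j ≤ k → k ≤ m → Z k < s / 2 at hadm
      have hex : ∃ k0, j ≤ k0 ∧ k0 < m ∧ u k0 = true := by
        by_contra hcon
        push Not at hcon
        have e := W_all_false (s := 2) u (Q j) (m - j) j
          (fun k h1 h2 => by simpa using hcon k h1 (by omega))
        rw [hQ j] at e
        have h2 : (1 : ℝ) < 2 ^ (m - j) := one_lt_pow₀ (by norm_num) (by omega)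
        have h3 : 0 < Q j := lt_of_le_of_lt (hamem m).1 hQj
        have := div_lt_self h3 h2
        linarith
      obtain ⟨k0, hk1, hk2, hk3⟩ := hex
      have hz0 : 1 / 2 ≤ Z k0 := by
        rw [hZrec k0 hk2, hk3, br_true]
        have := hadm (k0 + 1) (by omega) (by omega)
        have : Z (k0 + 1) / s < 1 / 2 := by
          rw [div_lt_iff₀ hs0]; linarith
        linarith
      have hb := back_prop hs hs2 (m - 2) H u Z k0
          (fun k hk => hZrec k (by omega)) hz0 (hadm k0 hk1 hk2.le).le
      refine ⟨?_, fun k hk1' hk => ?_⟩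
      · have := back_pos hs u Z k0 (fun k hk => hZrec k (by omega)) (fun k => (hZI k).2)
          (by linarith) (k0 - j) (by omega)
        rw [show k0 - (k0 - j) = j by omega] at this
        have e : Z j = U := by simp only [hZdef]; rw [← hjU]; exact hP j
        rwa [e] at this
      · rcases Nat.lt_or_ge k k0 with h' | h'
        · have := (hb (k0 - k) (by omega) (by omega)).2.2 (by omega)
          rwa [show k0 - (k0 - k) = k by omega] at this
        · exact hadm k (by omega) hk.le
  have hZpos : ∀ k, k ≤ m → 0 < Z k := fun k hk => by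
    have := back_pos hs u Z m hZrec (fun k => (hZI k).2) (by rw [hZm]; exact hU4.1) (m - k)
      (by omega)
    rwa [show m - (m - k) = k by omega] at this
  have hZle : ∀ k, 1 ≤ k → k ≤ m → Z k ≤ s / 2 := fun k h1 h2 => by
    rcases Nat.lt_or_ge k m with h | h
    · exact (hU4.2 k h1 h).le
    · rw [show k = m by omega, hZm]; exact hU1
  have hU3 : 0 < U ∧ (∀ i, i < m → a i < a m → P i < U) ∧
      ∀ k, 1 ≤ k → k < m → W s u k (m - k) U < s / 2 := by
    refine ⟨hU4.1, fun i hi him => ?_, hU4.2⟩
    by_cases hai : ∀ k, i ≤ k → k ≤ m → W s u k (m - k) (P i) < s / 2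
    · rcases hwit with h | ⟨j, hj1', hj2, hjU, hadm⟩
      · have := hai m hi.le le_rfl
        rw [h]; simpa using this
      · rw [← hjU]
        exact fixed_order2 hs m u P Q hP hQ hQm i j hi hj1' hai hadm
          ((hQlt i hi him).trans (hQgt j hj1' hj2))
    obtain rfl : i = 0 := by
      by_contra h0
      exact hai (hadm1 i (by omega) hi)
    obtain ⟨t0, hsp, -⟩ := hadm0.resolve_left hai
    have ht1 : 1 ≤ t0 := by
      by_contra h0
      exact absurd ((hE t0 hsp).1 (by omega)) (not_lt.2 him.le)
    have htm := hsp.1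
    refine fixed_lt_of_W_lt hs u (show 1 ≤ m - 0 by omega) (hP 0) ?_
    change Z 0 < U
    have hZt : Z t0 = 1 - Z (t0 + 1) / s := by rw [hZrec t0 htm, hsp.2.1, br_true]
    have hZt2 : 1 / 2 ≤ Z t0 := by
      have := hZle (t0 + 1) (by omega) (by omega)
      have : Z (t0 + 1) / s ≤ 1 / 2 := by rw [div_le_iff₀ hs0]; linarith
      linarith
    have hdbl : ∀ d k, t0 < k → k + d = m → a k ≤ a m := by
      intro d
      induction d with
      | zero => intro k _ h; rw [show k = m by omega]
      | succ d ih =>
        intro k h1 h2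
        have e := ha k
        rw [hsp.hi h1 (by omega) (by omega), br_false] at e
        have := ih (k + 1) (by omega) (by omega)
        linarith [(hamem (k + 1)).1]
    have hjt : ∀ j, j < m → a m < a j → 1 ≤ j ∧ j ≤ t0 := fun j h1 h2 => by
      constructor
      · by_contra h0
        rw [show j = 0 by omega] at h2
        linarith
      · by_contra h0
        have := hdbl (m - j) j (by omega) (by omega)
        linarith
    have hZj : ∀ j, P j = U → Z j = U := fun j hjU => by
      simp only [hZdef]; rw [← hjU]; exact hP j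
    have hZ1 : Z 1 / s < 1 / 2 := by
      rw [div_lt_iff₀ hs0]; linarith [hU4.2 1 le_rfl (by omega)]
    have e0 := hZrec 0 (by omega)
    rw [zero_add] at e0
    rcases Nat.lt_or_ge 1 t0 with ht2 | ht2
    · rw [hsp.lo (show 0 + 2 ≤ t0 by omega), br_false] at e0
      rcases hwit with h | ⟨j, hj1', hj2, hjU, -⟩
      · rw [h]; linarith
      · obtain ⟨j1, j2⟩ := hjt j hj1' hj2
        rw [← hZj j hjU]
        rcases Nat.eq_or_lt_of_le j2 with rfl | j3
        · linarith
        · have hinc : ∀ k, k + 1 ≤ t0 → Z 0 ≤ Z k ∧ (1 ≤ k → Z 0 < Z k) := by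
            intro k
            induction k with
            | zero => intro _; exact ⟨le_rfl, fun h => absurd h (by omega)⟩
            | succ k ih =>
              intro hk
              have e := hZrec k (by omega)
              rw [hsp.lo hk, br_false] at e
              have := div_lt_self (hZpos (k + 1) (by omega)) hs
              have h1 := (ih (by omega)).1
              exact ⟨by linarith, fun _ => by linarith⟩
          exact (hinc j (by omega)).2 j1
    · obtain rfl : t0 = 1 := by omega
      have h12 : 1 / 2 / s ≤ Z 1 / s := div_le_div_of_nonneg_right hZt2 hs0.le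
      rcases hwit with h | ⟨j, hj1', hj2, hjU, -⟩
      · have h3 : 1 - 1 / 2 / s < s / 2 := by
          have : 1 - s / 2 < 1 / 2 / s := by
            rw [lt_div_iff₀ hs0]; nlinarith
          linarith
        rw [h]
        cases hu : u 0 <;> rw [hu] at e0 <;> simp only [br_true, br_false] at e0 <;> linarith
      · obtain ⟨j1, j2⟩ := hjt j hj1' hj2
        obtain rfl : j = 1 := by omega
        have hZ1U := hZj 1 hjU
        have e2 : Z 2 = U / s ^ (m - 2) := W_all_false u U (m - 2) 2
          (fun k h1 h2 => hsp.hi (by omega) (by omega) (by omega))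
        have h3 : Z 2 < Z 1 := by
          rw [e2, hZ1U]; exact div_lt_self hU4.1 (one_lt_pow₀ hs (by omega))
        have h4 : Z 2 / s < Z 1 / s := div_lt_div_of_pos_right h3 hs0
        have h5 := div_lt_self (hZpos 1 (by omega)) hs
        rw [← hZ1U]
        change Z 1 = 1 - Z 2 / s at hZt
        cases hu : u 0 <;> rw [hu] at e0 <;> simp only [br_true, br_false] at e0 <;> linarith
  obtain ⟨hU0, hUl, hUk⟩ := hU3
  -- choose `y` slightly below `U`
  have hev : ∀ᶠ y in nhdsWithin U (Set.Iio U), y < U ∧ 0 < y ∧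
      (∀ i ∈ Finset.range m, a i < a m → P i < y) ∧
      ∀ k ∈ Finset.range m, 1 ≤ k → W s u k (m - k) y < s / 2 := by
    refine Filter.Eventually.and self_mem_nhdsWithin (nhdsWithin_le_nhds ?_)
    refine Filter.Eventually.and (lt_mem_nhds hU0) (Filter.Eventually.and ?_ ?_)
    · rw [Filter.eventually_all_finset]
      intro i hi
      by_cases h : a i < a m
      · exact (lt_mem_nhds (hUl i (Finset.mem_range.1 hi) h) : ∀ᶠ y in nhds U, P i < y).mono
          fun y hy _ => hy
      · exact Filter.Eventually.of_forall fun y h' => absurd h' h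
    · rw [Filter.eventually_all_finset]
      intro k hk
      by_cases h : 1 ≤ k
      · have := (W_cont s u (m - k) k).continuousAt.eventually_lt (continuousAt_const (y := s / 2))
          (hUk k h (Finset.mem_range.1 hk))
        exact this.mono fun y hy _ => hy
      · exact Filter.Eventually.of_forall fun y h' => absurd h' h
  obtain ⟨y, hy1, hy0, hy2, hy3⟩ := hev.exists
  have hymem : y ∈ Set.Icc (0 : ℝ) 1 := ⟨hy0.le, by linarith⟩
  set z : ℕ → ℝ := fun k => W s u k (m - k) y with hzdef
  have hzm : z m = y := by simp [hzdef]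
  have hzlt : ∀ k, 1 ≤ k → k ≤ m → z k < s / 2 := fun k h1 h2 => by
    rcases Nat.lt_or_ge k m with h | h
    · exact hy3 k (Finset.mem_range.2 h) h1
    · rw [show k = m by omega, hzm]; linarith
  have hzrec : ∀ k, k < m → z k = br s (u k) (z (k + 1)) := fun k hk => hrec y k hk
  have hiter : ∀ k, k ≤ m → (Ts s)^[k] (z 0) = z k := by
    intro k
    induction k with
    | zero => intro _; rfl
    | succ k ih =>
      intro hk
      rw [Function.iterate_succ_apply', ih (by omega), hzrec k (by omega),
        Ts_br hs0 _ (hzlt _ (by omega) hk).le]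
  refine ⟨z 0, W_mem hs.le u hymem _ _, fun i j hi hj hij => ?_⟩
  rw [hiter i hi, hiter j hj]
  change a i < a j at hij
  have main : ∀ d i j, i ≤ m → j ≤ m → max i j + d = m → a i < a j → z i < z j := by
    intro d
    induction d with
    | zero =>
      intro i j hi hj hd hij
      rcases Nat.lt_or_ge j m with h | h
      · have him : i = m := by omega
        subst him
        rw [hzm]
        exact lt_W_of_lt_fixed hs u (by omega) (hP j) (lt_of_lt_of_le hy1 (hU2 j h hij))
      · have hjm : j = m := by omega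
        subst hjm
        have him : i < j := by
          rcases Nat.lt_or_ge i j with h' | h'
          · exact h'
          · rw [show i = j by omega] at hij; exact absurd hij (lt_irrefl _)
        rw [hzm]
        exact W_lt_of_fixed_lt hs u (by omega) (hP i) (hy2 i (Finset.mem_range.2 him) hij)
    | succ d ih =>
      intro i j hi hj hd hij
      have hi' : i < m := by omega
      have hj' : j < m := by omega
      have ea := hzrec i hi'; have eb := hzrec j hj'
      have Ea := ha i; have Eb := ha j
      have la := hzlt (i + 1) (by omega) hi'; have lb := hzlt (j + 1) (by omega) hj'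
      have ha2 : z (i + 1) / s < 1 / 2 := by rw [div_lt_iff₀ hs0]; linarith
      have hb2 : z (j + 1) / s < 1 / 2 := by rw [div_lt_iff₀ hs0]; linarith
      have La := hamem (i + 1); have Lb := hamem (j + 1)
      simp only [Set.mem_Icc] at La Lb
      cases hla : u i <;> cases hlb : u j <;> rw [hla] at ea Ea <;> rw [hlb] at eb Eb <;>
        simp only [br_true, br_false] at ea eb Ea Eb
      · have : z (i + 1) < z (j + 1) := ih _ _ hi' hj' (by omega) (by linarith)
        rw [ea, eb]; exact div_lt_div_of_pos_right this hs0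
      · linarith
      · linarith
      · have : z (j + 1) < z (i + 1) := ih _ _ hj' hi' (by omega) (by linarith)
        have := div_lt_div_of_pos_right this hs0
        linarith
  exact main (m - max i j) i j hi hj (by omega) hij

end Pool.Agent.P.MP_25bc1d_an
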