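import Pool.Agent.P.MP_25bc1d_an.AlB

namespace Pool.Agent.P.MP_25bc1d_an

lemma lt_of_chain (a : ℕ → ℝ) (p q : ℕ) (h : ∀ k, p ≤ k → k < q → a k < a (k + 1)) :
    ∀ i j, p ≤ i → i < j → j ≤ q → a i < a j := by
  intro i j hi hij
  induction j, hij using Nat.le_induction with
  | base => intro hq; exact h i hi hq
  | succ j hj ih => intro hq; exact (ih (by omega)).trans (h j (by omega) hq)

lemma le_of_chain (a : ℕ → ℝ) (p q : ℕ) (h : ∀ k, p ≤ k → k < q → a k < a (k + 1)) :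
    ∀ i j, p ≤ i → i ≤ j → j ≤ q → a i ≤ a j := fun i j hi hij hq => by
  rcases Nat.eq_or_lt_of_le hij with rfl | h'
  · exact le_rfl
  · exact (lt_of_chain a p q h i j hi h' hq).le

/-- `a_{t+1} < ⋯ < a_m < a_0 < ⋯ < a_t` -/
def RhoOrd (a : ℕ → ℝ) (m t : ℕ) : Prop :=
  (∀ k, 0 ≤ k → k < t → a k < a (k + 1)) ∧ (∀ k, t + 1 ≤ k → k < m → a k < a (k + 1)) ∧ a m < a 0

/-- `a_1 < ⋯ < a_{m-1} < a_0 < a_m` -/
def TauOrd (a : ℕ → ℝ) (m : ℕ) : Prop :=
  (∀ k, 1 ≤ k → k < m - 1 → a k < a (k + 1)) ∧ a (m - 1) < a 0 ∧ a 0 < a m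

lemma lemK {s v : ℝ} (hs : 1 < s) (e : ℕ) (h : s ^ e * (1 - s * min v (1 - v)) < v) :
    s ^ e * (2 - s) < 1 := by
  have hp : 1 ≤ s ^ e := one_le_pow₀ hs.le
  rcases le_total v (1 / 2) with hc | hc
  · rw [min_eq_left (by linarith)] at h
    have : 0 ≤ s ^ e * (s * (1 / 2 - v)) := by
      apply mul_nonneg (by linarith); apply mul_nonneg (by linarith); linarith
    nlinarith
  · rw [min_eq_right (by linarith)] at h
    have h3 : 1 ≤ s ^ e * s := by nlinarith
    have : 0 ≤ (s ^ e * s - 1) * (v - 1 / 2) := mul_nonneg (by linarith) (by linarith)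
    nlinarith

lemma run_pow {s : ℝ} (b : ℕ → ℝ) (hb : ∀ k, b (k + 1) = s * min (b k) (1 - b k)) (p q : ℕ)
    (h : ∀ k, p ≤ k → k < q → b k ≤ 1 / 2) : ∀ d, p + d ≤ q → b (p + d) = s ^ d * b p := by
  intro d
  induction d with
  | zero => intro _; simp
  | succ d ih =>
    intro hd
    have := h (p + d) (by omega) (by omega)
    rw [← add_assoc, hb, min_eq_left (by linarith), ih (by omega)]; ring

lemma anti_step {s : ℝ} (hs : 1 < s) (b : ℕ → ℝ) (hb : ∀ k, b (k + 1) = s * min (b k) (1 - b k))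
    {i j : ℕ} (h1 : 1 / 2 < b i) (h2 : b i < b j) : b (j + 1) < b (i + 1) := by
  rw [hb, hb, min_eq_right (by linarith), min_eq_right (by linarith)]
  nlinarith

lemma gt_half {s : ℝ} (hs : 1 < s) (b : ℕ → ℝ) (hb : ∀ k, b (k + 1) = s * min (b k) (1 - b k))
    {i : ℕ} (h0 : 0 ≤ b i) (h : b (i + 1) < b i) : 1 / 2 < b i := by
  by_contra hc
  push Not at hc
  rw [hb, min_eq_left (by linarith)] at h
  nlinarith

lemma rho_imp {s : ℝ} (hs : 1 < s) (b : ℕ → ℝ) (hb : ∀ k, b (k + 1) = s * min (b k) (1 - b k))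
    (hb0 : ∀ k, 0 ≤ b k) (m t : ℕ) (ht1 : 1 ≤ t) (htm : t < m) (h : RhoOrd b m t) :
    s ^ (m - 1) * (2 - s) < 1 := by
  obtain ⟨h1, h2, h3⟩ := h
  obtain ⟨t, rfl⟩ : ∃ t', t = t' + 1 := ⟨t - 1, by omega⟩
  have l1 := le_of_chain b _ _ h1
  have l2 := le_of_chain b _ _ h2
  have htop : b t < b (t + 1) := h1 t (by omega) (by omega)
  have h0t : b 0 ≤ b t := l1 0 t le_rfl (by omega) (by omega)
  have hhalf : 1 / 2 < b (t + 1) := gt_half hs b hb (hb0 _) (by
    have := l2 (t + 1 + 1) m le_rfl (by omega) le_rfl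
    linarith)
  have hlow : ∀ k, b k < b (k + 1) → b (k + 1) ≤ b t → b k ≤ 1 / 2 := fun k k1 k2 => by
    by_contra hc
    push Not at hc
    have := anti_step hs b hb hc (lt_of_lt_of_le k1 k2)
    linarith
  have e1 := run_pow b hb 0 t (fun k _ hk => hlow k (h1 k (by omega) (by omega))
    (l1 (k + 1) t (by omega) hk (by omega))) t (by omega)
  have e2 := run_pow b hb (t + 1 + 1) m (fun k k1 hk => hlow k (h2 k k1 hk) (by
    have := l2 (k + 1) m (by omega) hk le_rfl
    linarith)) (m - (t + 1 + 1)) (by omega)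
  rw [zero_add] at e1
  rw [show t + 1 + 1 + (m - (t + 1 + 1)) = m by omega, hb (t + 1),
    min_eq_right (by linarith)] at e2
  apply lemK (v := b t) hs
  rw [← hb t]
  have hp : 0 < s ^ t := by positivity
  have e3 : s ^ (m - 1) = s ^ t * (s ^ (m - (t + 1 + 1)) * s) := by
    rw [← pow_succ, ← pow_add]; congr 1; omega
  have := mul_lt_mul_of_pos_left h3 hp
  rw [e3]
  calc _ = s ^ t * b m := by rw [e2]; ring
    _ < s ^ t * b 0 := this
    _ = b t := e1.symm

lemma tau_imp {s : ℝ} (hs : 1 < s) (b : ℕ → ℝ) (hb : ∀ k, b (k + 1) = s * min (b k) (1 - b k))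
    (hb0 : ∀ k, 0 ≤ b k) (m : ℕ) (hm : 2 ≤ m) (h : TauOrd b m) :
    s ^ (m - 1) * (2 - s) < 1 := by
  obtain ⟨h1, h2, h3⟩ := h
  obtain ⟨m, rfl⟩ : ∃ m', m = m' + 1 := ⟨m - 1, by omega⟩
  simp only [Nat.add_sub_cancel] at h1 h2 ⊢
  have l1 := le_of_chain b _ _ h1
  have hhalf : 1 / 2 < b 0 := gt_half hs b hb (hb0 _) (by
    have := l1 1 m le_rfl (by omega) le_rfl
    rw [zero_add]; linarith)
  have e1 := run_pow b hb 1 m (fun k k1 hk => by
    by_contra hc
    push Not at hc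
    have k2 := l1 (k + 1) m (by omega) hk le_rfl
    have := anti_step hs b hb hc (lt_of_lt_of_le (h1 k k1 hk) k2)
    linarith) (m - 1) (by omega)
  have e0 := hb 0
  rw [zero_add, min_eq_right (by linarith)] at e0
  rw [show 1 + (m - 1) = m by omega, e0] at e1
  apply lemK (v := b m) hs
  rw [← hb m]
  have hp : 0 < s ^ m := by positivity
  have e3 : s ^ m = s ^ (m - 1) * s := by rw [← pow_succ]; congr 1; omega
  have := mul_lt_mul_of_pos_left (show 1 - b (m + 1) < 1 - b 0 by linarith) hp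
  calc _ < s ^ m * (1 - b 0) := this
    _ = b m := by rw [e1, e3]; ring

lemma Ts_succ (s x : ℝ) (k : ℕ) :
    (Ts s)^[k + 1] x = s * min ((Ts s)^[k] x) (1 - (Ts s)^[k] x) := by
  rw [Function.iterate_succ_apply']; rfl

lemma rho_full (m t : ℕ) (ht1 : 1 ≤ t) (htm : t < m) :
    ∃ x ∈ Set.Icc (0 : ℝ) 1, RhoOrd (fun k => (Ts 2)^[k] x) m t := by
  obtain ⟨t, rfl⟩ : ∃ t', t = t' + 1 := ⟨t - 1, by omega⟩
  set ε : ℝ := 1 / 2 ^ (m + 3) with hε
  have hε0 : 0 < ε := by positivity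
  have hεk : 2 ^ (m + 1) * ε = 1 / 4 := by rw [hε]; field_simp; ring
  have hpow : ∀ r, r ≤ m + 1 → 2 ^ r * ε ≤ 1 / 4 := fun r hr => by
    rw [← hεk]; exact mul_le_mul_of_nonneg_right (pow_le_pow_right₀ (by norm_num) hr) hε0.le
  have hε8 : ε ≤ 1 / 8 := by have := hpow 1 (by omega); linarith
  have hpt : (1 : ℝ) ≤ 2 ^ t := one_le_pow₀ (by norm_num)
  set x : ℝ := (1 / 2 - ε) / 2 ^ t with hx
  have hx0 : 0 < x := div_pos (by linarith) (by linarith)
  have hxt : 2 ^ t * x = 1 / 2 - ε := by rw [hx]; field_simp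
  set a : ℕ → ℝ := fun k => (Ts 2)^[k] x with hadef
  have hsucc : ∀ k, a (k + 1) = 2 * min (a k) (1 - a k) := Ts_succ 2 x
  have hle : ∀ k, k ≤ t → 2 ^ k * x ≤ 1 / 2 - ε := fun k hk => by
    rw [← hxt]; exact mul_le_mul_of_nonneg_right (pow_le_pow_right₀ (by norm_num) hk) hx0.le
  have a1 : ∀ k, k ≤ t + 1 → a k = 2 ^ k * x := by
    intro k
    induction k with
    | zero => intro _; simp [hadef]
    | succ k ih =>
      intro hk
      have := hle k (by omega)
      rw [hsucc, ih (by omega), min_eq_left (by linarith)]; ring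
  have a2 : ∀ r, 1 ≤ r → r ≤ m → a (t + 1 + r) = 2 ^ (r + 1) * ε := by
    intro r hr
    induction r, hr using Nat.le_induction with
    | base =>
      intro _
      have : a (t + 1) = 1 - 2 * ε := by rw [a1 _ le_rfl, pow_succ]; linarith
      rw [hsucc, this, min_eq_right (by linarith)]; ring
    | succ r hr ih =>
      intro hrm
      have := hpow (r + 1) (by omega)
      rw [← add_assoc, hsucc, ih (by omega), min_eq_left (by linarith)]; ring
  refine ⟨x, ⟨hx0.le, by have := hle 0 (by omega); simp at this; linarith⟩, fun k _ hk => ?_,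
    fun k k1 hk => ?_, ?_⟩
  · change a k < a (k + 1)
    rw [a1 k (by omega), a1 (k + 1) (by omega)]
    exact mul_lt_mul_of_pos_right (pow_lt_pow_right₀ (by norm_num) (by omega)) hx0
  · change a k < a (k + 1)
    have e1 := a2 (k - (t + 1)) (by omega) (by omega)
    have e2 := a2 (k - (t + 1) + 1) (by omega) (by omega)
    rw [show t + 1 + (k - (t + 1)) = k by omega] at e1
    rw [show t + 1 + (k - (t + 1) + 1) = k + 1 by omega] at e2
    rw [e1, e2]
    exact mul_lt_mul_of_pos_right (pow_lt_pow_right₀ (by norm_num) (by omega)) hε0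
  · change a m < a 0
    have e1 := a2 (m - (t + 1)) (by omega) (by omega)
    rw [show t + 1 + (m - (t + 1)) = m by omega] at e1
    rw [e1, a1 0 (by omega), pow_zero, one_mul, hx, lt_div_iff₀ (by linarith)]
    have := hpow (m - (t + 1) + 1 + t) (by omega)
    rw [pow_add] at this
    nlinarith

lemma tau_full (m : ℕ) (hm : 2 ≤ m) :
    ∃ x ∈ Set.Icc (0 : ℝ) 1, TauOrd (fun k => (Ts 2)^[k] x) m := by
  obtain ⟨m, rfl⟩ : ∃ m', m = m' + 1 := ⟨m - 1, by omega⟩
  set δ : ℝ := 1 / 2 ^ (m + 1) with hδ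
  have hδ0 : 0 < δ := by positivity
  have hδk : 2 ^ m * δ = 1 / 2 := by rw [hδ]; field_simp; ring
  have hpow : ∀ r, r ≤ m → 2 ^ r * δ ≤ 1 / 2 := fun r hr => by
    rw [← hδk]; exact mul_le_mul_of_nonneg_right (pow_le_pow_right₀ (by norm_num) hr) hδ0.le
  have hδ4 : δ ≤ 1 / 4 := by have := hpow 1 (by omega); linarith
  set a : ℕ → ℝ := fun k => (Ts 2)^[k] (1 - δ) with hadef
  have hsucc : ∀ k, a (k + 1) = 2 * min (a k) (1 - a k) := Ts_succ 2 _
  have a0 : a 0 = 1 - δ := rfl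
  have a1 : ∀ k, 1 ≤ k → k ≤ m + 1 → a k = 2 ^ k * δ := by
    intro k hk
    induction k, hk using Nat.le_induction with
    | base => intro _; rw [hsucc 0, a0, min_eq_right (by linarith)]; ring
    | succ k hk ih =>
      intro hkm
      have := hpow k (by omega)
      rw [hsucc, ih (by omega), min_eq_left (by linarith)]; ring
  refine ⟨1 - δ, ⟨by linarith, by linarith⟩, fun k k1 hk => ?_, ?_, ?_⟩
  · change a k < a (k + 1)
    rw [a1 k k1 (by omega), a1 (k + 1) (by omega) (by omega)]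
    exact mul_lt_mul_of_pos_right (pow_lt_pow_right₀ (by norm_num) (by omega)) hδ0
  · change a (m + 1 - 1) < a 0
    rw [Nat.add_sub_cancel, a1 m (by omega) (by omega), a0]; linarith
  · change a 0 < a (m + 1)
    rw [a1 (m + 1) (by omega) le_rfl, a0, pow_succ]; linarith

/-- an exceptional orbit of the full tent map has one of the listed orders -/
lemma special_ord (a : ℕ → ℝ) (ha : ∀ k, a (k + 1) = 2 * min (a k) (1 - a k))
    (ha0 : ∀ k, 0 ≤ a k) (m : ℕ) (hm : 3 ≤ m) (hne : ∀ i j, i < j → j ≤ m → a i ≠ a j) (t0 : ℕ)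
    (hsp : Special (fun k => decide (1 / 2 < a k)) m t0) :
    (t0 = 0 → a 0 < a m → TauOrd a m) ∧ (1 ≤ t0 → a m < a 0 → RhoOrd a m t0) := by
  have htm := hsp.1
  have hR : 1 / 2 < a t0 := by simpa using hsp.2.1
  have hhi : ∀ k, t0 < k → k < m → k + 2 ≤ m + t0 → a k ≤ 1 / 2 := fun k h1 h2 h3 => by
    simpa using hsp.hi h1 h2 h3
  have hlo : ∀ k, k + 2 ≤ t0 → a k ≤ 1 / 2 := fun k h1 => by simpa using hsp.lo h1
  have hinc : ∀ k, k < m → a k ≤ 1 / 2 → a k < a (k + 1) := fun k h1 h2 => by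
    refine lt_of_le_of_ne ?_ (hne k (k + 1) (by omega) h1)
    rw [ha, min_eq_left (by linarith)]; linarith [ha0 k]
  constructor
  · rintro rfl h0
    refine ⟨fun k k1 k2 => hinc k (by omega) (hhi k k1 (by omega) (by omega)), ?_, h0⟩
    by_contra hc
    have h1 : a 0 < a (m - 1) :=
      lt_of_le_of_ne (not_lt.1 hc) (hne 0 (m - 1) (by omega) (by omega))
    have h2 := anti_step (s := 2) (by norm_num) a ha hR h1
    rw [show m - 1 + 1 = m by omega, zero_add] at h2
    have := hhi 1 (by omega) (by omega) (by omega)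
    linarith
  · intro ht h0
    have c2 : ∀ k, t0 + 1 ≤ k → k < m → a k < a (k + 1) := fun k k1 k2 =>
      hinc k k2 (hhi k k1 k2 (by omega))
    refine ⟨fun k _ k2 => ?_, c2, h0⟩
    rcases Nat.lt_or_ge (k + 1) t0 with h | h
    · exact hinc k (by omega) (hlo k h)
    · obtain rfl : t0 = k + 1 := by omega
      by_contra hc
      have h1 : a (k + 1) < a k :=
        lt_of_le_of_ne (not_lt.1 hc) (hne k (k + 1) (by omega) (by omega)).symm
      have h2 := anti_step (s := 2) (by norm_num) a ha hR h1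
      have h3 := le_of_chain a _ _ c2 (k + 1 + 1) m le_rfl (by omega) le_rfl
      rcases Nat.eq_zero_or_pos k with rfl | hk
      · have := hhi (0 + 1 + 1) (by omega) (by omega) (by omega)
        linarith
      · have := hlo 0 (by omega)
        linarith

end Pool.Agent.P.MP_25bc1d_an
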