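import Pool.Agent.P.MP_25bc1d_an.AlC

namespace Pool.Agent.P.MP_25bc1d_an

lemma pattern_of {f : ℝ → ℝ} {x : ℝ} {π : List ℕ} (hp : π.Perm (List.range' 1 π.length))
    (h : ∀ i j : Fin π.length, π.get i < π.get j → f^[i] x < f^[j] x) : IsPattern f x π := by
  have hnd : π.Nodup := hp.nodup_iff.2 (List.nodup_range' ..)
  have hinj : Function.Injective π.get := List.nodup_iff_injective_get.1 hnd
  refine ⟨hp, fun i j hij => ?_, fun i j => ⟨h i j, fun hlt => ?_⟩⟩
  · rcases lt_or_gt_of_ne (hinj.ne hij) with h' | h'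
    · exact (h i j h').ne
    · exact (h j i h').ne'
  · rcases lt_trichotomy (π.get i) (π.get j) with h' | h' | h'
    · exact h'
    · rw [hinj h'] at hlt; exact absurd hlt (lt_irrefl _)
    · exact absurd (h j i h') (not_lt.2 hlt.le)

lemma pattern_unique {f : ℝ → ℝ} {x : ℝ} {π ρ : List ℕ} (hl : ρ.length = π.length)
    (h1 : IsPattern f x π) (h2 : IsPattern f x ρ) : π = ρ := by
  have hnd : π.Nodup := h1.1.nodup_iff.2 (List.nodup_range' ..)
  have hinj : Function.Injective π.get := List.nodup_iff_injective_get.1 hnd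
  let g : Fin π.length → ℕ := π.get
  let g' : Fin π.length → ℕ := ρ.get ∘ Fin.cast hl.symm
  have hiff : ∀ i j, g i < g j ↔ g' i < g' j := fun i j => by
    rw [h1.2.2 i j]
    exact (h2.2.2 (Fin.cast hl.symm i) (Fin.cast hl.symm j)).symm
  have m1 : StrictMono (g ∘ Tuple.sort g) :=
    (Tuple.monotone_sort g).strictMono_of_injective (hinj.comp (Tuple.sort g).injective)
  have m2 : StrictMono (g' ∘ Tuple.sort g) := fun i j hij => (hiff _ _).1 (m1 hij)
  have hr : Set.range (g ∘ Tuple.sort g) = Set.range (g' ∘ Tuple.sort g) := by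
    rw [(Tuple.sort g).surjective.range_comp, (Tuple.sort g).surjective.range_comp,
      show Set.range g' = Set.range ρ.get from (finCongr hl.symm).surjective.range_comp ρ.get,
      Set.range_list_get, Set.range_list_get]
    ext v
    simp only [Set.mem_ofPred_eq]
    rw [h1.1.mem_iff, h2.1.mem_iff, hl]
  have he : g ∘ Tuple.sort g = g' ∘ Tuple.sort g := (m1.range_inj m2).1 hr
  have hg : g = g' := by
    funext i
    have := congrFun he ((Tuple.sort g).symm i)
    simpa using this
  exact List.ext_get hl.symm fun n k1 k2 => congrFun hg ⟨n, k1⟩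

lemma rho_length (n r : ℕ) : ((List.range' 1 n).rotate r).length = n := by simp

lemma rho_perm (n r : ℕ) : ((List.range' 1 n).rotate r).Perm
    (List.range' 1 ((List.range' 1 n).rotate r).length) := by
  rw [rho_length]; exact List.rotate_perm _ _

lemma rho_get (m t : ℕ) (htm : t < m)
    (i : Fin ((List.range' 1 (m + 1)).rotate (m - t)).length) :
    ((List.range' 1 (m + 1)).rotate (m - t)).get i =
      if (i : ℕ) ≤ t then 1 + i + (m - t) else i - t := by
  obtain ⟨i, hi⟩ := i
  have hi' : i < m + 1 := by simpa using hi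
  simp only [List.get_eq_getElem, List.getElem_rotate, List.getElem_range', List.length_range',
    one_mul]
  split_ifs with h
  · rw [Nat.mod_eq_of_lt (by omega)]; omega
  · rw [show i + (m - t) = (m + 1) + (i - t - 1) by omega, Nat.add_mod_left,
      Nat.mod_eq_of_lt (by omega)]; omega

lemma rho_iff {f : ℝ → ℝ} {x : ℝ} (m t : ℕ) (htm : t < m) :
    IsPattern f x ((List.range' 1 (m + 1)).rotate (m - t)) ↔ RhoOrd (fun k => f^[k] x) m t := by
  have hlen := rho_length (m + 1) (m - t)
  constructor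
  · rintro ⟨-, -, h⟩
    have key : ∀ i j, i ≤ m → j ≤ m → (if i ≤ t then 1 + i + (m - t) else i - t) <
        (if j ≤ t then 1 + j + (m - t) else j - t) → f^[i] x < f^[j] x := fun i j hi hj hij =>
      (h ⟨i, by omega⟩ ⟨j, by omega⟩).1 (by rw [rho_get m t htm, rho_get m t htm]; exact hij)
    exact ⟨fun k _ hk => key _ _ (by omega) (by omega) (by split_ifs <;> omega),
      fun k k1 hk => key _ _ (by omega) (by omega) (by split_ifs <;> omega),
      key _ _ le_rfl (by omega) (by split_ifs <;> omega)⟩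
  · rintro ⟨h1, h2, h3⟩
    refine pattern_of (rho_perm _ _) fun i j hij => ?_
    rw [rho_get m t htm, rho_get m t htm] at hij
    have hi : (i : ℕ) ≤ m := by omega
    have hj : (j : ℕ) ≤ m := by omega
    split_ifs at hij with c1 c2 c3
    · exact lt_of_chain _ _ _ h1 i j (by omega) (by omega) c2
    · omega
    · have e1 := le_of_chain _ _ _ h2 i m (by omega) hi le_rfl
      have e2 := le_of_chain _ _ _ h1 0 j le_rfl (by omega) c3
      exact lt_of_le_of_lt e1 (lt_of_lt_of_le h3 e2)
    · exact lt_of_chain _ _ _ h2 i j (by omega) (by omega) hj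

lemma tau_length (k : ℕ) : ((k + 1) :: (List.range' 1 k ++ [k + 2])).length = k + 2 := by simp

lemma tau_perm (k : ℕ) : ((k + 1) :: (List.range' 1 k ++ [k + 2])).Perm
    (List.range' 1 ((k + 1) :: (List.range' 1 k ++ [k + 2])).length) := by
  rw [tau_length]
  have : List.range' 1 (k + 2) = List.range' 1 k ++ (k + 1) :: [k + 2] := by
    rw [List.range'_concat, List.range'_concat]; simp; omega
  rw [this]
  exact List.perm_middle.symm

lemma tau_get (k : ℕ) (i : Fin ((k + 1) :: (List.range' 1 k ++ [k + 2])).length) :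
    ((k + 1) :: (List.range' 1 k ++ [k + 2])).get i =
      if (i : ℕ) = 0 then k + 1 else if (i : ℕ) ≤ k then i else k + 2 := by
  obtain ⟨i, hi⟩ := i
  have hi' : i < k + 2 := by rw [tau_length] at hi; exact hi
  rcases i with _ | i
  · simp
  · simp only [List.get_eq_getElem, List.getElem_cons_succ, List.getElem_append,
      List.length_range', List.getElem_range', one_mul, List.getElem_singleton]
    rw [if_neg (Nat.succ_ne_zero i)]
    split_ifs <;> omega

lemma tau_iff {f : ℝ → ℝ} {x : ℝ} (k : ℕ) (hk : 1 ≤ k) :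
    IsPattern f x ((k + 1) :: (List.range' 1 k ++ [k + 2])) ↔
      TauOrd (fun i => f^[i] x) (k + 1) := by
  have hlen := tau_length k
  constructor
  · rintro ⟨-, -, h⟩
    have key : ∀ i j, i ≤ k + 1 → j ≤ k + 1 →
        (if i = 0 then k + 1 else if i ≤ k then i else k + 2) <
        (if j = 0 then k + 1 else if j ≤ k then j else k + 2) → f^[i] x < f^[j] x :=
      fun i j hi hj hij =>
      (h ⟨i, by omega⟩ ⟨j, by omega⟩).1 (by rw [tau_get, tau_get]; exact hij)
    refine ⟨fun i k1 hi => key _ _ (by omega) (by omega) ?_, key _ _ (by omega) (by omega) ?_,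
      key _ _ (by omega) le_rfl ?_⟩
    · rw [if_neg (by omega), if_pos (by omega), if_neg (by omega), if_pos (by omega)]; omega
    · rw [if_neg (by omega), if_pos (by omega), if_pos rfl]; omega
    · rw [if_pos rfl, if_neg (by omega), if_neg (by omega)]; omega
  · rintro ⟨h1, h2, h3⟩
    simp only [Nat.add_sub_cancel] at h1 h2
    refine pattern_of (tau_perm _) fun i j hij => ?_
    rw [tau_get, tau_get] at hij
    have hi : (i : ℕ) ≤ k + 1 := by omega
    have hj : (j : ℕ) ≤ k + 1 := by omega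
    have hlow : ∀ i, 1 ≤ i → i ≤ k → f^[i] x < f^[0] x := fun i a b =>
      lt_of_le_of_lt (le_of_chain _ _ _ h1 i k a b le_rfl) h2
    split_ifs at hij with c1 c2 c3 c4 c5 c6 c7 c8
    all_goals first
      | omega
      | skip
    · rw [c1, show (j : ℕ) = k + 1 by omega]; exact h3
    · rw [c5]; exact hlow i (by omega) c4
    · exact lt_of_chain _ _ _ h1 i j (by omega) hij c6
    · rw [show (j : ℕ) = k + 1 by omega]; exact (hlow i (by omega) c4).trans h3

lemma allow_of_order {μ : ℝ} {π : List ℕ} {x y : ℝ} (hl : 1 ≤ π.length)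
    (h : IsPattern (tent 1) x π) (hy : y ∈ Set.Icc (0 : ℝ) 1)
    (hxy : ∀ i j : Fin π.length, (tent 1)^[i] x < (tent 1)^[j] x →
      (tent μ)^[i] y < (tent μ)^[j] y) : π ∈ Allow (tent μ) :=
  ⟨hl, y, hy, pattern_of h.1 fun i j hij => hxy i j ((h.2.2 i j).1 hij)⟩

theorem all_shortest (μ : ℝ) (h1 : 1 / 2 < μ) (h2 : μ < 1) (n : ℕ)
    (hn : IsLeast {k : ℕ | 1 ≤ (2 * μ) ^ (k - 2) * (2 - 2 * μ)} n) :
    {π | π ∈ Forbidden μ ∧ ∀ ρ ∈ Forbidden μ, π.length ≤ ρ.length} =
      {π | (∃ r, 1 ≤ r ∧ r ≤ n - 2 ∧ π = (List.range' 1 n).rotate r) ∨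
        π = (n - 1) :: (List.range' 1 (n - 2) ++ [n])} := by
  have hs : 1 < 2 * μ := by linarith
  have hs2 : 2 * μ ≤ 2 := by linarith
  have hG : 1 ≤ (2 * μ) ^ (n - 2) * (2 - 2 * μ) := hn.1
  have hlt : ∀ k, k < n → (2 * μ) ^ (k - 2) * (2 - 2 * μ) < 1 := fun k hk => by
    by_contra hc
    have := hn.2 (show k ∈ {k : ℕ | 1 ≤ (2 * μ) ^ (k - 2) * (2 - 2 * μ)} from not_lt.1 hc)
    omega
  have hn4 : 4 ≤ n := by
    by_contra hc
    have h3 : (2 * μ) ^ 1 * (2 - 2 * μ) < 1 := by nlinarith
    have := pow_mono_H hs.le hs2 (show n - 2 ≤ 1 by omega) h3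
    linarith
  obtain ⟨k, rfl⟩ : ∃ k, n = k + 2 := ⟨n - 2, by omega⟩
  simp only [Nat.add_sub_cancel] at hG
  have e1 : k + 2 - 2 = k := by omega
  have e2 : k + 2 - 1 = k + 1 := by omega
  rw [e1, e2]
  have hshort : ∀ ρ ∈ Forbidden μ, k + 2 ≤ ρ.length := fun ρ hρ => by
    by_contra hc
    exact hρ.2 (allow_transfer h1 h2 ρ (hlt _ (by omega)) hρ.1)
  have hrho : ∀ r, 1 ≤ r → r ≤ k → (List.range' 1 (k + 2)).rotate r ∈ Forbidden μ := by
    intro r r1 r2
    obtain ⟨t, t1, t2, rfl⟩ : ∃ t, 1 ≤ t ∧ t < k + 1 ∧ r = k + 1 - t :=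
      ⟨k + 1 - r, by omega, by omega, by omega⟩
    constructor
    · obtain ⟨x, hx, ho⟩ := rho_full (k + 1) t t1 t2
      exact ⟨by rw [rho_length]; omega, x, hx, by
        rw [tent_one]; exact (rho_iff (k + 1) t t2).2 ho⟩
    · rintro ⟨-, x, hx, ho⟩
      rw [tent_eq] at ho
      have := rho_imp hs _ (Ts_succ (2 * μ) x)
        (fun i => (Ts_iter_mem (by linarith) hs2 hx i).1) (k + 1) t t1 t2
        ((rho_iff (k + 1) t t2).1 ho)
      rw [Nat.add_sub_cancel] at this
      linarith
  have htau : (k + 1) :: (List.range' 1 k ++ [k + 2]) ∈ Forbidden μ := by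
    constructor
    · obtain ⟨x, hx, ho⟩ := tau_full (k + 1) (by omega)
      exact ⟨by rw [tau_length]; omega, x, hx, by
        rw [tent_one]; exact (tau_iff k (by omega)).2 ho⟩
    · rintro ⟨-, x, hx, ho⟩
      rw [tent_eq] at ho
      have := tau_imp hs _ (Ts_succ (2 * μ) x)
        (fun i => (Ts_iter_mem (by linarith) hs2 hx i).1) (k + 1) (by omega)
        ((tau_iff k (by omega)).1 ho)
      rw [Nat.add_sub_cancel] at this
      linarith
  ext π
  simp only [Set.mem_ofPred_eq]
  constructor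
  · rintro ⟨hπ, hmin⟩
    have hlen : π.length = k + 2 :=
      le_antisymm (by simpa using hmin _ htau) (hshort π hπ)
    obtain ⟨⟨hl, x, hx, hpat⟩, hnot⟩ := hπ
    by_contra hcon
    push Not at hcon
    have hpat2 : IsPattern (Ts 2) x π := tent_one ▸ hpat
    have hne : ∀ i j, i < j → j ≤ k + 1 → (Ts 2)^[i] x ≠ (Ts 2)^[j] x := fun i j hij hj =>
      hpat2.2.1 ⟨i, by omega⟩ ⟨j, by omega⟩ (fun h => by
        have := congrArg Fin.val h
        simp only at this
        omega)
    have H : (2 * μ) ^ (k + 1 - 2) * (2 - 2 * μ) < 1 := hlt (k + 1) (by omega)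
    obtain ⟨y, hy, hxy⟩ := transfer2 hs hs2 (k + 1) (by omega) H x hx (fun t0 hsp => by
      have hso := special_ord _ (Ts_succ 2 x)
        (fun i => (Ts_iter_mem (by norm_num) le_rfl hx i).1) (k + 1) (by omega) hne t0 hsp
      have h0 := hne 0 (k + 1) (by omega) le_rfl
      have htm := hsp.1
      constructor
      · intro ht
        by_contra hc
        exact hcon.2 (pattern_unique (by rw [tau_length, hlen]) hpat2
          ((tau_iff k (by omega)).2 (hso.1 ht (lt_of_le_of_ne (not_lt.1 hc) h0))))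
      · intro ht
        by_contra hc
        exact hcon.1 (k + 1 - t0) (by omega) (by omega)
          (pattern_unique (by rw [rho_length, hlen]) hpat2
            ((rho_iff (k + 1) t0 htm).2 (hso.2 ht (lt_of_le_of_ne (not_lt.1 hc) h0.symm)))))
    refine hnot (allow_of_order hl hpat hy fun i j hij => ?_)
    rw [tent_one] at hij
    rw [tent_eq]
    exact hxy i j (by omega) (by omega) hij
  · rintro (⟨r, r1, r2, rfl⟩ | rfl)
    · exact ⟨hrho r r1 r2, fun ρ hρ => by rw [rho_length]; exact hshort ρ hρ⟩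
    · exact ⟨htau, fun ρ hρ => by rw [tau_length]; exact hshort ρ hρ⟩

end Pool.Agent.P.MP_25bc1d_an
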