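import Mathlib

namespace Pool.Agent.P.MP_25bc1d_an

/-- inverse branches of the tent map of slope `s` -/
noncomputable def br (s : ℝ) (b : Bool) (y : ℝ) : ℝ := if b then 1 - y / s else y / s

@[simp] lemma br_true (s y : ℝ) : br s true y = 1 - y / s := by simp [br]
@[simp] lemma br_false (s y : ℝ) : br s false y = y / s := by simp [br]

/-- composition of `d` branches starting at index `i` -/
noncomputable def W (s : ℝ) (u : ℕ → Bool) : ℕ → ℕ → ℝ → ℝ
  | _, 0, y => y
  | i, d + 1, y => br s (u i) (W s u (i + 1) d y)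

@[simp] lemma W_zero (s : ℝ) (u : ℕ → Bool) (i : ℕ) (y : ℝ) : W s u i 0 y = y := rfl
lemma W_succ (s : ℝ) (u : ℕ → Bool) (i d : ℕ) (y : ℝ) :
    W s u i (d + 1) y = br s (u i) (W s u (i + 1) d y) := rfl

lemma br_mem {s : ℝ} (hs : 1 ≤ s) (b : Bool) {y : ℝ} (hy : y ∈ Set.Icc (0 : ℝ) 1) :
    br s b y ∈ Set.Icc (0 : ℝ) 1 := by
  have hs0 : 0 < s := by linarith
  have h1 : 0 ≤ y / s := div_nonneg hy.1 hs0.le
  have h2 : y / s ≤ 1 := by rw [div_le_one hs0]; linarith [hy.2]
  cases b
  · simp only [br_false]; exact ⟨h1, h2⟩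
  · simp only [br_true]; exact ⟨by linarith, by linarith⟩

lemma W_mem {s : ℝ} (hs : 1 ≤ s) (u : ℕ → Bool) {y : ℝ} (hy : y ∈ Set.Icc (0 : ℝ) 1) :
    ∀ d i, W s u i d y ∈ Set.Icc (0 : ℝ) 1
  | 0, _ => hy
  | d + 1, i => br_mem hs _ (W_mem hs u hy d (i + 1))

lemma br_abs {s : ℝ} (hs : 0 < s) (b : Bool) (y y' : ℝ) :
    |br s b y - br s b y'| = |y - y'| / s := by
  cases b
  · simp only [br_false]; rw [← sub_div, abs_div, abs_of_pos hs]
  · simp only [br_true]
    rw [show 1 - y / s - (1 - y' / s) = -((y - y') / s) by ring, abs_neg, abs_div, abs_of_pos hs]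

lemma W_abs {s : ℝ} (hs : 0 < s) (u : ℕ → Bool) (y y' : ℝ) :
    ∀ d i, |W s u i d y - W s u i d y'| = |y - y'| / s ^ d
  | 0, _ => by simp
  | d + 1, i => by
    rw [W_succ, W_succ, br_abs hs, W_abs hs u y y' d (i + 1), pow_succ, div_div]

lemma br_cont (s : ℝ) (b : Bool) : Continuous (br s b) := by
  cases b
  · have : br s false = fun y => y / s := by ext y; simp
    rw [this]; fun_prop
  · have : br s true = fun y => 1 - y / s := by ext y; simp
    rw [this]; fun_prop

lemma W_cont (s : ℝ) (u : ℕ → Bool) : ∀ d i, Continuous (W s u i d)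
  | 0, _ => continuous_id
  | d + 1, i => (br_cont s (u i)).comp (W_cont s u d (i + 1))

/-- existence of a fixed point in the unit interval -/
lemma exists_fixed {s : ℝ} (hs : 1 ≤ s) (u : ℕ → Bool) (i d : ℕ) :
    ∃ p ∈ Set.Icc (0 : ℝ) 1, W s u i d p = p := by
  have hc : ContinuousOn (fun y => W s u i d y - y) (Set.Icc (0 : ℝ) 1) :=
    ((W_cont s u d i).sub continuous_id).continuousOn
  have h0 := W_mem hs u (y := 0) ⟨le_rfl, zero_le_one⟩ d i
  have h1 := W_mem hs u (y := 1) ⟨zero_le_one, le_rfl⟩ d i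
  have := intermediate_value_Icc' (zero_le_one' ℝ) hc
  obtain ⟨p, hp, hp'⟩ := this (show (0 : ℝ) ∈ Set.Icc (W s u i d 1 - 1) (W s u i d 0 - 0) from
    ⟨by linarith [h1.2], by linarith [h0.1]⟩)
  exact ⟨p, hp, by simpa [sub_eq_zero] using hp'⟩

lemma lt_W_of_lt_fixed {s : ℝ} (hs : 1 < s) (u : ℕ → Bool) {i d : ℕ} (hd : 1 ≤ d) {p y : ℝ}
    (hp : W s u i d p = p) (h : y < p) : y < W s u i d y := by
  have h1 := W_abs (by linarith : 0 < s) u y p d i
  have h2 : 1 < s ^ d := one_lt_pow₀ hs (by omega)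
  have h3 : |y - p| / s ^ d < |y - p| := div_lt_self (abs_pos.2 (by linarith)) h2
  rw [hp, abs_of_neg (by linarith : y - p < 0)] at *
  have := neg_abs_le (W s u i d y - p)
  linarith

lemma W_lt_of_fixed_lt {s : ℝ} (hs : 1 < s) (u : ℕ → Bool) {i d : ℕ} (hd : 1 ≤ d) {p y : ℝ}
    (hp : W s u i d p = p) (h : p < y) : W s u i d y < y := by
  have h1 := W_abs (by linarith : 0 < s) u y p d i
  have h2 : 1 < s ^ d := one_lt_pow₀ hs (by omega)
  have h3 : |y - p| / s ^ d < |y - p| := div_lt_self (abs_pos.2 (by linarith)) h2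
  rw [hp, abs_of_pos (by linarith : 0 < y - p)] at *
  have := le_abs_self (W s u i d y - p)
  linarith

lemma lt_fixed_of_lt_W {s : ℝ} (hs : 1 < s) (u : ℕ → Bool) {i d : ℕ} (hd : 1 ≤ d) {p y : ℝ}
    (hp : W s u i d p = p) (h : y < W s u i d y) : y < p := by
  rcases lt_trichotomy y p with h' | h' | h'
  · exact h'
  · subst h'; linarith
  · have := W_lt_of_fixed_lt hs u hd hp h'; linarith

lemma fixed_lt_of_W_lt {s : ℝ} (hs : 1 < s) (u : ℕ → Bool) {i d : ℕ} (hd : 1 ≤ d) {p y : ℝ}
    (hp : W s u i d p = p) (h : W s u i d y < y) : p < y := by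
  rcases lt_trichotomy y p with h' | h' | h'
  · have := lt_W_of_lt_fixed hs u hd hp h'; linarith
  · subst h'; linarith
  · exact h'

/-- Order lemma: strictly admissible realisations are ordered as for the full tent map. -/
lemma order_lemma {σ : Type*} (s : ℝ) (hs : 0 < s) (nx : σ → σ) (l : σ → Bool) (y Y : σ → ℝ)
    (hy : ∀ a, y a = br s (l a) (y (nx a))) (hY : ∀ a, Y a = br 2 (l a) (Y (nx a)))
    (hy' : ∀ a, y a < s / 2) (hY' : ∀ a, Y a ∈ Set.Icc (0 : ℝ) 1) :
    ∀ a b, Y a < Y b → y a < y b := by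
  have key : ∀ N : ℕ, ∀ a b, 1 < (Y b - Y a) * 2 ^ N → y a < y b := by
    intro N
    induction N with
    | zero =>
      intro a b h
      have := hY' a; have := hY' b
      simp only [Set.mem_Icc] at *
      norm_num at h; linarith
    | succ N ih =>
      intro a b h
      have hpos : 0 < Y b - Y a := by
        by_contra hh
        have : (Y b - Y a) * 2 ^ (N + 1) ≤ 0 :=
          mul_nonpos_of_nonpos_of_nonneg (not_lt.1 hh) (by positivity)
        linarith
      have ea := hy a; have eb := hy b; have Ea := hY a; have Eb := hY b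
      have la := hy' (nx a); have lb := hy' (nx b)
      have La := hY' (nx a); have Lb := hY' (nx b)
      have ha2 : y (nx a) / s < 1 / 2 := by rw [div_lt_iff₀ hs]; linarith
      have hb2 : y (nx b) / s < 1 / 2 := by rw [div_lt_iff₀ hs]; linarith
      simp only [Set.mem_Icc] at La Lb
      cases hla : l a <;> cases hlb : l b <;> rw [hla] at ea Ea <;> rw [hlb] at eb Eb <;>
        simp only [br_true, br_false] at ea eb Ea Eb
      · have : y (nx a) < y (nx b) := by
          apply ih
          rw [Ea, Eb] at h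
          calc (1 : ℝ) < _ := h
            _ = _ := by ring
        rw [ea, eb]; exact div_lt_div_of_pos_right this hs
      · linarith
      · linarith
      · have : y (nx b) < y (nx a) := by
          apply ih
          rw [Ea, Eb] at h
          calc (1 : ℝ) < _ := h
            _ = _ := by ring
        have := div_lt_div_of_pos_right this hs
        linarith
  intro a b h
  obtain ⟨N, hN⟩ := pow_unbounded_of_one_lt (1 / (Y b - Y a)) (by norm_num : (1 : ℝ) < 2)
  apply key N
  rw [div_lt_iff₀ (by linarith)] at hN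
  linarith

lemma pow_mono_H {s : ℝ} (hs : 1 ≤ s) (hs2 : s ≤ 2) {j k : ℕ} (hjk : j ≤ k)
    (H : s ^ k * (2 - s) < 1) : s ^ j * (2 - s) < 1 :=
  lt_of_le_of_lt (mul_le_mul_of_nonneg_right (pow_le_pow_right₀ hs hjk) (by linarith)) H

/-- Admissibility of periodic sequences of short period. -/
lemma periodic_adm {s : ℝ} (hs : 1 < s) (hs2 : s ≤ 2) (q : ℕ) (hq : 1 ≤ q)
    (H : s ^ (q - 1) * (2 - s) < 1) (w : ℕ → Bool) (y : ℕ → ℝ)
    (hw : ∀ t, w (t + q) = w t) (hyp : ∀ t, y (t + q) = y t)
    (hy : ∀ t, y t = br s (w t) (y (t + 1))) : ∀ t, y t < s / 2 := by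
  have hs0 : 0 < s := by linarith
  -- every value is a value at an index below q
  have hmod : ∀ t, y t = y (t % q) := by
    intro t
    have : ∀ k r, y (r + q * k) = y r := by
      intro k
      induction k with
      | zero => simp
      | succ k ih => intro r; rw [Nat.mul_succ, ← add_assoc, hyp, ih]
    conv_lhs => rw [← Nat.mod_add_div t q]
    exact this _ _
  obtain ⟨t0, -, ht0⟩ := Finset.exists_max_image (Finset.range q) y
    ⟨0, Finset.mem_range.2 (by omega)⟩
  have hM : ∀ t, y t ≤ y t0 := fun t => by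
    rw [hmod t]; exact ht0 _ (Finset.mem_range.2 (Nat.mod_lt _ (by omega)))
  set M := y t0 with hMdef
  suffices M < s / 2 from fun t => lt_of_le_of_lt (hM t) this
  by_contra hcon
  push Not at hcon
  have hw0 : w t0 = true := by
    by_contra h
    have h' : w t0 = false := by simpa using h
    have e := hy t0
    rw [h', br_false] at e
    have h1 : y (t0 + 1) = s * M := by rw [hMdef, e]; field_simp
    have := hM (t0 + 1)
    nlinarith
  have hex : ∃ j, 1 ≤ j ∧ w (t0 + j) = true := ⟨q, hq, by rw [hw, hw0]⟩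
  classical
  let j := Nat.find hex
  have hj1 : 1 ≤ j := (Nat.find_spec hex).1
  have hjw : w (t0 + j) = true := (Nat.find_spec hex).2
  have hjq : j ≤ q := Nat.find_min' hex ⟨hq, by rw [hw, hw0]⟩
  have hrun : ∀ r, 1 ≤ r → r ≤ j → y (t0 + r) = s ^ r * (1 - M) := by
    intro r hr1
    induction r, hr1 using Nat.le_induction with
    | base =>
      intro _
      have e := hy t0
      rw [hw0, br_true] at e
      have : y (t0 + 1) / s = 1 - M := by rw [hMdef]; linarith
      rw [← this]; field_simp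
    | succ r hr ih =>
      intro hrj
      have hwr : w (t0 + r) = false := by
        by_contra h
        have h' : w (t0 + r) = true := by simpa using h
        exact Nat.find_min hex (show r < j by omega) ⟨hr, h'⟩
      have e := hy (t0 + r)
      rw [hwr, br_false, ih (by omega)] at e
      rw [← add_assoc, pow_succ]
      have : y (t0 + r + 1) = s ^ r * (1 - M) * s := by rw [e]; field_simp
      rw [this]; ring
  have hj := hrun j hj1 le_rfl
  rcases Nat.lt_or_ge j q with hlt | hge
  · have e := hy (t0 + j)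
    rw [hjw, br_true, hj] at e
    have h1 : y (t0 + j + 1) / s ≤ M / s := div_le_div_of_nonneg_right (hM _) hs0.le
    have H' : s ^ j * (2 - s) < 1 := pow_mono_H hs.le hs2 (by omega) H
    have h2 : 1 ≤ s ^ j := one_le_pow₀ hs.le
    -- s^j (1 - M) ≥ 1 - M / s
    have h3 : 1 - M / s ≤ s ^ j * (1 - M) := by linarith
    have h4 : s - M ≤ s * (s ^ j * (1 - M)) := by
      have := mul_le_mul_of_nonneg_left h3 hs0.le
      have e2 : s * (1 - M / s) = s - M := by field_simp
      linarith
    -- use M ≥ s / 2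
    have h5 : 0 ≤ (M - s / 2) * (s * s ^ j - 1) := by
      apply mul_nonneg (by linarith); nlinarith
    nlinarith
  · have hjq' : j = q := le_antisymm hjq hge
    rw [hjq', hyp] at hj
    obtain ⟨q', rfl⟩ : ∃ q', q = q' + 1 := ⟨q - 1, by omega⟩
    simp only [Nat.add_sub_cancel] at H
    rw [pow_succ] at hj
    have h2 : 0 < s ^ q' := by positivity
    have h5 : 0 ≤ (M - s / 2) * (s ^ q' * s) := by
      apply mul_nonneg (by linarith); positivity
    rw [← hMdef] at hj
    nlinarith

/-- Backward propagation. -/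
lemma back_prop {s : ℝ} (hs : 1 < s) (hs2 : s ≤ 2) (D : ℕ) (H : s ^ D * (2 - s) < 1)
    (u : ℕ → Bool) (z : ℕ → ℝ) (k0 : ℕ) (hz : ∀ k, k < k0 → z k = br s (u k) (z (k + 1)))
    (h1 : 1 / 2 ≤ z k0) (h2 : z k0 ≤ s / 2) :
    ∀ d, d ≤ D → d ≤ k0 → 1 / (2 * s ^ d) ≤ z (k0 - d) ∧ z (k0 - d) ≤ s / 2 ∧
      (1 ≤ d → z (k0 - d) < s / 2) := by
  have hs0 : 0 < s := by linarith
  intro d
  induction d with
  | zero => intro _ _; simpa using ⟨by simpa using h1, h2⟩
  | succ d ih =>
    intro hD hk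
    obtain ⟨a1, a2, -⟩ := ih (by omega) (by omega)
    have e := hz (k0 - (d + 1)) (by omega)
    rw [show k0 - (d + 1) + 1 = k0 - d by omega] at e
    have b1 : 1 / (2 * s ^ (d + 1)) ≤ z (k0 - d) / s := by
      rw [le_div_iff₀ hs0]
      calc 1 / (2 * s ^ (d + 1)) * s = 1 / (2 * s ^ d) := by field_simp; ring
        _ ≤ _ := a1
    have b2 : z (k0 - d) / s ≤ 1 / 2 := by rw [div_le_iff₀ hs0]; linarith
    have H' : s ^ (d + 1) * (2 - s) < 1 := pow_mono_H hs.le hs2 hD H
    have hp : 1 ≤ s ^ (d + 1) := one_le_pow₀ hs.le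
    have b3 : 1 / (2 * s ^ (d + 1)) ≤ 1 / 2 := by
      apply one_div_le_one_div_of_le (by norm_num); linarith
    have b4 : 1 - 1 / (2 * s ^ (d + 1)) < s / 2 := by
      have : 1 - s / 2 < 1 / (2 * s ^ (d + 1)) := by
        rw [lt_div_iff₀ (by positivity)]; linarith
      linarith
    have : 1 / (2 * s ^ (d + 1)) ≤ z (k0 - (d + 1)) ∧ z (k0 - (d + 1)) < s / 2 := by
      cases hu : u (k0 - (d + 1)) <;> rw [hu] at e <;> simp only [br_true, br_false] at e
      · exact ⟨by linarith, by linarith⟩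
      · exact ⟨by linarith, by linarith⟩
    exact ⟨this.1, this.2.le, fun _ => this.2⟩

end Pool.Agent.P.MP_25bc1d_an
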