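import Mathlib

namespace Pool.Agent.P.MP_25bc1d_an

/-- The symmetric tent map `T_μ(x) = 2 μ min(x, 1 - x)`. -/
noncomputable def tent (μ : ℝ) (x : ℝ) : ℝ := 2 * μ * min x (1 - x)

/-- `π = Pat(x, f, n)` with `n` the length of the word `π` (one-line form). -/
def IsPattern (f : ℝ → ℝ) (x : ℝ) (π : List ℕ) : Prop :=
  π.Perm (List.range' 1 π.length) ∧
  (∀ i j : Fin π.length, i ≠ j → f^[i] x ≠ f^[j] x) ∧
  ∀ i j : Fin π.length, π.get i < π.get j ↔ f^[i] x < f^[j] x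

/-- `Allow(f)`: the patterns of all lengths `n ≥ 1` of points of `[0,1]`. -/
def Allow (f : ℝ → ℝ) : Set (List ℕ) :=
  {π | 1 ≤ π.length ∧ ∃ x ∈ Set.Icc (0 : ℝ) 1, IsPattern f x π}

/-- The `μ`-forbidden patterns. -/
def Forbidden (μ : ℝ) : Set (List ℕ) := Allow (tent 1) \ Allow (tent μ)

/-- `σ_n = (n-1) n 1 2 ⋯ (n-2)`. -/
def sigma (n : ℕ) : List ℕ := (n - 1) :: n :: List.range' 1 (n - 2)

end Pool.Agent.P.MP_25bc1d_an
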