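import Pool.Agent.P.MP_25bc1d_an.Core

namespace Pool.Agent.P.MP_25bc1d_an

/-- tent map of slope `s` -/
noncomputable def Ts (s : ℝ) (x : ℝ) : ℝ := s * min x (1 - x)

lemma Ts_mem {s : ℝ} (hs0 : 0 ≤ s) (hs : s ≤ 2) {x : ℝ} (hx : x ∈ Set.Icc (0 : ℝ) 1) :
    Ts s x ∈ Set.Icc (0 : ℝ) 1 := by
  unfold Ts
  have h0 : 0 ≤ min x (1 - x) := le_min hx.1 (by linarith [hx.2])
  have h1 : min x (1 - x) ≤ 1 / 2 := by
    rcases le_total x (1 / 2) with h | h
    · exact (min_le_left _ _).trans h
    · exact (min_le_right _ _).trans (by linarith)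
  exact ⟨mul_nonneg hs0 h0, by nlinarith⟩

lemma Ts_iter_mem {s : ℝ} (hs0 : 0 ≤ s) (hs : s ≤ 2) {x : ℝ} (hx : x ∈ Set.Icc (0 : ℝ) 1) :
    ∀ k, (Ts s)^[k] x ∈ Set.Icc (0 : ℝ) 1
  | 0 => hx
  | k + 1 => by rw [Function.iterate_succ_apply']; exact Ts_mem hs0 hs (Ts_iter_mem hs0 hs hx k)

lemma Ts_br {s : ℝ} (hs : 0 < s) (b : Bool) {y : ℝ} (hy : y ≤ s / 2) : Ts s (br s b y) = y := by
  have h : y / s ≤ 1 / 2 := by rw [div_le_iff₀ hs]; linarith
  unfold Ts
  cases b
  · rw [br_false, min_eq_left (by linarith)]; field_simp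
  · rw [br_true, min_eq_right (by linarith)]; field_simp; ring

lemma br_Ts (x : ℝ) : br 2 (decide (1 / 2 < x)) (Ts 2 x) = x := by
  unfold Ts
  by_cases h : 1 / 2 < x
  · simp only [h, decide_true, br_true]; rw [min_eq_right (by linarith)]; ring
  · simp only [h, decide_false, br_false]; rw [min_eq_left (by linarith)]; ring

lemma W_orbit (s : ℝ) (u : ℕ → Bool) (a : ℕ → ℝ) (ha : ∀ k, a k = br s (u k) (a (k + 1))) :
    ∀ d i, W s u i d (a (i + d)) = a i
  | 0, i => rfl
  | d + 1, i => by
    rw [W_succ, show i + (d + 1) = (i + 1) + d by ring, W_orbit s u a ha d (i + 1), ← ha]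

lemma W_all_false {s : ℝ} (u : ℕ → Bool) (y : ℝ) :
    ∀ d i, (∀ k, i ≤ k → k < i + d → u k = false) → W s u i d y = y / s ^ d
  | 0, i => by simp
  | d + 1, i => by
    intro h
    rw [W_succ, h i le_rfl (by omega), br_false, W_all_false u y d (i + 1)
      (fun k h1 h2 => h k (by omega) (by omega)), pow_succ, div_div]

/-- The state machine describing the periodic orbits. -/
def nxt (m : ℕ) (a : ℕ × ℕ) : ℕ × ℕ := if a.2 + 1 < m then (a.1, a.2 + 1) else (a.1, a.1)

/-- admissibility of the periodic orbit through the fixed point `p` -/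
lemma fixed_adm {s : ℝ} (hs : 1 < s) (hs2 : s ≤ 2) (m : ℕ) (H : s ^ (m - 1) * (2 - s) < 1)
    (u : ℕ → Bool) (i : ℕ) (hi : i < m) (p : ℝ) (hp : W s u i (m - i) p = p) :
    ∀ k, i ≤ k → k ≤ m → W s u k (m - k) p < s / 2 := by
  set q := m - i with hq
  have hq1 : 1 ≤ q := by omega
  have key := periodic_adm hs hs2 q hq1 (pow_mono_H hs.le hs2 (by omega) H)
    (fun t => u (i + t % q)) (fun t => W s u (i + t % q) (q - t % q) p)
    (fun t => by simp) (fun t => by simp) (fun t => by
      have hlt : t % q < q := Nat.mod_lt _ (by omega)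
      obtain ⟨e, he⟩ : ∃ e, q - t % q = e + 1 := ⟨q - t % q - 1, by omega⟩
      rw [he, W_succ]
      congr 1
      rcases Nat.lt_or_ge (t % q + 1) q with h | h
      · have : (t + 1) % q = t % q + 1 := by
          rw [Nat.add_mod, Nat.mod_eq_of_lt (show 1 < q by omega), Nat.mod_eq_of_lt h]
        rw [this, show q - (t % q + 1) = e by omega, add_assoc]
      · have h1 : t % q + 1 = q := by omega
        have : (t + 1) % q = 0 := by
          conv_lhs => rw [← Nat.mod_add_mod, h1]
          simp
        rw [this, show e = 0 by omega]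
        simp only [add_zero, Nat.sub_zero, W_zero]
        exact hp.symm)
  intro k hik hkm
  rcases Nat.lt_or_ge k m with h | h
  · have := key (k - i)
    rw [Nat.mod_eq_of_lt (show k - i < q by omega), show i + (k - i) = k by omega,
      show q - (k - i) = m - k by omega] at this
    exact this
  · have := key 0
    simp only [Nat.zero_mod, add_zero, Nat.sub_zero] at this
    rw [hp] at this
    rw [show m - k = 0 by omega]
    exact this

/-- comparison of the fixed points for slope `s` and slope `2` -/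
lemma fixed_order {s : ℝ} (hs : 1 < s) (hs2 : s ≤ 2) (m : ℕ) (H : s ^ (m - 1) * (2 - s) < 1)
    (u : ℕ → Bool) (P Q : ℕ → ℝ) (hP : ∀ i, W s u i (m - i) (P i) = P i)
    (hQ : ∀ i, W 2 u i (m - i) (Q i) = Q i) (hQ' : ∀ i, Q i ∈ Set.Icc (0 : ℝ) 1)
    (i j : ℕ) (hi : i < m) (hj : j < m) (h : Q i < Q j) : P i < P j := by
  let σ := {a : ℕ × ℕ // a.1 ≤ a.2 ∧ a.2 < m}
  let nx : σ → σ := fun a => ⟨nxt m a.1, by
    obtain ⟨⟨a1, a2⟩, h1, h2⟩ := a
    unfold nxt
    split_ifs with hh
    · exact ⟨by simp at h1 ⊢; omega, hh⟩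
    · exact ⟨le_rfl, by simp at h1 h2 ⊢; omega⟩⟩
  have step : ∀ (t : ℝ) (R : ℕ → ℝ), (∀ i, W t u i (m - i) (R i) = R i) → ∀ a : σ,
      W t u a.1.2 (m - a.1.2) (R a.1.1) =
        br t (u a.1.2) (W t u (nx a).1.2 (m - (nx a).1.2) (R (nx a).1.1)) := by
    rintro t R hR ⟨⟨a1, a2⟩, h1, h2⟩
    simp only [] at h1 h2
    obtain ⟨e, he⟩ : ∃ e, m - a2 = e + 1 := ⟨m - a2 - 1, by omega⟩
    simp only [nx, nxt]
    rw [he, W_succ]
    congr 1
    split_ifs with hh
    · simp only []; rw [show m - (a2 + 1) = e by omega]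
    · simp only []; rw [hR, show e = 0 by omega]; rfl
  have := order_lemma s (by linarith) nx (fun a => u a.1.2)
    (fun a => W s u a.1.2 (m - a.1.2) (P a.1.1)) (fun a => W 2 u a.1.2 (m - a.1.2) (Q a.1.1))
    (step s P hP) (step 2 Q hQ)
    (fun a => fixed_adm hs hs2 m H u a.1.1 (lt_of_le_of_lt a.2.1 a.2.2) _ (hP _) _ a.2.1 a.2.2.le)
    (fun a => W_mem (by norm_num) u (hQ' _) _ _)
    ⟨(i, i), le_rfl, hi⟩ ⟨(j, j), le_rfl, hj⟩
  simp only [hP, hQ] at this
  exact this h

/-- Main transfer theorem. -/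
theorem transfer {s : ℝ} (hs : 1 < s) (hs2 : s ≤ 2) (m : ℕ) (H : s ^ (m - 1) * (2 - s) < 1)
    (x : ℝ) (hx : x ∈ Set.Icc (0 : ℝ) 1) :
    ∃ y ∈ Set.Icc (0 : ℝ) 1, ∀ i j, i ≤ m → j ≤ m →
      (Ts 2)^[i] x < (Ts 2)^[j] x → (Ts s)^[i] y < (Ts s)^[j] y := by
  classical
  have hs0 : 0 < s := by linarith
  set a : ℕ → ℝ := fun k => (Ts 2)^[k] x with hadef
  have hamem : ∀ k, a k ∈ Set.Icc (0 : ℝ) 1 := Ts_iter_mem (by norm_num) le_rfl hx
  set u : ℕ → Bool := fun k => decide (1 / 2 < a k) with hudef
  have ha : ∀ k, a k = br 2 (u k) (a (k + 1)) := fun k => by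
    simp only [hadef, hudef, Function.iterate_succ_apply']; rw [br_Ts]
  have haW : ∀ i, i ≤ m → W 2 u i (m - i) (a m) = a i := fun i hi => by
    have := W_orbit 2 u a ha (m - i) i
    rwa [show i + (m - i) = m by omega] at this
  choose P hPm hP using fun i => exists_fixed hs.le u i (m - i)
  choose Q hQm hQ using fun i => exists_fixed (s := 2) (by norm_num) u i (m - i)
  have hQlt : ∀ i, i < m → a i < a m → Q i < a m := fun i hi h =>
    fixed_lt_of_W_lt (by norm_num) u (by omega) (hQ i) (by rw [haW i hi.le]; exact h)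
  have hQgt : ∀ i, i < m → a m < a i → a m < Q i := fun i hi h =>
    lt_fixed_of_lt_W (by norm_num) u (by omega) (hQ i) (by rw [haW i hi.le]; exact h)
  -- the upper bound `U`
  let Up : Finset ℝ := insert (s / 2) (((Finset.range m).filter fun i => a m < a i).image P)
  have hUne : Up.Nonempty := ⟨_, Finset.mem_insert_self _ _⟩
  set U := Up.min' hUne with hU
  have hUmem : U ∈ Up := Finset.min'_mem _ _
  have hU1 : U ≤ s / 2 := Finset.min'_le _ _ (Finset.mem_insert_self _ _)
  have hU2 : ∀ i, i < m → a m < a i → U ≤ P i := fun i hi h =>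
    Finset.min'_le _ _ (Finset.mem_insert_of_mem (Finset.mem_image_of_mem _
      (Finset.mem_filter.2 ⟨Finset.mem_range.2 hi, h⟩)))
  have hrec : ∀ (y : ℝ) (k : ℕ), k < m →
      W s u k (m - k) y = br s (u k) (W s u (k + 1) (m - (k + 1)) y) := fun y k hk => by
    rw [show m - k = (m - (k + 1)) + 1 by omega, W_succ]
  have hU3 : 0 < U ∧ (∀ i, i < m → a i < a m → P i < U) ∧
      ∀ k, 1 ≤ k → k < m → W s u k (m - k) U < s / 2 := by
    rcases Finset.mem_insert.1 hUmem with h | h
    · refine ⟨by rw [h]; linarith, fun i hi _ => ?_, fun k hk1 hk => ?_⟩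
      · have := fixed_adm hs hs2 m H u i hi _ (hP i) m hi.le le_rfl
        rw [h]; simpa using this
      · have := back_prop hs hs2 (m - 1) H u (fun k => W s u k (m - k) U) m
          (fun k hk => hrec U k hk) (by simp only [Nat.sub_self, W_zero]; rw [h]; linarith)
          (by simp only [Nat.sub_self, W_zero]; exact hU1) (m - k) (by omega) (by omega)
        rw [show m - (m - k) = k by omega] at this
        exact this.2.2 (by omega)
    · obtain ⟨j, hj, hjU⟩ := Finset.mem_image.1 h
      obtain ⟨hj1, hj2⟩ := Finset.mem_filter.1 hj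
      have hj1' : j < m := Finset.mem_range.1 hj1
      have hQj := hQgt j hj1' hj2
      have hadm := fixed_adm hs hs2 m H u j hj1' _ (hP j)
      rw [hjU] at hadm
      have hex : ∃ k0, j ≤ k0 ∧ k0 < m ∧ u k0 = true := by
        by_contra hcon
        push Not at hcon
        have e := W_all_false (s := 2) u (Q j) (m - j) j
          (fun k h1 h2 => by simpa using hcon k h1 (by omega))
        rw [hQ j] at e
        have h2 : (1 : ℝ) < 2 ^ (m - j) := one_lt_pow₀ (by norm_num) (by omega)
        have h3 : 0 < Q j := lt_of_le_of_lt (hamem m).1 hQj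
        have := div_lt_self h3 h2
        linarith
      obtain ⟨k0, hk1, hk2, hk3⟩ := hex
      have hz0 : 1 / 2 ≤ W s u k0 (m - k0) U := by
        rw [hrec U k0 hk2, hk3, br_true]
        have := hadm (k0 + 1) (by omega) (by omega)
        have : W s u (k0 + 1) (m - (k0 + 1)) U / s < 1 / 2 := by
          rw [div_lt_iff₀ hs0]; linarith
        linarith
      have hb := back_prop hs hs2 (m - 1) H u (fun k => W s u k (m - k) U) k0
          (fun k hk => hrec U k (by omega)) hz0 (hadm k0 hk1 hk2.le).le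
      refine ⟨?_, fun i hi h' => ?_, fun k hk1' hk => ?_⟩
      · have := (hb (k0 - j) (by omega) (by omega)).1
        rw [show k0 - (k0 - j) = j by omega, ← hjU, hP j, hjU] at this
        exact lt_of_lt_of_le (by positivity) this
      · rw [← hjU]
        exact fixed_order hs hs2 m H u P Q hP hQ hQm i j hi hj1' ((hQlt i hi h').trans hQj)
      · rcases Nat.lt_or_ge k k0 with h' | h'
        · have := (hb (k0 - k) (by omega) (by omega)).2.2 (by omega)
          rwa [show k0 - (k0 - k) = k by omega] at this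
        · exact hadm k (by omega) hk.le
  obtain ⟨hU0, hUl, hUk⟩ := hU3
  -- choose `y` slightly below `U`
  have hev : ∀ᶠ y in nhdsWithin U (Set.Iio U), y < U ∧ 0 < y ∧
      (∀ i ∈ Finset.range m, a i < a m → P i < y) ∧
      ∀ k ∈ Finset.range m, 1 ≤ k → W s u k (m - k) y < s / 2 := by
    refine Filter.Eventually.and self_mem_nhdsWithin (nhdsWithin_le_nhds ?_)
    refine Filter.Eventually.and (lt_mem_nhds hU0) (Filter.Eventually.and ?_ ?_)
    · rw [Filter.eventually_all_finset]
      intro i hi
      by_cases h : a i < a m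
      · exact (lt_mem_nhds (hUl i (Finset.mem_range.1 hi) h) : ∀ᶠ y in nhds U, P i < y).mono
          fun y hy _ => hy
      · exact Filter.Eventually.of_forall fun y h' => absurd h' h
    · rw [Filter.eventually_all_finset]
      intro k hk
      by_cases h : 1 ≤ k
      · have := (W_cont s u (m - k) k).continuousAt.eventually_lt (continuousAt_const (y := s / 2))
          (hUk k h (Finset.mem_range.1 hk))
        exact this.mono fun y hy _ => hy
      · exact Filter.Eventually.of_forall fun y h' => absurd h' h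
  obtain ⟨y, hy1, hy0, hy2, hy3⟩ := hev.exists
  have hymem : y ∈ Set.Icc (0 : ℝ) 1 := ⟨hy0.le, by linarith⟩
  set z : ℕ → ℝ := fun k => W s u k (m - k) y with hzdef
  have hzm : z m = y := by simp [hzdef]
  have hzlt : ∀ k, 1 ≤ k → k ≤ m → z k < s / 2 := fun k h1 h2 => by
    rcases Nat.lt_or_ge k m with h | h
    · exact hy3 k (Finset.mem_range.2 h) h1
    · rw [show k = m by omega, hzm]; linarith
  have hzrec : ∀ k, k < m → z k = br s (u k) (z (k + 1)) := fun k hk => hrec y k hk
  have hiter : ∀ k, k ≤ m → (Ts s)^[k] (z 0) = z k := by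
    intro k
    induction k with
    | zero => intro _; rfl
    | succ k ih =>
      intro hk
      rw [Function.iterate_succ_apply', ih (by omega), hzrec k (by omega),
        Ts_br hs0 _ (hzlt _ (by omega) hk).le]
  refine ⟨z 0, W_mem hs.le u hymem _ _, fun i j hi hj hij => ?_⟩
  rw [hiter i hi, hiter j hj]
  change a i < a j at hij
  have main : ∀ d i j, i ≤ m → j ≤ m → max i j + d = m → a i < a j → z i < z j := by
    intro d
    induction d with
    | zero =>
      intro i j hi hj hd hij
      rcases Nat.lt_or_ge j m with h | h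
      · have him : i = m := by omega
        subst him
        rw [hzm]
        exact lt_W_of_lt_fixed hs u (by omega) (hP j) (lt_of_lt_of_le hy1 (hU2 j h hij))
      · have hjm : j = m := by omega
        subst hjm
        have him : i < j := by
          rcases Nat.lt_or_ge i j with h' | h'
          · exact h'
          · rw [show i = j by omega] at hij; exact absurd hij (lt_irrefl _)
        rw [hzm]
        exact W_lt_of_fixed_lt hs u (by omega) (hP i) (hy2 i (Finset.mem_range.2 him) hij)
    | succ d ih =>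
      intro i j hi hj hd hij
      have hi' : i < m := by omega
      have hj' : j < m := by omega
      have ea := hzrec i hi'; have eb := hzrec j hj'
      have Ea := ha i; have Eb := ha j
      have la := hzlt (i + 1) (by omega) hi'; have lb := hzlt (j + 1) (by omega) hj'
      have ha2 : z (i + 1) / s < 1 / 2 := by rw [div_lt_iff₀ hs0]; linarith
      have hb2 : z (j + 1) / s < 1 / 2 := by rw [div_lt_iff₀ hs0]; linarith
      have La := hamem (i + 1); have Lb := hamem (j + 1)
      simp only [Set.mem_Icc] at La Lb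
      cases hla : u i <;> cases hlb : u j <;> rw [hla] at ea Ea <;> rw [hlb] at eb Eb <;>
        simp only [br_true, br_false] at ea eb Ea Eb
      · have : z (i + 1) < z (j + 1) := ih _ _ hi' hj' (by omega) (by linarith)
        rw [ea, eb]; exact div_lt_div_of_pos_right this hs0
      · linarith
      · linarith
      · have : z (j + 1) < z (i + 1) := ih _ _ hj' hi' (by omega) (by linarith)
        have := div_lt_div_of_pos_right this hs0
        linarith
  exact main (m - max i j) i j hi hj (by omega) hij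

end Pool.Agent.P.MP_25bc1d_an
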