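import Pool.Agent.P.MP_25bc1d_an.Defs
import Pool.Agent.P.MP_25bc1d_an.Transfer

namespace Pool.Agent.P.MP_25bc1d_an

lemma tent_eq (μ : ℝ) : tent μ = Ts (2 * μ) := rfl

lemma tent_one : tent 1 = Ts 2 := by rw [tent_eq, mul_one]

lemma allow_transfer {μ : ℝ} (h1 : 1 / 2 < μ) (h2 : μ < 1) (π : List ℕ)
    (H : (2 * μ) ^ (π.length - 2) * (2 - 2 * μ) < 1) (hπ : π ∈ Allow (tent 1)) :
    π ∈ Allow (tent μ) := by
  obtain ⟨hl, x, hx, hperm, hne, hord⟩ := hπ
  rw [tent_one] at hne hord
  obtain ⟨y, hy, hxy⟩ := transfer (s := 2 * μ) (by linarith) (by linarith) (π.length - 1)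
    (by rwa [Nat.sub_sub]) x hx
  have hxy' : ∀ i j : Fin π.length, (Ts 2)^[i] x < (Ts 2)^[j] x →
      (Ts (2 * μ))^[i] y < (Ts (2 * μ))^[j] y := fun i j =>
    hxy i j (by omega) (by omega)
  refine ⟨hl, y, hy, hperm, fun i j hij => ?_, fun i j => ?_⟩
  · rw [tent_eq]
    rcases lt_or_gt_of_ne (hne i j hij) with h | h
    · exact (hxy' i j h).ne
    · exact (hxy' j i h).ne'
  · rw [tent_eq, hord]
    refine ⟨hxy' i j, fun h => ?_⟩
    by_cases hij : i = j
    · subst hij; exact absurd h (lt_irrefl _)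
    · rcases lt_or_gt_of_ne (hne i j hij) with h' | h'
      · exact h'
      · exact absurd (hxy' j i h') (not_lt.2 h.le)

lemma sigma_length (k : ℕ) : (sigma (k + 2)).length = k + 2 := by simp [sigma]

/-- the entries of `σ_n` -/
def sval (k i : ℕ) : ℕ := if i = 0 then k + 1 else if i = 1 then k + 2 else i - 1

lemma sigma_get (k : ℕ) (i : Fin (sigma (k + 2)).length) : (sigma (k + 2)).get i = sval k i := by
  obtain ⟨i, hi⟩ := i
  rcases i with _ | _ | i
  · simp [sigma, sval]
  · simp [sigma, sval]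
  · simp [sigma, sval]; omega

lemma sigma_perm (k : ℕ) : (sigma (k + 2)).Perm (List.range' 1 (sigma (k + 2)).length) := by
  rw [sigma_length]
  have : List.range' 1 (k + 2) = List.range' 1 k ++ [k + 1, k + 2] := by
    rw [List.range'_concat, List.range'_concat]; simp; omega
  rw [this]
  exact (List.perm_append_comm (l₁ := [k + 1, k + 2]) (l₂ := List.range' 1 k))

lemma sigma_imp {s : ℝ} (hs : 1 < s) (k : ℕ) (x : ℝ) (hx : x ∈ Set.Icc (0 : ℝ) 1)
    (h : ∀ i j, i < k + 2 → j < k + 2 → sval k i < sval k j → (Ts s)^[i] x < (Ts s)^[j] x) :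
    s ^ k * (2 - s) < 1 := by
  rcases Nat.eq_zero_or_pos k with rfl | hk
  · simp; linarith
  set a : ℕ → ℝ := fun i => (Ts s)^[i] x with hadef
  have hsucc : ∀ i, a (i + 1) = s * min (a i) (1 - a i) := fun i => by
    simp only [hadef, Function.iterate_succ_apply']; rfl
  have h01 : a 0 < a 1 := h 0 1 (by omega) (by omega) (by simp [sval])
  have hlow : ∀ i, 2 ≤ i → i < k + 2 → a i < a 0 := fun i h1 h2 =>
    h i 0 h2 (by omega) (by simp only [sval]; split_ifs <;> omega)
  have ha0 : 0 ≤ a 0 := hx.1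
  have ha1 : 1 / 2 < a 1 := by
    by_contra hc
    push Not at hc
    have := hsucc 1
    rw [min_eq_left (by linarith)] at this
    have h2 := hlow 2 le_rfl (by omega)
    norm_num at this
    nlinarith
  have hrun : ∀ r, 1 ≤ r → r ≤ k → a (r + 1) = s ^ r * (1 - a 1) := by
    intro r hr
    induction r, hr using Nat.le_induction with
    | base => intro _; rw [hsucc 1, min_eq_right (by linarith), pow_one]
    | succ r hr ih =>
      intro hrk
      have hle : a (r + 1) ≤ 1 / 2 := by
        by_contra hc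
        push Not at hc
        have e1 := hsucc (r + 1)
        have e0 := hsucc 0
        have l1 := hlow (r + 1) (by omega) (by omega)
        have l2 := hlow (r + 1 + 1) (by omega) (by omega)
        rw [min_eq_right (by linarith)] at e1 e0
        norm_num at e0
        nlinarith
      rw [hsucc (r + 1), min_eq_left (by linarith), ih (by omega)]; ring
  have hfin := hrun k hk le_rfl
  have hl := hlow (k + 1) (by omega) (by omega)
  have e0 := hsucc 0
  norm_num at e0
  have hp : 1 ≤ s ^ k := one_le_pow₀ hs.le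
  rcases le_total (a 0) (1 / 2) with hc | hc
  · rw [min_eq_left (by linarith)] at e0
    have : 0 ≤ s ^ k * (s * (1 / 2 - a 0)) := by
      apply mul_nonneg (by linarith); apply mul_nonneg (by linarith); linarith
    rw [hfin, e0] at hl
    nlinarith
  · rw [min_eq_right (by linarith)] at e0
    have h3 : 1 ≤ s ^ k * s := by nlinarith
    have : 0 ≤ (s ^ k * s - 1) * (a 0 - 1 / 2) := mul_nonneg (by linarith) (by linarith)
    rw [hfin, e0] at hl
    nlinarith

lemma sigma_not_allowed {μ : ℝ} (h1 : 1 / 2 < μ) (k : ℕ)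
    (H : 1 ≤ (2 * μ) ^ k * (2 - 2 * μ)) : sigma (k + 2) ∉ Allow (tent μ) := by
  rintro ⟨-, x, hx, -, -, hord⟩
  have := sigma_imp (s := 2 * μ) (by linarith) k x hx (fun i j hi hj hij => by
    have := (hord ⟨i, by rw [sigma_length]; exact hi⟩ ⟨j, by rw [sigma_length]; exact hj⟩).1
      (by rw [sigma_get, sigma_get]; exact hij)
    exact this)
  linarith

lemma sval_inj (k i j : ℕ) (hi : i < k + 2) (hj : j < k + 2) (h : sval k i = sval k j) :
    i = j := by
  unfold sval at h; split_ifs at h <;> omega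

lemma sigma_allowed_full (k : ℕ) : sigma (k + 2) ∈ Allow (tent 1) := by
  set ε : ℝ := 1 / 2 ^ (k + 3) with hε
  have hε0 : 0 < ε := by positivity
  have hεk : 2 ^ (k + 1) * ε = 1 / 4 := by rw [hε]; field_simp; ring
  have hpow : ∀ r, r ≤ k + 1 → 2 ^ r * ε ≤ 1 / 4 := fun r hr => by
    rw [← hεk]; exact mul_le_mul_of_nonneg_right (pow_le_pow_right₀ (by norm_num) hr) hε0.le
  have hε8 : ε ≤ 1 / 8 := by have := hpow 1 (by omega); linarith
  set a : ℕ → ℝ := fun i => (Ts 2)^[i] (1 / 2 - ε) with hadef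
  have hsucc : ∀ i, a (i + 1) = 2 * min (a i) (1 - a i) := fun i => by
    simp only [hadef, Function.iterate_succ_apply']; rfl
  have a0 : a 0 = 1 / 2 - ε := rfl
  have a1 : a 1 = 1 - 2 * ε := by rw [hsucc 0, a0, min_eq_left (by linarith)]; ring
  have ar : ∀ r, 2 ≤ r → r ≤ k + 1 → a r = 2 ^ r * ε := by
    intro r hr
    induction r, hr using Nat.le_induction with
    | base => intro _; rw [hsucc 1, a1, min_eq_right (by linarith)]; ring
    | succ r hr ih =>
      intro hrk
      have := hpow r (by omega)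
      rw [hsucc r, ih (by omega), min_eq_left (by linarith)]; ring
  have key : ∀ i j, i < k + 2 → j < k + 2 → sval k i < sval k j → a i < a j := by
    intro i j hi hj hij
    unfold sval at hij
    split_ifs at hij with c1 c2 c3 c4 c5 c6 c7 c8
    all_goals first
      | omega
      | skip
    · subst c1; subst c3; rw [a0, a1]; linarith
    · subst c7; rw [ar i (by omega) (by omega), a0]; have := hpow i (by omega); linarith
    · subst c8; rw [ar i (by omega) (by omega), a1]; have := hpow i (by omega); linarith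
    · rw [ar i (by omega) (by omega), ar j (by omega) (by omega)]
      exact mul_lt_mul_of_pos_right (pow_lt_pow_right₀ (by norm_num) (by omega)) hε0
  have hlen := sigma_length k
  refine ⟨by omega, 1 / 2 - ε, ⟨by linarith, by linarith⟩, sigma_perm k, fun i j hij => ?_,
    fun i j => ?_⟩
  · rw [tent_one]
    have hi : (i : ℕ) < k + 2 := by omega
    have hj : (j : ℕ) < k + 2 := by omega
    have hne : sval k i ≠ sval k j := fun h => hij (Fin.ext (sval_inj k i j hi hj h))
    rcases lt_or_gt_of_ne hne with h | h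
    · exact (key i j hi hj h).ne
    · exact (key j i hj hi h).ne'
  · rw [tent_one, sigma_get, sigma_get]
    have hi : (i : ℕ) < k + 2 := by omega
    have hj : (j : ℕ) < k + 2 := by omega
    refine ⟨key i j hi hj, fun h => ?_⟩
    rcases lt_trichotomy (sval k i) (sval k j) with h' | h' | h'
    · exact h'
    · rw [sval_inj k i j hi hj h'] at h; exact absurd h (lt_irrefl _)
    · exact absurd (key j i hj hi h') (not_lt.2 h.le)

theorem main (μ : ℝ) (h1 : 1 / 2 < μ) (h2 : μ < 1) :
    ∃ n : ℕ, IsLeast (List.length '' Forbidden μ) n ∧ 2 ≤ n ∧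
      sigma n ∈ Allow (tent 1) ∧ sigma n ∉ Allow (tent μ) := by
  classical
  have hex : ∃ k : ℕ, 1 ≤ (2 * μ) ^ k * (2 - 2 * μ) := by
    obtain ⟨k, hk⟩ := pow_unbounded_of_one_lt (1 / (2 - 2 * μ)) (by linarith : 1 < 2 * μ)
    rw [div_lt_iff₀ (by linarith)] at hk
    exact ⟨k, hk.le⟩
  have hk := Nat.find_spec hex
  set k := Nat.find hex with hkdef
  have hk0 : k ≠ 0 := by
    intro h; rw [h] at hk; simp at hk; linarith
  refine ⟨k + 2, ⟨⟨sigma (k + 2), ⟨sigma_allowed_full k, sigma_not_allowed h1 k hk⟩,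
    sigma_length k⟩, ?_⟩, by omega, sigma_allowed_full k, sigma_not_allowed h1 k hk⟩
  rintro n ⟨π, ⟨hπ1, hπ2⟩, rfl⟩
  by_contra hc
  push Not at hc
  exact hπ2 (allow_transfer h1 h2 π (not_le.1 (Nat.find_min hex (by omega))) hπ1)

end Pool.Agent.P.MP_25bc1d_an
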