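import Pool.Agent.P.MP_25bc1d_an.Main

/-! Pairs of tent maps: order lemmas and local expansion. -/

namespace Pool.Agent.P.MP_25bc1d_an.Pr

open Filter Topology

variable {s t : ℝ}

/-- The pair `(p', q')` is ordered as the pair `(p, q)`. -/
def Same (p q p' q' : ℝ) : Prop := (p < q → p' < q') ∧ (q < p → q' < p')

lemma Same.symm {p q p' q' : ℝ} (h : Same p q p' q') : Same q p q' p' := ⟨h.2, h.1⟩

lemma Same.trans {p q p' q' a b : ℝ} (h : Same p q p' q') (h' : Same p' q' a b) : Same p q a b :=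
  ⟨fun x => h'.1 (h.1 x), fun x => h'.2 (h.2 x)⟩

lemma Same.diag (p p' : ℝ) : Same p p p' p' :=
  ⟨fun x => absurd x (lt_irrefl _), fun x => absurd x (lt_irrefl _)⟩

lemma br_side (hs : 0 < s) {p q : ℝ} (hp : p < s / 2) (hq : q < s / 2) :
    br s false p < br s true q := by
  have h1 : p / s < 1 / 2 := by rw [div_lt_iff₀ hs]; linarith
  have h2 : q / s < 1 / 2 := by rw [div_lt_iff₀ hs]; linarith
  simp only [br_true, br_false]
  linarith

lemma br_inj (hs : 0 < s) {p : ℝ} (hp : p < s / 2) {b c : Bool} (h : br s b p = br s c p) :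
    b = c := by
  have := br_side hs hp hp
  cases b <;> cases c <;> first | rfl | linarith

lemma br_ff (hs : 0 < s) {p q : ℝ} : br s false p < br s false q ↔ p < q := by
  simp only [br_false]
  exact div_lt_div_iff_of_pos_right hs

lemma br_tt (hs : 0 < s) {p q : ℝ} : br s true p < br s true q ↔ q < p := by
  simp only [br_true, sub_lt_sub_iff_left]
  exact div_lt_div_iff_of_pos_right hs

lemma step (hs : 0 < s) (ht : 0 < t) {p q p' q' : ℝ} (b c : Bool) (h : Same p q p' q')
    (hp : p < t / 2) (hq : q < t / 2) (hp' : p' < s / 2) (hq' : q' < s / 2) :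
    Same (br t b p) (br t c q) (br s b p') (br s c q') := by
  cases b <;> cases c
  · exact ⟨fun a => (br_ff hs).2 (h.1 ((br_ff ht).1 a)), fun a => (br_ff hs).2 (h.2 ((br_ff ht).1 a))⟩
  · exact ⟨fun _ => br_side hs hp' hq', fun a => absurd (br_side ht hp hq) (not_lt.2 a.le)⟩
  · exact ⟨fun a => absurd (br_side ht hq hp) (not_lt.2 a.le), fun _ => br_side hs hq' hp'⟩
  · exact ⟨fun a => (br_tt hs).2 (h.2 ((br_tt ht).1 a)), fun a => (br_tt hs).2 (h.1 ((br_tt ht).1 a))⟩

lemma Ts_le (hs : 0 < s) (q : ℝ) : Ts s q ≤ s / 2 := by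
  have : min q (1 - q) ≤ 1 / 2 := by
    rcases le_total q (1 / 2) with h | h
    · exact (min_le_left _ _).trans h
    · exact (min_le_right _ _).trans (by linarith)
  unfold Ts
  nlinarith

lemma cen (hs : 0 < s) {p q : ℝ} (h : p < Ts s q) : br s false p < q ∧ q < br s true p := by
  have h1 : p / s < min q (1 - q) := by
    rw [div_lt_iff₀ hs, mul_comm]
    exact h
  simp only [br_true, br_false]
  exact ⟨h1.trans_le (min_le_left _ _), by linarith [min_le_right q (1 - q)]⟩

lemma cen_same (hs : 0 < s) (ht : 0 < t) {p q p' q' : ℝ} (b : Bool) (h : p < Ts t q)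
    (h' : p' < Ts s q') : Same (br t b p) q (br s b p') q' := by
  cases b
  · exact ⟨fun _ => (cen hs h').1, fun a => absurd (cen ht h).1 (not_lt.2 a.le)⟩
  · exact ⟨fun a => absurd (cen ht h).2 (not_lt.2 a.le), fun _ => (cen hs h').2⟩

lemma Ts_left {p : ℝ} (h : p ≤ 1 / 2) : Ts s p = s * p := by
  unfold Ts
  rw [min_eq_left (by linarith)]

lemma Ts_right {p : ℝ} (h : 1 / 2 ≤ p) : Ts s p = s * (1 - p) := by
  unfold Ts
  rw [min_eq_right (by linarith)]

lemma br_left (hs : 0 < s) {p : ℝ} (h : p ≤ 1 / 2) : br s false (Ts s p) = p := by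
  rw [Ts_left h, br_false]
  field_simp

lemma br_right (hs : 0 < s) {p : ℝ} (h : 1 / 2 ≤ p) : br s true (Ts s p) = p := by
  rw [Ts_right h, br_true]
  field_simp
  ring

lemma plat (hs : 0 < s) {p q : ℝ} (h : Ts s p < Ts s q) :
    (q < p → 1 / 2 ≤ p) ∧ (p < q → p ≤ 1 / 2) := by
  constructor
  · intro h1
    by_contra h2
    have := (cen hs h).1
    rw [br_left hs (not_le.1 h2).le] at this
    linarith
  · intro h1
    by_contra h2
    have := (cen hs h).2
    rw [br_right hs (not_le.1 h2).le] at this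
    linarith

/-- Two sequences with one word, one optional centre and the same last comparisons. -/
lemma orderG (hs : 0 < s) (ht : 0 < t) (w : ℕ → Bool) (y y' : ℕ → ℝ) (M κ : ℕ) (θ θ' : ℝ)
    (hr : ∀ a < M, a ≠ κ → y a = br t (w a) (y (a + 1)) ∧ y' a = br s (w a) (y' (a + 1)) ∧
      y (a + 1) < Ts t θ ∧ y' (a + 1) < Ts s θ')
    (hκ : κ < M → y κ = θ ∧ y' κ = θ')
    (hl : ∀ a < M, Same (y a) (y M) (y' a) (y' M)) :
    ∀ a ≤ M, ∀ b ≤ M, Same (y a) (y b) (y' a) (y' b) := by
  have last : ∀ b ≤ M, Same (y M) (y b) (y' M) (y' b) := fun b hb => by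
    rcases hb.eq_or_lt with rfl | hb
    · exact Same.diag _ _
    · exact (hl b hb).symm
  have centre : ∀ a < M, κ < M → Same (y a) (y κ) (y' a) (y' κ) := fun a ha hk => by
    by_cases e : a = κ
    · rw [e]
      exact Same.diag _ _
    · obtain ⟨h1, h2, h3, h4⟩ := hr a ha e
      rw [h1, h2, (hκ hk).1, (hκ hk).2]
      exact cen_same hs ht _ h3 h4
  have key : ∀ d, ∀ a ≤ M, ∀ b ≤ M, M ≤ a + d → Same (y a) (y b) (y' a) (y' b) := by
    intro d
    induction d with
    | zero =>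
      intro a ha b hb h
      have : a = M := by omega
      rw [this]
      exact last b hb
    | succ d ih =>
      intro a ha b hb h
      rcases ha.eq_or_lt with rfl | ha
      · exact last b hb
      rcases hb.eq_or_lt with rfl | hb
      · exact hl a ha
      by_cases e1 : a = κ
      · rw [e1]
        exact (centre b hb (e1 ▸ ha)).symm
      by_cases e2 : b = κ
      · rw [e2]
        exact centre a ha (e2 ▸ hb)
      obtain ⟨h1, h2, h3, h4⟩ := hr a ha e1
      obtain ⟨k1, k2, k3, k4⟩ := hr b hb e2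
      rw [h1, h2, k1, k2]
      exact step hs ht _ _ (ih (a + 1) ha (b + 1) hb (by omega)) (h3.trans_le (Ts_le ht _))
        (k3.trans_le (Ts_le ht _)) (h4.trans_le (Ts_le hs _)) (k4.trans_le (Ts_le hs _))
  exact fun a ha b hb => key M a ha b hb (by omega)

lemma ev_lt {a b : ℝ} (c d : ℝ) (h : a < b) : ∀ᶠ x in 𝓝[>] (0 : ℝ), a + c * x < b + d * x := by
  have h1 : Continuous fun x : ℝ => a + c * x := by fun_prop
  have h2 : Continuous fun x : ℝ => b + d * x := by fun_prop
  exact (h1.continuousAt.eventually_lt h2.continuousAt (by simpa using h)).filter_mono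
    nhdsWithin_le_nhds

lemma ev_ne (a b : ℝ) {c : ℝ} (hc : c ≠ 0) : ∀ᶠ x in 𝓝[>] (0 : ℝ), a + c * x ≠ b := by
  rcases lt_trichotomy a b with h | h | h
  · filter_upwards [ev_lt c 0 h] with x hx
    linarith
  · filter_upwards [self_mem_nhdsWithin] with x hx e
    have : c * x = 0 := by linarith
    exact (mul_ne_zero hc (ne_of_gt hx)) this
  · filter_upwards [ev_lt 0 c h] with x hx
    linarith

/-- Local expansion to the left of a point. -/
lemma loc (ht : 0 < t) (z : ℝ) (r : ℕ) : ∃ ε : ℝ, (ε = 1 ∨ ε = -1) ∧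
    ∀ᶠ h in 𝓝[>] (0 : ℝ), (Ts t)^[r] (z - h) = (Ts t)^[r] z + ε * t ^ r * h := by
  induction r with
  | zero => exact ⟨-1, Or.inr rfl, Eventually.of_forall fun h => by simp; ring⟩
  | succ r ih =>
    obtain ⟨ε, hε, h⟩ := ih
    simp only [Function.iterate_succ_apply']
    rcases lt_trichotomy ((Ts t)^[r] z) (1 / 2) with a | a | a
    · refine ⟨ε, hε, ?_⟩
      filter_upwards [h, ev_lt (ε * t ^ r) 0 a] with x h1 h2
      rw [h1, Ts_left (by linarith), Ts_left a.le]
      ring
    · refine ⟨-1, Or.inr rfl, ?_⟩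
      filter_upwards [h, self_mem_nhdsWithin] with x h1 h2
      have h3 : 0 < t ^ r * x := mul_pos (pow_pos ht r) h2
      rw [h1, a, Ts_left (le_refl _)]
      rcases hε with rfl | rfl
      · rw [Ts_right (by linarith)]
        ring
      · rw [Ts_left (by linarith)]
        ring
    · refine ⟨-ε, by rcases hε with rfl | rfl <;> simp, ?_⟩
      filter_upwards [h, ev_lt 0 (ε * t ^ r) a] with x h1 h2
      rw [h1, Ts_right (by linarith), Ts_right a.le]
      ring

lemma ev_max (ht : 1 < t) {j : ℕ} (hj : j ≠ 1) :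
    ∀ᶠ h in 𝓝[>] (0 : ℝ), (Ts t)^[j] (1 / 2 - h) < Ts t (1 / 2 - h) := by
  have ht0 : 0 < t := by linarith
  rcases j with _ | _ | r
  · filter_upwards [self_mem_nhdsWithin, ev_lt 1 0 (show (0 : ℝ) < 1 / 2 by norm_num)]
      with x h1 h2
    have h3 : 0 < x := h1
    rw [Ts_left (by linarith)]
    simp only [Function.iterate_zero, id]
    nlinarith
  · exact absurd rfl hj
  · obtain ⟨ε, hε, h⟩ := loc ht0 (1 / 2) (r + 1)
    have hp : 1 < t ^ (r + 1) := one_lt_pow₀ ht (by omega)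
    have fin : ∀ x p : ℝ, 0 < x → (p < 1 / 2 - x ∨ 1 / 2 + x < p) →
        Ts t p < Ts t (1 / 2 - x) := fun x p h1 h2 => by
      rw [Ts_left (p := 1 / 2 - x) (by linarith)]
      rcases h2 with h2 | h2
      · rw [Ts_left (by linarith)]
        nlinarith
      · rw [Ts_right (by linarith)]
        nlinarith
    simp only [Function.iterate_succ_apply' _ (r + 1)]
    rcases lt_trichotomy ((Ts t)^[r + 1] (1 / 2)) (1 / 2) with a | a | a
    · filter_upwards [h, ev_lt (ε * t ^ (r + 1)) (-1) a, self_mem_nhdsWithin] with x h1 h2 h3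
      exact fin x _ h3 (Or.inl (by linarith))
    · filter_upwards [h, self_mem_nhdsWithin] with x h1 h3
      have h4 : 0 < x := h3
      refine fin x _ h3 ?_
      rw [h1, a]
      rcases hε with rfl | rfl
      · right
        nlinarith
      · left
        nlinarith
    · filter_upwards [h, ev_lt 1 (ε * t ^ (r + 1)) a, self_mem_nhdsWithin] with x h1 h2 h3
      exact fin x _ h3 (Or.inr (by linarith))

lemma tend_left : Tendsto (fun h : ℝ => 1 / 2 - h) (𝓝[>] 0) (𝓝[≠] (1 / 2)) := by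
  refine tendsto_nhdsWithin_iff.2 ⟨?_, ?_⟩
  · have : Continuous fun h : ℝ => 1 / 2 - h := by fun_prop
    simpa using (this.tendsto 0).mono_left nhdsWithin_le_nhds
  · filter_upwards [self_mem_nhdsWithin] with x hx e
    have h1 : 0 < x := hx
    have h2 : 1 / 2 - x = 1 / 2 := e
    linarith

/-- A point `c` of the map of slope `t` and a point `x` of the map of slope `s` with one
pattern of length `n`, whose second value is the largest. -/
structure Ctx (s t : ℝ) (n : ℕ) (x c : ℝ) : Prop where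
  pat : ∀ i < n, ∀ j < n, (Ts t)^[i] c < (Ts t)^[j] c ↔ (Ts s)^[i] x < (Ts s)^[j] x
  top : ∀ j < n, j ≠ 1 → (Ts s)^[j] x < Ts s x

lemma Ctx.same {n : ℕ} {x c : ℝ} (C : Ctx s t n x c) {i j : ℕ} (hi : i < n) (hj : j < n) :
    Same ((Ts t)^[i] c) ((Ts t)^[j] c) ((Ts s)^[i] x) ((Ts s)^[j] x) :=
  ⟨(C.pat i hi j hj).1, (C.pat j hj i hi).1⟩

lemma Ctx.sym (hs : 0 < s) (ht : 0 < t) {n : ℕ} {x c : ℝ} (C : Ctx s t n x c) {j : ℕ}
    (h1 : 1 ≤ j) (h2 : j + 1 < n) : ∃ b, (Ts s)^[j] x = br s b ((Ts s)^[j + 1] x) ∧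
      (Ts t)^[j] c = br t b ((Ts t)^[j + 1] c) ∧ (Ts s)^[j + 1] x < Ts s x ∧
      (Ts t)^[j + 1] c < Ts t c := by
  have a1 := C.top (j + 1) h2 (by omega)
  have a2 : (Ts t)^[j + 1] c < Ts t c := (C.pat (j + 1) h2 1 (by omega)).2 a1
  have b1 := a1
  have b2 := a2
  rw [Function.iterate_succ_apply'] at b1 b2
  simp only [Function.iterate_succ_apply'] 
  rcases lt_trichotomy ((Ts s)^[j] x) x with h | h | h
  · have h' : (Ts t)^[j] c < c := (C.pat j (by omega) 0 (by omega)).2 h
    exact ⟨false, (br_left hs ((plat hs b1).2 h)).symm, (br_left ht ((plat ht b2).2 h')).symm,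
      b1, b2⟩
  · rw [h] at b1
    exact absurd b1 (lt_irrefl _)
  · have h' : c < (Ts t)^[j] c := (C.pat 0 (by omega) j (by omega)).2 h
    exact ⟨true, (br_right hs ((plat hs b1).1 h)).symm, (br_right ht ((plat ht b2).1 h')).symm,
      b1, b2⟩

lemma ev_ctx (ht : 1 < t) {n : ℕ} (hn : 1 < n) {x : ℝ}
    (h : ∀ᶠ c in 𝓝[≠] (1 / 2 : ℝ), ∀ i < n, ∀ j < n,
      (Ts t)^[i] c < (Ts t)^[j] c ↔ (Ts s)^[i] x < (Ts s)^[j] x) :
    ∀ᶠ c in 𝓝[≠] (1 / 2 : ℝ), Ctx s t n x c := by
  have top : ∀ j < n, j ≠ 1 → (Ts s)^[j] x < Ts s x := fun j hj h1 => by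
    obtain ⟨a, a1, a2⟩ := ((tend_left.eventually h).and (ev_max ht h1)).exists
    exact (a1 j hj 1 hn).1 a2
  filter_upwards [h] with c hc
  exact ⟨hc, top⟩

end Pool.Agent.P.MP_25bc1d_an.Pr
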