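import Pool.Agent.P.MP_25bc1d_an.PrA

/-! Pairs of tent maps: an orbit segment through a near-critical point. -/

namespace Pool.Agent.P.MP_25bc1d_an.Pr

variable {s t : ℝ}

lemma caseB (hs : 1 < s) (ht : 0 < t) {n M κ : ℕ} {x : ℝ} (hx : x ∈ Set.Icc (0 : ℝ) 1)
    (w : ℕ → Bool) (z : ℕ → ℝ)
    (hz : ∀ a < M, z a = br t (w a) (z (a + 1)) ∧ z (a + 1) ≤ t / 2)
    (hκ : κ < M) (hmax : ∀ a < M, a ≠ κ → z (a + 1) < z (κ + 1))
    (C : Ctx s t n x (z κ)) (hM : M < n) :
    ∃ y ∈ Set.Icc (0 : ℝ) 1, ∀ a ≤ M, ∀ b ≤ M,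
      Same (z a) (z b) ((Ts s)^[a] y) ((Ts s)^[b] y) := by
  have hs0 : 0 < s := by linarith
  have orb : ∀ j, κ + j ≤ M → (Ts t)^[j] (z κ) = z (κ + j) := by
    intro j
    induction j with
    | zero => intro _; rfl
    | succ j ih =>
      intro h
      rw [Function.iterate_succ_apply', ih (by omega), (hz (κ + j) (by omega)).1,
        Ts_br ht _ (hz (κ + j) (by omega)).2]
      rfl
  have c1 : Ts t (z κ) = z (κ + 1) := orb 1 (by omega)
  obtain ⟨y, hy1, hy2, hy0⟩ : ∃ y : ℕ → ℝ, (∀ a < κ, y a = br s (w a) (y (a + 1))) ∧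
      (∀ j, y (κ + j) = (Ts s)^[j] x) ∧ y 0 ∈ Set.Icc (0 : ℝ) 1 := by
    refine ⟨fun a => if a ≤ κ then W s w a (κ - a) x else (Ts s)^[a - κ] x, fun a ha => ?_,
      fun j => ?_, ?_⟩
    · simp only [if_pos ha.le, if_pos (show a + 1 ≤ κ from ha)]
      rw [show κ - a = κ - (a + 1) + 1 by omega, W_succ]
    · rcases Nat.eq_zero_or_pos j with rfl | hj
      · simp
      · simp only [if_neg (show ¬ κ + j ≤ κ by omega), Nat.add_sub_cancel_left]
    · simp only [if_pos (Nat.zero_le κ)]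
      exact W_mem hs.le w hx _ _
  have claim : ∀ d a, a + d = κ → ∀ j, 1 ≤ j → d + j < n →
      Same (z a) ((Ts t)^[j] (z κ)) (y a) ((Ts s)^[j] x) := by
    intro d
    induction d with
    | zero =>
      intro a ha j _ h2
      have e : a = κ := ha
      have e2 : y κ = x := hy2 0
      rw [e, e2]
      exact C.same (i := 0) (by omega) (by omega)
    | succ d ih =>
      intro a ha j h1 h2
      obtain ⟨b, b1, b2, b3, b4⟩ := C.sym hs0 ht h1 (by omega)
      have m := hmax a (by omega) (by omega)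
      have m' : y (a + 1) < Ts s x := (ih (a + 1) (by omega) 1 le_rfl (by omega)).1
        (by rw [← c1] at m; exact m)
      rw [(hz a (by omega)).1, hy1 a (by omega), b1]
      nth_rewrite 1 [b2]
      exact step hs0 ht _ _ (ih (a + 1) (by omega) (j + 1) (by omega) (by omega))
        (m.trans_le (hz κ hκ).2) (b4.trans_le (Ts_le ht _)) (m'.trans_le (Ts_le hs0 _))
        (b3.trans_le (Ts_le hs0 _))
  have hr : ∀ a < M, a ≠ κ → z a = br t (w a) (z (a + 1)) ∧ y a = br s (w a) (y (a + 1)) ∧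
      z (a + 1) < Ts t (z κ) ∧ y (a + 1) < Ts s x := by
    intro a ha e
    have m := hmax a ha e
    have m1 : z (a + 1) < Ts t (z κ) := by rw [c1]; exact m
    rcases lt_or_gt_of_ne e with h | h
    · exact ⟨(hz a ha).1, hy1 a h, m1,
        (claim (κ - (a + 1)) (a + 1) (by omega) 1 le_rfl (by omega)).1 m1⟩
    · obtain ⟨j, rfl⟩ : ∃ j, a = κ + j := ⟨a - κ, by omega⟩
      obtain ⟨b, b1, b2, b3, -⟩ := C.sym hs0 ht (j := j) (by omega) (by omega)
      rw [orb j (by omega), orb (j + 1) (by omega)] at b2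
      have eb : b = w (κ + j) := br_inj ht (m.trans_le (hz κ hκ).2)
        (b2.symm.trans (hz _ ha).1)
      have e1 : y (κ + j + 1) = (Ts s)^[j + 1] x := hy2 (j + 1)
      refine ⟨(hz _ ha).1, ?_, m1, ?_⟩
      · rw [hy2 j, e1, ← eb]
        exact b1
      · rw [e1]
        exact b3
  have hl : ∀ a < M, Same (z a) (z M) (y a) (y M) := by
    intro a ha
    obtain ⟨j, rfl⟩ : ∃ j, M = κ + j := ⟨M - κ, by omega⟩
    rw [← orb j le_rfl, hy2 j]
    rcases le_or_gt a κ with h | h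
    · exact claim (κ - a) a (by omega) j (by omega) (by omega)
    · obtain ⟨i, rfl⟩ : ∃ i, a = κ + i := ⟨a - κ, by omega⟩
      rw [← orb i (by omega), hy2 i]
      exact C.same (by omega) (by omega)
  have orb' : ∀ a ≤ M, (Ts s)^[a] (y 0) = y a := by
    intro a
    induction a with
    | zero => intro _; rfl
    | succ a ih =>
      intro h
      rw [Function.iterate_succ_apply', ih (by omega)]
      rcases lt_or_ge a κ with h1 | h1
      · rw [hy1 a h1, Ts_br hs0 _ ((hr a h h1.ne).2.2.2.le.trans (Ts_le hs0 _))]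
      · obtain ⟨j, rfl⟩ : ∃ j, a = κ + j := ⟨a - κ, by omega⟩
        have e1 : y (κ + j + 1) = (Ts s)^[j + 1] x := hy2 (j + 1)
        rw [e1, hy2 j, Function.iterate_succ_apply']
  refine ⟨y 0, hy0, fun a ha b hb => ?_⟩
  rw [orb' a ha, orb' b hb]
  exact orderG hs0 ht w z y M κ (z κ) x hr (fun _ => ⟨rfl, hy2 0⟩) hl a ha b hb

end Pool.Agent.P.MP_25bc1d_an.Pr
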