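import Pool.Agent.P.MP_25bc1d_an.PrA

/-! Pairs of tent maps: eventually periodic words of short length. -/

namespace Pool.Agent.P.MP_25bc1d_an.Pr

variable {s t : ℝ}

lemma ord1 (hs : 0 < s) (ht : 1 < t) (M : ℕ) (nx : ℕ → ℕ) (w : ℕ → Bool) (Z Z' : ℕ → ℝ)
    (hn : ∀ r ≤ M, nx r ≤ M)
    (hZ : ∀ r ≤ M, Z r = br t (w r) (Z (nx r)) ∧ Z (nx r) < t / 2 ∧ Z r ∈ Set.Icc (0 : ℝ) 1)
    (hZ' : ∀ r ≤ M, Z' r = br s (w r) (Z' (nx r)) ∧ Z' (nx r) < s / 2 ∧
      Z' r ∈ Set.Icc (0 : ℝ) 1) :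
    ∀ a ≤ M, ∀ b ≤ M, Z a < Z b → Z' a < Z' b := by
  have ht0 : 0 < t := by linarith
  have key : ∀ N : ℕ, ∀ a ≤ M, ∀ b ≤ M, Z a < Z b → ¬ Z' a < Z' b → (Z b - Z a) * t ^ N ≤ 1 := by
    intro N
    induction N with
    | zero =>
      intro a ha b hb _ _
      have := (hZ a ha).2.2.1
      have := (hZ b hb).2.2.2
      rw [pow_zero]
      linarith
    | succ N ih =>
      intro a ha b hb h h'
      obtain ⟨a1, a2, -⟩ := hZ a ha
      obtain ⟨b1, b2, -⟩ := hZ b hb
      obtain ⟨c1, c2, -⟩ := hZ' a ha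
      obtain ⟨d1, d2, -⟩ := hZ' b hb
      rw [c1, d1] at h'
      rw [a1, b1] at h ⊢
      generalize w a = p at h h' ⊢
      generalize w b = q at h h' ⊢
      cases p <;> cases q
      · have := ih _ (hn a ha) _ (hn b hb) ((br_ff ht0).1 h) fun z => h' ((br_ff hs).2 z)
        refine le_of_eq_of_le ?_ this
        rw [br_false, br_false, pow_succ]
        field_simp
      · exact absurd (br_side hs c2 d2) h'
      · exact absurd (br_side ht0 b2 a2) (not_lt.2 h.le)
      · have := ih _ (hn b hb) _ (hn a ha) ((br_tt ht0).1 h) fun z => h' ((br_tt hs).2 z)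
        refine le_of_eq_of_le ?_ this
        rw [br_true, br_true, pow_succ]
        field_simp
        ring
  intro a ha b hb h
  by_contra h'
  obtain ⟨N, hN⟩ := pow_unbounded_of_one_lt (1 / (Z b - Z a)) ht
  rw [div_lt_iff₀ (by linarith)] at hN
  have := key N a ha b hb h h'
  linarith

lemma adm (hs : 1 < s) (ht : 1 < t) {n M : ℕ} {x c : ℝ} (C : Ctx s t n x c) (hM : M < n)
    (nx : ℕ → ℕ) (w : ℕ → Bool) (Z Z' : ℕ → ℝ)
    (hn : ∀ r, 1 ≤ r → r < M → 1 ≤ nx r ∧ nx r < M)
    (hZ : ∀ r, 1 ≤ r → r < M → Z r = br t (w r) (Z (nx r)) ∧ Z' r = br s (w r) (Z' (nx r)) ∧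
      Z r < Ts t c) : ∀ r, 1 ≤ r → r < M → Z' r < Ts s x := by
  have hs0 : 0 < s := by linarith
  have ht0 : 0 < t := by linarith
  intro r0 h1 h2
  by_contra hc
  obtain ⟨k, hk, hmax⟩ := Finset.exists_max_image (Finset.Ico 1 M) Z'
    ⟨r0, Finset.mem_Ico.2 ⟨h1, h2⟩⟩
  rw [Finset.mem_Ico] at hk
  have mem : ∀ q, 1 ≤ nx^[q] k ∧ nx^[q] k < M := by
    intro q
    induction q with
    | zero => exact hk
    | succ q ih =>
      rw [Function.iterate_succ_apply']
      exact hn _ ih.1 ih.2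
  obtain ⟨D, hD, D0⟩ : ∃ D, Z k - Ts t c = D ∧ D < 0 :=
    ⟨_, rfl, sub_neg.2 (hZ k hk.1 hk.2).2.2⟩
  obtain ⟨E, hE, E0⟩ : ∃ E, Z' k - Ts s x = E ∧ 0 ≤ E :=
    ⟨_, rfl, sub_nonneg.2 ((not_lt.1 hc).trans (hmax r0 (Finset.mem_Ico.2 ⟨h1, h2⟩)))⟩
  have key : ∀ q < M, ∃ ε : ℝ, (ε = 1 ∨ ε = -1) ∧
      Z (nx^[q] k) - (Ts t)^[q + 1] c = ε * t ^ q * D ∧
      Z' (nx^[q] k) - (Ts s)^[q + 1] x = ε * s ^ q * E := by
    intro q
    induction q with
    | zero =>
      intro _
      exact ⟨1, Or.inl rfl, by simpa using hD, by simpa using hE⟩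
    | succ q ih =>
      intro hq
      obtain ⟨ε, hε, e1, e2⟩ := ih (by omega)
      obtain ⟨b, b1, b2, b3, b4⟩ := C.sym hs0 ht0 (j := q + 1) (by omega) (by omega)
      obtain ⟨z1, z2, -⟩ := hZ _ (mem q).1 (mem q).2
      have m := hn _ (mem q).1 (mem q).2
      have z3 := ((hZ _ m.1 m.2).2.2).trans_le (Ts_le ht0 _)
      have z4 := hmax _ (Finset.mem_Ico.2 m)
      have b5 := b4.trans_le (Ts_le ht0 _)
      have x1 := Ts_le hs0 x
      rw [Function.iterate_succ_apply' nx]
      rw [z1, b2] at e1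
      rw [z2, b1] at e2
      generalize Z (nx (nx^[q] k)) = A at *
      generalize Z' (nx (nx^[q] k)) = A' at *
      generalize (Ts t)^[q + 1 + 1] c = B at *
      generalize (Ts s)^[q + 1 + 1] x = B' at *
      have pt : t ^ q * D < 0 := mul_neg_of_pos_of_neg (pow_pos ht0 q) D0
      have ps : E ≤ s ^ q * E * s := by
        have : 1 ≤ s ^ q * s := by rw [← pow_succ]; exact one_le_pow₀ hs.le
        nlinarith
      generalize w (nx^[q] k) = p at e1 e2
      cases p <;> cases b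
      · refine ⟨ε, hε, ?_, ?_⟩
        · rw [br_false, br_false, ← sub_div, div_eq_iff ht0.ne'] at e1
          rw [e1]
          ring
        · rw [br_false, br_false, ← sub_div, div_eq_iff hs0.ne'] at e2
          rw [e2]
          ring
      · exfalso
        have u := br_side ht0 z3 b5
        rcases hε with rfl | rfl
        · rw [br_false, br_true, show A' / s - (1 - B' / s) = (A' + B' - s) / s by field_simp; ring,
            div_eq_iff hs0.ne'] at e2
          linarith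
        · linarith
      · exfalso
        have u := br_side ht0 b5 z3
        rcases hε with rfl | rfl
        · linarith
        · rw [br_false, br_true, show 1 - A' / s - B' / s = (s - A' - B') / s by field_simp,
            div_eq_iff hs0.ne'] at e2
          linarith
      · refine ⟨-ε, by rcases hε with rfl | rfl <;> simp, ?_, ?_⟩
        · rw [br_true, br_true, show 1 - A / t - (1 - B / t) = (B - A) / t by ring,
            div_eq_iff ht0.ne'] at e1
          rw [pow_succ]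
          linarith
        · rw [br_true, br_true, show 1 - A' / s - (1 - B' / s) = (B' - A') / s by ring,
            div_eq_iff hs0.ne'] at e2
          rw [pow_succ]
          linarith
  have fin : ∀ p q, p < q → q < M → nx^[p] k ≠ nx^[q] k := by
    intro p q hpq hq e
    obtain ⟨ε, hε, e1, e2⟩ := key p (by omega)
    obtain ⟨η, hη, f1, f2⟩ := key q hq
    rw [← e] at f1 f2
    have S := C.same (i := p + 1) (j := q + 1) (by omega) (by omega)
    have a1 : t ^ q * D < t ^ p * D := mul_lt_mul_of_neg_right (pow_lt_pow_right₀ ht hpq) D0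
    have a2 : t ^ p * D < 0 := mul_neg_of_pos_of_neg (pow_pos ht0 p) D0
    have a3 : s ^ p * E ≤ s ^ q * E :=
      mul_le_mul_of_nonneg_right (pow_le_pow_right₀ hs.le hpq.le) E0
    have a4 : 0 ≤ s ^ p * E := mul_nonneg (pow_pos hs0 p).le E0
    rcases hη with rfl | rfl
    · have := S.1 (by rcases hε with rfl | rfl <;> linarith)
      rcases hε with rfl | rfl <;> linarith
    · have := S.2 (by rcases hε with rfl | rfl <;> linarith)
      rcases hε with rfl | rfl <;> linarith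
  obtain ⟨p, hp, q, hq, hne, e⟩ := Finset.exists_ne_map_eq_of_card_lt_of_maps_to
    (s := Finset.range M) (t := Finset.Ico 1 M) (by simp; omega) (f := fun q => nx^[q] k)
    (fun q _ => Finset.mem_Ico.2 (mem q))
  rcases lt_or_gt_of_ne hne with h | h
  · exact fin p q h (Finset.mem_range.1 hq) e
  · exact fin q p h (Finset.mem_range.1 hp) e.symm

lemma caseP (hs : 1 < s) (ht : 1 < t) {n M i : ℕ} {x c e : ℝ}
    (w : ℕ → Bool) (C : Ctx s t n x c) (hM : M < n) (hi1 : 1 ≤ i) (hi : i < M)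
    (he0 : e ∈ Set.Icc (0 : ℝ) 1) (he : W t w i (M - i) e = e)
    (htop : ∀ k, 1 ≤ k → k < M → W t w k (M - k) e < Ts t c) :
    ∃ e' ∈ Set.Icc (0 : ℝ) 1, W s w i (M - i) e' = e' ∧
      (∀ k, 1 ≤ k → k < M → W s w k (M - k) e' < s / 2) ∧ (0 < e → 0 < e') ∧
      ∀ l < M, (W t w l (M - l) e < e ↔ W s w l (M - l) e' < e') ∧
        (e < W t w l (M - l) e ↔ e' < W s w l (M - l) e') := by
  have hs0 : 0 < s := by linarith
  have ht0 : 0 < t := by linarith
  obtain ⟨e', m, he'⟩ := exists_fixed hs.le w i (M - i)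
  obtain ⟨nx, n1, n2, n3⟩ : ∃ nx : ℕ → ℕ, (∀ r < M, 1 ≤ nx r ∧ nx r < M) ∧ nx M = M ∧
      ∀ (σ p : ℝ), W σ w i (M - i) p = p → ∀ r < M,
        W σ w r (M - r) p = br σ (w r) (W σ w (nx r) (M - nx r) p) := by
    refine ⟨fun r => if r + 1 < M then r + 1 else if r < M then i else r, fun r hr => ?_, ?_,
      fun σ p hp r hr => ?_⟩
    · dsimp only
      split_ifs <;> omega
    · simp
    · rw [show M - r = M - (r + 1) + 1 by omega, W_succ]
      by_cases h : r + 1 < M
      · simp only [if_pos h]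
      · simp only [if_neg h, if_pos hr]
        rw [hp, show M - (r + 1) = 0 by omega, W_zero]
  have top' : ∀ k, 1 ≤ k → k < M → W s w k (M - k) e' < s / 2 := fun k a b =>
    (adm hs ht C hM nx w (fun r => W t w r (M - r) e) (fun r => W s w r (M - r) e')
      (fun r _ h => n1 r h) (fun r h1 h => ⟨n3 t e he r h, n3 s e' he' r h, htop r h1 h⟩)
      k a b).trans_le (Ts_le hs0 _)
  have mach : ∀ (σ p : ℝ), 1 < σ → p ∈ Set.Icc (0 : ℝ) 1 → W σ w i (M - i) p = p →
      (∀ k, 1 ≤ k → k < M → W σ w k (M - k) p < σ / 2) → ∀ r ≤ M,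
      (if r < M then W σ w r (M - r) p else 0) = br σ (if r < M then w r else false)
        (if nx r < M then W σ w (nx r) (M - nx r) p else 0) ∧
      (if nx r < M then W σ w (nx r) (M - nx r) p else 0) < σ / 2 ∧
      (if r < M then W σ w r (M - r) p else 0) ∈ Set.Icc (0 : ℝ) 1 := by
    intro σ p h1 h2 h3 h4 r hr
    rcases hr.eq_or_lt with rfl | hr
    · simp only [n2, if_neg (lt_irrefl r), br_false, zero_div]
      exact ⟨trivial, by linarith, le_rfl, zero_le_one⟩
    · simp only [if_pos hr, if_pos (n1 r hr).2]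
      exact ⟨n3 σ p h3 r hr, h4 _ (n1 r hr).1 (n1 r hr).2, W_mem h1.le w h2 _ _⟩
  have hn : ∀ r ≤ M, nx r ≤ M := fun r hr => by
    rcases hr.eq_or_lt with rfl | hr
    · exact n2.le
    · exact (n1 r hr).2.le
  have m1 := mach t e ht he0 he fun k a b => (htop k a b).trans_le (Ts_le ht0 _)
  have m2 := mach s e' hs m he' top'
  have o1 := ord1 hs0 ht M nx _ _ _ hn m1 m2
  have o2 := ord1 ht0 hs M nx _ _ _ hn m2 m1
  refine ⟨e', m, he', top', ?_, fun l hl => ⟨⟨?_, ?_⟩, ?_, ?_⟩⟩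
  · simpa only [if_pos hi, if_neg (lt_irrefl M), he, he'] using o1 M le_rfl i hi.le
  · simpa only [if_pos hi, if_pos hl, he, he'] using o1 l hl.le i hi.le
  · simpa only [if_pos hi, if_pos hl, he, he'] using o2 l hl.le i hi.le
  · simpa only [if_pos hi, if_pos hl, he, he'] using o1 i hi.le l hl.le
  · simpa only [if_pos hi, if_pos hl, he, he'] using o2 i hi.le l hl.le

end Pool.Agent.P.MP_25bc1d_an.Pr
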