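import Pool.Agent.P.MP_25bc1d_an.PrB
import Pool.Agent.P.MP_25bc1d_an.PrC

/-! Pairs of tent maps: moving the last point of an orbit segment, and the transfer. -/

namespace Pool.Agent.P.MP_25bc1d_an.Pr

open Filter Topology

variable {s t : ℝ}

lemma ev_all {l : Filter ℝ} {p : ℕ → ℝ → Prop} (M : ℕ) (h : ∀ a ≤ M, ∀ᶠ x in l, p a x) :
    ∀ᶠ x in l, ∀ a ≤ M, p a x :=
  (Filter.eventually_all_finite (Set.finite_Iic M)).2 h

lemma ev_imp {l : Filter ℝ} {q : Prop} {p : ℝ → Prop} (h : q → ∀ᶠ x in l, p x) :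
    ∀ᶠ x in l, q → p x := by
  by_cases e : q
  · exact (h e).mono fun x hx _ => hx
  · exact Eventually.of_forall fun x hx => absurd hx e

lemma W_step (s : ℝ) (w : ℕ → Bool) {M a : ℕ} (ha : a < M) (u : ℝ) :
    W s w a (M - a) u = br s (w a) (W s w (a + 1) (M - (a + 1)) u) := by
  rw [show M - a = M - (a + 1) + 1 by omega, W_succ]

lemma Ts_half (s : ℝ) : Ts s (1 / 2) = s / 2 := by
  rw [Ts_left le_rfl]
  ring

lemma pull (hs : 0 < s) (ht : 0 < t) (w : ℕ → Bool) (v : ℕ → ℝ) (M : ℕ) (u : ℝ)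
    (hv : ∀ a < M, v a = br t (w a) (v (a + 1)) ∧ v (a + 1) < t / 2)
    (hu : ∀ k ≤ M, 1 ≤ k → W s w k (M - k) u < s / 2)
    (hl : ∀ l ≤ M, l < M → Same (v l) (v M) (W s w l (M - l) u) u) :
    ∀ a ≤ M, ∀ b ≤ M, Same (v a) (v b) (W s w a (M - a) u) (W s w b (M - b) u) :=
  orderG hs ht w v (fun a => W s w a (M - a) u) M M (1 / 2) (1 / 2)
    (fun a ha _ => ⟨(hv a ha).1, W_step s w ha u, by rw [Ts_half]; exact (hv a ha).2,
      by rw [Ts_half]; exact hu (a + 1) ha (by omega)⟩)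
    (fun h => absurd h (lt_irrefl _)) (fun a ha => by simpa using hl a ha.le ha)

lemma orbW (hs : 0 < s) (w : ℕ → Bool) (M : ℕ) (u : ℝ)
    (hu : ∀ k ≤ M, 1 ≤ k → W s w k (M - k) u < s / 2) :
    ∀ a ≤ M, (Ts s)^[a] (W s w 0 M u) = W s w a (M - a) u := by
  intro a
  induction a with
  | zero => intro _; rfl
  | succ a ih =>
    intro h
    rw [Function.iterate_succ_apply', ih (by omega), W_step s w h,
      Ts_br hs _ (hu (a + 1) h (by omega)).le]

/-- The good last points for the word `w` and the order of `v`. -/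
def Good (t : ℝ) (w : ℕ → Bool) (v : ℕ → ℝ) (M : ℕ) : Set ℝ :=
  {u | 0 < u ∧ (∀ k ≤ M, 1 ≤ k → W t w k (M - k) u < t / 2) ∧
    ∀ l ≤ M, l < M → Same (v l) (v M) (W t w l (M - l) u) u}

lemma good_open (w : ℕ → Bool) (v : ℕ → ℝ) (M : ℕ) : IsOpen (Good t w v M) := by
  rw [isOpen_iff_mem_nhds]
  rintro u ⟨h1, h2, h3⟩
  have c := fun k => (W_cont t w (M - k) k).continuousAt (x := u)
  refine (lt_mem_nhds h1).and ((ev_all M fun k hk => ev_imp fun h => ?_).and
    (ev_all M fun l hl => ev_imp fun h => (ev_imp fun a => ?_).and (ev_imp fun a => ?_)))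
  · exact (c k).eventually_lt continuousAt_const (h2 k hk h)
  · exact (c l).eventually_lt continuousAt_id ((h3 l hl h).1 a)
  · exact continuousAt_id.eventually_lt (c l) ((h3 l hl h).2 a)

lemma good_closure {w : ℕ → Bool} {v : ℕ → ℝ} {M : ℕ} {e : ℝ}
    (he : e ∈ closure (Good t w v M)) :
    (∀ k ≤ M, 1 ≤ k → W t w k (M - k) e ≤ t / 2) ∧ ∀ l < M,
      (v l < v M → W t w l (M - l) e ≤ e) ∧ (v M < v l → e ≤ W t w l (M - l) e) := by
  have c := fun k => W_cont t w (M - k) k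
  refine ⟨fun k hk h => ?_, fun l hl => ⟨fun a => ?_, fun a => ?_⟩⟩
  · exact closure_minimal (fun u hu => (hu.2.1 k hk h).le) (isClosed_le (c k) continuous_const) he
  · exact closure_minimal (fun u hu => ((hu.2.2 l hl.le hl).1 a).le)
      (isClosed_le (c l) continuous_id) he
  · exact closure_minimal (fun u hu => ((hu.2.2 l hl.le hl).2 a).le)
      (isClosed_le continuous_id (c l)) he

/-- An end point at which the top value is reached. -/
lemma endB (hs : 1 < s) (ht : 0 < t) {n M : ℕ} {x : ℝ} (hx : x ∈ Set.Icc (0 : ℝ) 1)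
    (hev : ∀ᶠ c in 𝓝[≠] (1 / 2 : ℝ), Ctx s t n x c) (hM : M < n) (w : ℕ → Bool) (v : ℕ → ℝ)
    (hv : ∀ a < M, v a = br t (w a) (v (a + 1)) ∧ v (a + 1) < t / 2)
    (hne : ∀ a ≤ M, ∀ b ≤ M, a ≠ b → v a ≠ v b) {e : ℝ} (he : e ∈ closure (Good t w v M))
    {k : ℕ} (hk1 : 1 ≤ k) (hk : k ≤ M) (htop : W t w k (M - k) e = t / 2) :
    ∃ y ∈ Set.Icc (0 : ℝ) 1, ∀ a ≤ M, ∀ b ≤ M,
      Same (v a) (v b) ((Ts s)^[a] y) ((Ts s)^[b] y) := by
  obtain ⟨δ, hδ, hc⟩ := Metric.eventually_nhds_iff.1 (eventually_nhdsWithin_iff.1 hev)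
  have h1 : ∀ᶠ u in 𝓝 e, t / 2 - t * δ < W t w k (M - k) u :=
    continuousAt_const.eventually_lt (W_cont t w (M - k) k).continuousAt
      (by rw [htop]; nlinarith)
  obtain ⟨u, hu1, hu⟩ := mem_closure_iff_nhds.1 he _ h1
  have P := pull ht ht w v M u hv hu.2.1 hu.2.2
  obtain ⟨κ, hκ, hmax⟩ := Finset.exists_max_image (Finset.range M)
    (fun a => W t w (a + 1) (M - (a + 1)) u) ⟨0, Finset.mem_range.2 (by omega)⟩
  rw [Finset.mem_range] at hκ
  have h2 : t / 2 - t * δ < W t w (κ + 1) (M - (κ + 1)) u := by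
    obtain ⟨j, rfl⟩ : ∃ j, k = j + 1 := ⟨k - 1, by omega⟩
    exact lt_of_lt_of_le hu1 (hmax j (Finset.mem_range.2 hk))
  have h3 := hu.2.1 (κ + 1) hκ (by omega)
  have C : Ctx s t n x (W t w κ (M - κ) u) := by
    rw [W_step t w hκ]
    generalize W t w (κ + 1) (M - (κ + 1)) u = p at h2 h3
    have a1 : p / t < 1 / 2 := by rw [div_lt_iff₀ ht]; linarith
    have a2 : 1 / 2 - δ < p / t := by rw [lt_div_iff₀ ht]; linarith
    refine hc ?_ ?_
    · rw [Real.dist_eq, abs_lt]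
      cases w κ
      · rw [br_false]
        constructor <;> linarith
      · rw [br_true]
        constructor <;> linarith
    · intro e
      have e' : br t (w κ) p = 1 / 2 := e
      revert e'
      cases w κ
      · rw [br_false]
        exact a1.ne
      · rw [br_true]
        intro e'
        linarith
  obtain ⟨y, hy, h⟩ := caseB hs ht hx w (fun a => W t w a (M - a) u)
    (fun a ha => ⟨W_step t w ha u, (hu.2.1 (a + 1) ha (by omega)).le⟩) hκ
    (fun a ha e => by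
      refine lt_of_le_of_ne (hmax a (Finset.mem_range.2 ha)) fun q => ?_
      rcases lt_or_gt_of_ne (hne (a + 1) ha (κ + 1) hκ (by omega)) with r | r
      · exact ((P _ ha _ hκ).1 r).ne q
      · exact ((P _ ha _ hκ).2 r).ne' q) C hM
  exact ⟨y, hy, fun a ha b hb => (P a ha b hb).trans (h a ha b hb)⟩

/-- An end point that is periodic for the word. -/
lemma endP (hs : 1 < s) (hs2 : s ≤ 2) (ht : 1 < t) (ht2 : t ≤ 2) {n M : ℕ} {x : ℝ}
    (hev : ∀ᶠ c in 𝓝[≠] (1 / 2 : ℝ), Ctx s t n x c) (hM : M < n) (w : ℕ → Bool) (v : ℕ → ℝ)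
    (hv : ∀ a < M, v a = br t (w a) (v (a + 1)) ∧ v (a + 1) < t / 2)
    (hW : ∀ k ≤ M, W t w k (M - k) (v M) = v k) (h0 : 0 < v M)
    {e : ℝ} (he : e ∈ closure (Good t w v M)) (he0 : 0 ≤ e) (hev' : e ≠ v M)
    (htop : ∀ k ≤ M, 1 ≤ k → W t w k (M - k) e < t / 2) {i : ℕ} (hi1 : 1 ≤ i) (hi : i < M)
    (hfix : W t w i (M - i) e = e) :
    ∃ y ∈ Set.Icc (0 : ℝ) 1, ∀ a ≤ M, ∀ b ≤ M,
      Same (v a) (v b) ((Ts s)^[a] y) ((Ts s)^[b] y) := by
  have hs0 : 0 < s := by linarith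
  have ht0 : 0 < t := by linarith
  have cT : Continuous (Ts t) := by unfold Ts; fun_prop
  have h1 : ∀ᶠ c in 𝓝 (1 / 2 : ℝ), ∀ k ≤ M, 1 ≤ k → W t w k (M - k) e < Ts t c :=
    ev_all M fun k hk => ev_imp fun h =>
      continuousAt_const.eventually_lt cT.continuousAt (by rw [Ts_half]; exact htop k hk h)
  obtain ⟨c, C, hc⟩ := (hev.and (h1.filter_mono nhdsWithin_le_nhds)).exists
  have he1 : e < t / 2 := by simpa using htop M le_rfl (by omega)
  obtain ⟨e', m, hfix', htop', hpos, hord⟩ := caseP hs ht w C hM hi1 hi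
    ⟨he0, by linarith⟩ hfix (fun k a b => hc k b.le a)
  have he1' : e' < s / 2 := hfix' ▸ htop' i hi1 hi
  obtain ⟨F, hF, hle, hup, hdn, hnn⟩ : ∃ F : Filter ℝ, F.NeBot ∧ F ≤ 𝓝 e' ∧
      (e < v M → ∀ᶠ u in F, e' < u) ∧ (v M < e → ∀ᶠ u in F, u < e') ∧ ∀ᶠ u in F, 0 ≤ u := by
    rcases lt_or_gt_of_ne hev' with h | h
    · refine ⟨𝓝[>] e', inferInstance, nhdsWithin_le_nhds, fun _ => self_mem_nhdsWithin,
        fun a => absurd h (not_lt.2 a.le), ?_⟩
      filter_upwards [self_mem_nhdsWithin] with u hu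
      exact m.1.trans (le_of_lt hu)
    · exact ⟨𝓝[<] e', inferInstance, nhdsWithin_le_nhds, fun a => absurd h (not_lt.2 a.le),
        fun _ => self_mem_nhdsWithin,
        (le_mem_nhds (hpos (h0.trans h))).filter_mono nhdsWithin_le_nhds⟩
  have c := fun k => (W_cont s w (M - k) k).continuousAt (x := e')
  have g1 : ∀ᶠ u in F, ∀ k ≤ M, 1 ≤ k → W s w k (M - k) u < s / 2 := by
    refine (ev_all M fun k hk => ev_imp fun h =>
      (c k).eventually_lt continuousAt_const ?_).filter_mono hle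
    rcases hk.eq_or_lt with rfl | hk
    · simpa using he1'
    · exact htop' k h hk
  have g2 : ∀ᶠ u in F, ∀ l ≤ M, l < M → Same (v l) (v M) (W s w l (M - l) u) u := by
    refine ev_all M fun l hl => ev_imp fun h => (ev_imp fun a => ?_).and (ev_imp fun a => ?_)
    · rcases (((good_closure he).2 l h).1 a).eq_or_lt with q | q
      · have q' : W s w l (M - l) e' = e' := le_antisymm
          (not_lt.1 fun z => ((hord l h).2.2 z).ne' q) (not_lt.1 fun z => ((hord l h).1.2 z).ne q)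
        have r : e < v M := fixed_lt_of_W_lt ht w (by omega) q (by rw [hW l hl]; exact a)
        exact (hup r).mono fun u hu => W_lt_of_fixed_lt hs w (by omega) q' hu
      · exact ((c l).eventually_lt continuousAt_id ((hord l h).1.1 q)).filter_mono hle
    · rcases (((good_closure he).2 l h).2 a).eq_or_lt with q | q
      · have q' : W s w l (M - l) e' = e' := le_antisymm
          (not_lt.1 fun z => ((hord l h).2.2 z).ne q) (not_lt.1 fun z => ((hord l h).1.2 z).ne' q)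
        have r : v M < e := lt_fixed_of_lt_W ht w (by omega) q.symm (by rw [hW l hl]; exact a)
        exact (hdn r).mono fun u hu => lt_W_of_lt_fixed hs w (by omega) q' hu
      · exact (continuousAt_id.eventually_lt (c l) ((hord l h).2.1 q)).filter_mono hle
  obtain ⟨u, u0, u1, u2⟩ := (hnn.and (g1.and g2)).exists
  have u3 : u < s / 2 := by simpa using u1 M le_rfl (by omega)
  refine ⟨W s w 0 M u, W_mem hs.le w ⟨u0, by linarith⟩ _ _, fun a ha b hb => ?_⟩
  rw [orbW hs0 w M u u1 a ha, orbW hs0 w M u u1 b hb]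
  exact pull hs0 ht0 w v M u hv u1 u2 a ha b hb

lemma core (hs : 1 < s) (hs2 : s ≤ 2) (ht : 1 < t) (ht2 : t ≤ 2) {n M : ℕ} {x : ℝ}
    (hx : x ∈ Set.Icc (0 : ℝ) 1) (hev : ∀ᶠ c in 𝓝[≠] (1 / 2 : ℝ), Ctx s t n x c) (hM : M < n)
    (hM2 : 2 ≤ M) (w : ℕ → Bool) (v : ℕ → ℝ)
    (hv : ∀ a < M, v a = br t (w a) (v (a + 1)) ∧ v (a + 1) < t / 2) (h0 : 0 < v M)
    (hne : ∀ a ≤ M, ∀ b ≤ M, a ≠ b → v a ≠ v b) :
    ∃ y ∈ Set.Icc (0 : ℝ) 1, ∀ a ≤ M, ∀ b ≤ M,
      Same (v a) (v b) ((Ts s)^[a] y) ((Ts s)^[b] y) := by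
  have ht0 : 0 < t := by linarith
  have hW' : ∀ d k, k + d = M → W t w k d (v M) = v k := by
    intro d
    induction d with
    | zero => intro k h; rw [← h]; rfl
    | succ d ih => intro k h; rw [W_succ, ih (k + 1) (by omega), ← (hv k (by omega)).1]
  have hW : ∀ k ≤ M, W t w k (M - k) (v M) = v k := fun k hk => hW' _ k (by omega)
  have hlt : ∀ k ≤ M, 1 ≤ k → v k < t / 2 := fun k hk h => by
    obtain ⟨j, rfl⟩ : ∃ j, k = j + 1 := ⟨k - 1, by omega⟩
    exact (hv j hk).2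
  have hin : v M ∈ Good t w v M := ⟨h0, fun k hk h => by rw [hW k hk]; exact hlt k hk h,
    fun l hl _ => by rw [hW l hl]; exact ⟨id, id⟩⟩
  have ends : ∀ a b p : ℝ, v M ∈ Set.Icc a b → p ∈ Set.Icc a b → p ∉ Good t w v M →
      ∃ e ∈ Set.Icc a b, e ∈ closure (Good t w v M) ∧ e ∉ Good t w v M := by
    intro a b p h1 h2 h3
    by_contra hc
    refine h3 (isPreconnected_Icc.subset_of_closure_inter_subset (good_open w v M)
      ⟨_, h1, hin⟩ (fun e he => ?_) h2)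
    by_contra h4
    exact hc ⟨e, he.2, he.1, h4⟩
  have hvM := hlt M le_rfl (by omega)
  obtain ⟨lo, lo1, lo2, lo3⟩ := ends 0 (v M) 0 ⟨h0.le, le_rfl⟩ ⟨le_rfl, h0.le⟩
    (fun h => lt_irrefl _ h.1)
  obtain ⟨hi, hi1, hi2, hi3⟩ := ends (v M) (t / 2) (t / 2) ⟨le_rfl, hvM.le⟩ ⟨hvM.le, le_rfl⟩
    (fun h => by simpa using h.2.1 M le_rfl (by omega))
  have lo4 : lo ≠ v M := fun h => lo3 (h ▸ hin)
  have hi4 : hi ≠ v M := fun h => hi3 (h ▸ hin)
  by_cases hB : ∃ e ∈ closure (Good t w v M), ∃ k ≤ M, 1 ≤ k ∧ W t w k (M - k) e = t / 2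
  · obtain ⟨e, he, k, hk, hk1, h⟩ := hB
    exact endB hs ht0 hx hev hM w v hv hne he hk1 hk h
  have top : ∀ e ∈ closure (Good t w v M), ∀ k ≤ M, 1 ≤ k → W t w k (M - k) e < t / 2 :=
    fun e he k hk h => lt_of_le_of_ne ((good_closure he).1 k hk h) fun q => hB ⟨e, he, k, hk, h, q⟩
  have fix : ∀ e ∈ closure (Good t w v M), e ∉ Good t w v M → 0 < e →
      ∃ l < M, W t w l (M - l) e = e := by
    intro e he h1 h2
    by_contra hc
    refine h1 ⟨h2, top e he, fun l _ hl => ⟨fun a => ?_, fun a => ?_⟩⟩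
    · exact lt_of_le_of_ne (((good_closure he).2 l hl).1 a) fun q => hc ⟨l, hl, q⟩
    · exact lt_of_le_of_ne (((good_closure he).2 l hl).2 a) fun q => hc ⟨l, hl, q.symm⟩
  obtain ⟨l, hl, hf⟩ := fix hi hi2 hi3 (h0.trans_le hi1.1)
  rcases Nat.eq_zero_or_pos l with rfl | hl1
  · rcases lo1.1.eq_or_lt with q | q
    · subst q
      refine endP hs hs2 ht ht2 hev hM w v hv hW h0 lo2 le_rfl lo4 (top _ lo2) (i := M - 1)
        (by omega) (by omega) ?_
      have a := top _ lo2 (M - 1) (by omega) (by omega)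
      rw [show M - (M - 1) = 0 + 1 by omega, W_succ, W_zero] at a ⊢
      revert a
      cases w (M - 1)
      · intro _
        simp
      · intro a
        rw [br_true, zero_div] at a
        linarith
    · obtain ⟨l', hl', hf'⟩ := fix lo lo2 lo3 q
      rcases Nat.eq_zero_or_pos l' with rfl | hl2
      · have := lt_W_of_lt_fixed ht w (by omega) hf
          ((lt_of_le_of_ne lo1.2 lo4).trans_le hi1.1)
        exact absurd hf' this.ne'
      · exact endP hs hs2 ht ht2 hev hM w v hv hW h0 lo2 q.le lo4 (top _ lo2) hl2 hl' hf'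
  · exact endP hs hs2 ht ht2 hev hM w v hv hW h0 hi2 (h0.le.trans hi1.1) hi4 (top _ hi2) hl1 hl hf

end Pool.Agent.P.MP_25bc1d_an.Pr
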