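import Pool.Agent.P.MP_25bc1d_an.PrA

/-! Pairs of tent maps: the pattern near the turning point. -/

namespace Pool.Agent.P.MP_25bc1d_an.Pr

open Filter Topology

lemma pat_of {f : ℝ → ℝ} {x : ℝ} {π : List ℕ} (hp : π.Perm (List.range' 1 π.length))
    (h : ∀ i j : Fin π.length, π.get i < π.get j → f^[i] x < f^[j] x) : IsPattern f x π := by
  have hnd : π.Nodup := hp.nodup_iff.2 (List.nodup_range' ..)
  have hinj : Function.Injective π.get := List.nodup_iff_injective_get.1 hnd
  refine ⟨hp, fun i j hij => ?_, fun i j => ⟨h i j, fun hlt => ?_⟩⟩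
  · rcases lt_or_gt_of_ne (hinj.ne hij) with h' | h'
    · exact (h i j h').ne
    · exact (h j i h').ne'
  · rcases lt_trichotomy (π.get i) (π.get j) with h' | h' | h'
    · exact h'
    · rw [hinj h'] at hlt
      exact absurd hlt (lt_irrefl _)
    · exact absurd (h j i h') (not_lt.2 hlt.le)

lemma iter_sym (t h : ℝ) (r : ℕ) : (Ts t)^[r + 1] (1 / 2 + h) = (Ts t)^[r + 1] (1 / 2 - h) := by
  have e : Ts t (1 / 2 + h) = Ts t (1 / 2 - h) := by
    have e1 : 1 - (1 / 2 + h) = 1 / 2 - h := by ring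
    have e2 : 1 - (1 / 2 - h) = 1 / 2 + h := by ring
    unfold Ts
    rw [e1, e2, min_comm]
  rw [Function.iterate_succ_apply, Function.iterate_succ_apply, e]

lemma tend_abs : Tendsto (fun x : ℝ => |x - 1 / 2|) (𝓝[≠] (1 / 2)) (𝓝[>] 0) := by
  refine tendsto_nhdsWithin_iff.2 ⟨?_, ?_⟩
  · have : Continuous fun x : ℝ => |x - 1 / 2| := by fun_prop
    simpa using (this.tendsto (1 / 2)).mono_left nhdsWithin_le_nhds
  · filter_upwards [self_mem_nhdsWithin] with x hx
    exact abs_pos.2 (sub_ne_zero.2 hx)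

lemma ev_order {t : ℝ} (ht : 1 < t) (ε : ℕ → ℝ) (hε : ∀ r, ε r = 1 ∨ ε r = -1)
    (hev : ∀ r, ∀ᶠ h in 𝓝[>] (0 : ℝ),
      (Ts t)^[r] (1 / 2 - h) = (Ts t)^[r] (1 / 2) + ε r * t ^ r * h)
    {d : ℝ} (hd : d = 1 ∨ d = -1) {i j : ℕ}
    (hij : (Ts t)^[i] (1 / 2) < (Ts t)^[j] (1 / 2) ∨
      (Ts t)^[i] (1 / 2) = (Ts t)^[j] (1 / 2) ∧ ε i * t ^ i < ε j * t ^ j) :
    ∀ᶠ h in 𝓝[>] (0 : ℝ), (Ts t)^[i] (1 / 2 + d * h) < (Ts t)^[j] (1 / 2 + d * h) := by
  have hval : ∀ r, ∀ᶠ h in 𝓝[>] (0 : ℝ), (Ts t)^[r] (1 / 2 + d * h) =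
      (Ts t)^[r] (1 / 2) + (if r = 0 then d else ε r * t ^ r) * h := by
    intro r
    rcases r with _ | r
    · exact Eventually.of_forall fun h => by simp
    · filter_upwards [hev (r + 1)] with h h1
      rw [if_neg (Nat.succ_ne_zero r), ← h1]
      rcases hd with rfl | rfl
      · rw [one_mul, iter_sym]
      · rw [neg_one_mul, ← sub_eq_add_neg]
  rcases hij with h | ⟨h, h'⟩
  · filter_upwards [hval i, hval j, ev_lt (if i = 0 then d else ε i * t ^ i)
      (if j = 0 then d else ε j * t ^ j) h] with x h1 h2 h3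
    rw [h1, h2]
    exact h3
  · have hδ : (if i = 0 then d else ε i * t ^ i) < (if j = 0 then d else ε j * t ^ j) := by
      by_cases hi : i = 0
      · by_cases hj : j = 0
        · rw [hi, hj] at h'
          exact absurd h' (lt_irrefl _)
        · have hp : 1 < t ^ j := one_lt_pow₀ ht hj
          rw [if_pos hi, if_neg hj]
          rw [hi, pow_zero] at h'
          rcases hε 0 with a | a <;> rcases hε j with b | b <;> rcases hd with c | c <;>
            rw [a, b] at h' <;> rw [b, c] <;> linarith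
      · by_cases hj : j = 0
        · have hp : 1 < t ^ i := one_lt_pow₀ ht hi
          rw [if_neg hi, if_pos hj]
          rw [hj, pow_zero] at h'
          rcases hε 0 with a | a <;> rcases hε i with b | b <;> rcases hd with c | c <;>
            rw [a, b] at h' <;> rw [b, c] <;> linarith
        · rw [if_neg hi, if_neg hj]
          exact h'
    filter_upwards [hval i, hval j, self_mem_nhdsWithin] with x h1 h2 h3
    have h4 : 0 < x := h3
    rw [h1, h2, h]
    have := mul_lt_mul_of_pos_right hδ h4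
    linarith

lemma exists_pi {ν : ℝ} (h1 : 1 / 2 < ν) (n : ℕ) :
    ∃ π : List ℕ, π.length = n ∧ ∀ᶠ x in 𝓝[≠] (1 / 2 : ℝ), IsPattern (tent ν) x π := by
  have ht : 1 < 2 * ν := by linarith
  rw [tent_eq]
  generalize 2 * ν = t at ht
  have ht0 : 0 < t := by linarith
  choose ε hε hev using loc ht0 (1 / 2)
  let key : Fin n → ℝ ×ₗ ℝ := fun i => toLex ((Ts t)^[i] (1 / 2), ε i * t ^ (i : ℕ))
  have hinj : Function.Injective key := by
    intro i j hij
    have h2 : ε i * t ^ (i : ℕ) = ε j * t ^ (j : ℕ) := congrArg (fun p => (ofLex p).2) hij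
    have p1 : 0 < t ^ (i : ℕ) := pow_pos ht0 _
    have p2 : 0 < t ^ (j : ℕ) := pow_pos ht0 _
    have h3 : t ^ (i : ℕ) = t ^ (j : ℕ) := by
      rcases hε i with a | a <;> rcases hε j with b | b <;> rw [a, b] at h2 <;> linarith
    exact Fin.ext ((pow_right_strictMono₀ ht).injective h3)
  have m : StrictMono (key ∘ Tuple.sort key) :=
    (Tuple.monotone_sort key).strictMono_of_injective (hinj.comp (Tuple.sort key).injective)
  have hE : ∀ᶠ h in 𝓝[>] (0 : ℝ), ∀ i j : Fin n, key i < key j →
      (Ts t)^[i] (1 / 2 + 1 * h) < (Ts t)^[j] (1 / 2 + 1 * h) ∧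
      (Ts t)^[i] (1 / 2 + -1 * h) < (Ts t)^[j] (1 / 2 + -1 * h) := by
    refine eventually_all.2 fun i => eventually_all.2 fun j => ?_
    by_cases hk : key i < key j
    · have hk' := Prod.Lex.toLex_lt_toLex.1 hk
      filter_upwards [ev_order ht ε hε hev (Or.inl rfl) hk', ev_order ht ε hε hev (Or.inr rfl) hk']
        with x a b _
      exact ⟨a, b⟩
    · exact Eventually.of_forall fun x a => absurd a hk
  refine ⟨List.ofFn fun i => (((Tuple.sort key).symm i : Fin n) : ℕ) + 1, List.length_ofFn, ?_⟩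
  have hp : (List.ofFn fun i => (((Tuple.sort key).symm i : Fin n) : ℕ) + 1).Perm
      (List.range' 1 (List.ofFn fun i => (((Tuple.sort key).symm i : Fin n) : ℕ) + 1).length) := by
    have e : List.range' 1 n = List.ofFn fun i : Fin n => (i : ℕ) + 1 := by
      apply List.ext_getElem
      · simp
      · intro i _ _
        simp [Nat.add_comm]
    rw [List.length_ofFn, e]
    exact Equiv.Perm.ofFn_comp_perm (Tuple.sort key).symm (fun i : Fin n => (i : ℕ) + 1)
  filter_upwards [tend_abs.eventually hE] with x hx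
  refine pat_of hp fun i j hij => ?_
  rw [List.get_ofFn, List.get_ofFn] at hij
  have h2 := m (Fin.lt_def.2 (Nat.lt_of_succ_lt_succ hij))
  simp only [Function.comp, Equiv.apply_symm_apply] at h2
  have h3 := hx _ _ h2
  rcases le_total x (1 / 2) with c | c
  · have e : 1 / 2 + -1 * |x - 1 / 2| = x := by
      rw [abs_of_nonpos (by linarith)]
      ring
    rw [e] at h3
    exact h3.2
  · have e : 1 / 2 + 1 * |x - 1 / 2| = x := by
      rw [abs_of_nonneg (by linarith)]
      ring
    rw [e] at h3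
    exact h3.1

lemma pat_unique {f : ℝ → ℝ} {x : ℝ} {π ρ : List ℕ} (h : IsPattern f x π) (h' : IsPattern f x ρ)
    (hl : π.length = ρ.length) : π = ρ := by
  have hnd : π.Nodup := h.1.nodup_iff.2 (List.nodup_range' ..)
  have hinj : Function.Injective π.get := List.nodup_iff_injective_get.1 hnd
  let g : Fin π.length → ℕ := π.get
  let g' : Fin π.length → ℕ := ρ.get ∘ Fin.cast hl
  have hiff : ∀ i j, g i < g j ↔ g' i < g' j := fun i j => by
    rw [h.2.2 i j]
    exact (h'.2.2 (Fin.cast hl i) (Fin.cast hl j)).symm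
  have m1 : StrictMono (g ∘ Tuple.sort g) :=
    (Tuple.monotone_sort g).strictMono_of_injective (hinj.comp (Tuple.sort g).injective)
  have m2 : StrictMono (g' ∘ Tuple.sort g) := fun i j hij => (hiff _ _).1 (m1 hij)
  have hr : Set.range (g ∘ Tuple.sort g) = Set.range (g' ∘ Tuple.sort g) := by
    rw [(Tuple.sort g).surjective.range_comp, (Tuple.sort g).surjective.range_comp,
      show Set.range g' = Set.range ρ.get from (finCongr hl).surjective.range_comp ρ.get,
      Set.range_list_get, Set.range_list_get]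
    ext v
    simp only [Set.mem_ofPred_eq]
    rw [h.1.mem_iff, h'.1.mem_iff, hl]
  have he : g ∘ Tuple.sort g = g' ∘ Tuple.sort g := (m1.range_inj m2).1 hr
  have hg : g = g' := by
    funext i
    have := congrFun he ((Tuple.sort g).symm i)
    simpa using this
  exact List.ext_get hl fun n k1 k2 => congrFun hg ⟨n, k1⟩

lemma sigma_near (k : ℕ) :
    ∀ᶠ h in 𝓝[>] (0 : ℝ), IsPattern (tent 1) (1 / 2 - h) (sigma (k + 2)) := by
  filter_upwards [self_mem_nhdsWithin,
    ev_lt ((2 : ℝ) ^ (k + 1)) 0 (show (0 : ℝ) < 1 / 4 by norm_num)] with ε h0 hk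
  have hε0 : 0 < ε := h0
  have hpow : ∀ r, r ≤ k + 1 → 2 ^ r * ε ≤ 1 / 4 := fun r hr => by
    have : (2 : ℝ) ^ r * ε ≤ 2 ^ (k + 1) * ε :=
      mul_le_mul_of_nonneg_right (pow_le_pow_right₀ (by norm_num) hr) hε0.le
    linarith
  have hε8 : ε ≤ 1 / 8 := by
    have := hpow 1 (by omega)
    linarith
  set a : ℕ → ℝ := fun i => (Ts 2)^[i] (1 / 2 - ε) with hadef
  have hsucc : ∀ i, a (i + 1) = 2 * min (a i) (1 - a i) := fun i => by
    simp only [hadef, Function.iterate_succ_apply']
    rfl
  have a0 : a 0 = 1 / 2 - ε := rfl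
  have a1 : a 1 = 1 - 2 * ε := by
    rw [hsucc 0, a0, min_eq_left (by linarith)]
    ring
  have ar : ∀ r, 2 ≤ r → r ≤ k + 1 → a r = 2 ^ r * ε := by
    intro r hr
    induction r, hr using Nat.le_induction with
    | base =>
      intro _
      rw [hsucc 1, a1, min_eq_right (by linarith)]
      ring
    | succ r hr ih =>
      intro hrk
      have := hpow r (by omega)
      rw [hsucc r, ih (by omega), min_eq_left (by linarith)]
      ring
  have key : ∀ i j, i < k + 2 → j < k + 2 → sval k i < sval k j → a i < a j := by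
    intro i j hi hj hij
    unfold sval at hij
    split_ifs at hij with c1 c2 c3 c4 c5 c6 c7 c8
    all_goals first
      | omega
      | skip
    · subst c1; subst c3; rw [a0, a1]; linarith
    · subst c7; rw [ar i (by omega) (by omega), a0]; have := hpow i (by omega); linarith
    · subst c8; rw [ar i (by omega) (by omega), a1]; have := hpow i (by omega); linarith
    · rw [ar i (by omega) (by omega), ar j (by omega) (by omega)]
      exact mul_lt_mul_of_pos_right (pow_lt_pow_right₀ (by norm_num) (by omega)) hε0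
  have hlen := sigma_length k
  refine pat_of (sigma_perm k) fun i j hij => ?_
  rw [sigma_get, sigma_get] at hij
  rw [tent_one]
  exact key i j (by omega) (by omega) hij

end Pool.Agent.P.MP_25bc1d_an.Pr
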