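import Pool.Agent.P.MP_25bc1d_an.PrD
import Pool.Agent.P.MP_25bc1d_an.PrE

/-! Pairs of tent maps: the transfer of patterns and the main theorem. -/

namespace Pool.Agent.P.MP_25bc1d_an.Pr

open Filter Topology

variable {s t : ℝ}

lemma generic (ht : 0 < t) (M : ℕ) {y : ℝ} (h0 : 0 < y) (h1 : y ≤ 1) :
    ∃ v ∈ Set.Icc (0 : ℝ) 1, (∀ a ≤ M, ∀ b ≤ M,
      (Ts t)^[a] y < (Ts t)^[b] y → (Ts t)^[a] v < (Ts t)^[b] v) ∧
      (∀ a ≤ M, (Ts t)^[a] v ≠ 1 / 2) ∧ (Ts t)^[M] v ≠ 0 := by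
  choose ε hε hl using loc ht y
  have hc : ∀ r, ε r * t ^ r ≠ 0 := fun r =>
    mul_ne_zero (by rcases hε r with h | h <;> rw [h] <;> norm_num) (pow_pos ht r).ne'
  have e1 : ∀ᶠ h in 𝓝[>] (0 : ℝ), ∀ a ≤ M, ∀ b ≤ M, (Ts t)^[a] y < (Ts t)^[b] y →
      (Ts t)^[a] (y - h) < (Ts t)^[b] (y - h) :=
    ev_all M fun a _ => ev_all M fun b _ => ev_imp fun q => by
      filter_upwards [hl a, hl b, ev_lt (ε a * t ^ a) (ε b * t ^ b) q] with h a1 a2 a3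
      rw [a1, a2]
      exact a3
  have e2 : ∀ p, ∀ᶠ h in 𝓝[>] (0 : ℝ), ∀ a ≤ M, (Ts t)^[a] (y - h) ≠ p := fun p =>
    ev_all M fun a _ => by
      filter_upwards [hl a, ev_ne ((Ts t)^[a] y) p (hc a)] with h a1 a2
      rw [a1]
      exact a2
  obtain ⟨h, a1, a2, a3, a4, a5⟩ := (e1.and ((e2 (1 / 2)).and ((e2 0).and
    ((ev_lt 1 0 h0).and self_mem_nhdsWithin)))).exists
  have a6 : 0 < h := a5
  exact ⟨y - h, ⟨by linarith, by linarith⟩, a1, a2, a3 M le_rfl⟩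

theorem transferP (hs : 1 < s) (hs2 : s ≤ 2) (ht : 1 < t) (ht2 : t ≤ 2) {n M : ℕ} {x : ℝ}
    (hx : x ∈ Set.Icc (0 : ℝ) 1)
    (hev : ∀ᶠ c in 𝓝[≠] (1 / 2 : ℝ), ∀ i < n, ∀ j < n,
      (Ts t)^[i] c < (Ts t)^[j] c ↔ (Ts s)^[i] x < (Ts s)^[j] x) (hM : M < n) {y : ℝ}
    (hy : y ∈ Set.Icc (0 : ℝ) 1)
    (hne : ∀ a ≤ M, ∀ b ≤ M, a ≠ b → (Ts t)^[a] y ≠ (Ts t)^[b] y) :
    ∃ y' ∈ Set.Icc (0 : ℝ) 1, ∀ a ≤ M, ∀ b ≤ M,
      (Ts t)^[a] y < (Ts t)^[b] y → (Ts s)^[a] y' < (Ts s)^[b] y' := by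
  have ht0 : 0 < t := by linarith
  rcases M with _ | _ | m
  · refine ⟨y, hy, fun a ha b hb h => ?_⟩
    rw [Nat.le_zero.1 ha, Nat.le_zero.1 hb] at h
    exact absurd h (lt_irrefl _)
  · have two : ∀ p ∈ Set.Icc (0 : ℝ) 1, Same y (Ts t y) p (Ts s p) →
        ∃ y' ∈ Set.Icc (0 : ℝ) 1, ∀ a ≤ 0 + 1, ∀ b ≤ 0 + 1,
          (Ts t)^[a] y < (Ts t)^[b] y → (Ts s)^[a] y' < (Ts s)^[b] y' := by
      intro p hp h
      refine ⟨p, hp, fun a ha b hb => ?_⟩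
      interval_cases a <;> interval_cases b
      · exact fun q => absurd q (lt_irrefl _)
      · exact h.1
      · exact h.2
      · exact fun q => absurd q (lt_irrefl _)
    rcases le_total y (Ts t y) with h | h
    · refine two (1 / 4) ⟨by norm_num, by norm_num⟩ ⟨fun _ => ?_, fun q => absurd q (not_lt.2 h)⟩
      rw [Ts_left (by norm_num)]
      linarith
    · refine two 1 ⟨by norm_num, le_rfl⟩ ⟨fun q => absurd q (not_lt.2 h), fun _ => ?_⟩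
      rw [Ts_right (by norm_num)]
      norm_num
  · have y0 : 0 < y := by
      refine lt_of_le_of_ne hy.1 fun e => hne 0 (by omega) 1 (by omega) (by omega) ?_
      rw [← e]
      simp [Ts]
    obtain ⟨v, hv, g1, g2, g3⟩ := generic ht0 (m + 1 + 1) y0 hy.2
    obtain ⟨y', hy', h⟩ := core hs hs2 ht ht2 hx (ev_ctx ht (by omega) hev) hM (by omega)
      (fun a => decide (1 / 2 < (Ts t)^[a] v)) (fun a => (Ts t)^[a] v) (fun a ha => by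
        simp only [Function.iterate_succ_apply']
        rcases lt_or_gt_of_ne (g2 a ha.le) with q | q
        · rw [decide_eq_false (not_lt.2 q.le), br_left ht0 q.le, Ts_left q.le]
          exact ⟨rfl, by nlinarith⟩
        · rw [decide_eq_true q, br_right ht0 q.le, Ts_right q.le]
          exact ⟨rfl, by nlinarith⟩)
      (lt_of_le_of_ne (Ts_iter_mem ht0.le ht2 hv _).1 g3.symm) (fun a ha b hb e => by
        rcases lt_or_gt_of_ne (hne a ha b hb e) with q | q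
        · exact (g1 a ha b hb q).ne
        · exact (g1 b hb a ha q).ne')
    exact ⟨y', hy', fun a ha b hb q => (h a ha b hb).1 (g1 a ha b hb q)⟩

theorem pair_transfer {μ ν : ℝ} (h1 : 1 / 2 < μ) (h2 : μ ≤ 1) (k1 : 1 / 2 < ν) (k2 : ν ≤ 1)
    {π : List ℕ} (hπ : ∀ᶠ x in 𝓝[≠] (1 / 2 : ℝ), IsPattern (tent ν) x π)
    (ha : π ∈ Allow (tent μ)) (ρ : List ℕ) (hρ : ρ ∈ Allow (tent ν))
    (hl : ρ.length ≤ π.length) : ρ ∈ Allow (tent μ) := by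
  obtain ⟨-, x, hx, -, -, hxo⟩ := ha
  obtain ⟨hl1, y, hy, hperm, hne, hord⟩ := hρ
  obtain ⟨z, hz, h⟩ := transferP (s := 2 * μ) (t := 2 * ν) (n := π.length) (M := ρ.length - 1)
    (by linarith) (by linarith) (by linarith) (by linarith) hx
    (hπ.mono fun c hc i hi j hj => (hc.2.2 ⟨i, hi⟩ ⟨j, hj⟩).symm.trans (hxo ⟨i, hi⟩ ⟨j, hj⟩))
    (by omega) hy (fun a ha b hb e => hne ⟨a, by omega⟩ ⟨b, by omega⟩ fun q =>
      e (congrArg Fin.val q))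
  have h' : ∀ i j : Fin ρ.length, (tent ν)^[i] y < (tent ν)^[j] y →
      (tent μ)^[i] z < (tent μ)^[j] z := fun i j => h i (by omega) j (by omega)
  refine ⟨hl1, z, hz, hperm, fun i j hij => ?_, fun i j => ?_⟩
  · rcases lt_or_gt_of_ne (hne i j hij) with q | q
    · exact (h' i j q).ne
    · exact (h' j i q).ne'
  · rw [hord]
    refine ⟨h' i j, fun q => ?_⟩
    by_cases hij : i = j
    · subst hij
      exact absurd q (lt_irrefl _)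
    · rcases lt_or_gt_of_ne (hne i j hij) with r | r
      · exact r
      · exact absurd (h' j i r) (not_lt.2 q.le)

lemma near_allow {ν : ℝ} {π : List ℕ} (hl : 1 ≤ π.length)
    (hπ : ∀ᶠ x in 𝓝[≠] (1 / 2 : ℝ), IsPattern (tent ν) x π) : π ∈ Allow (tent ν) := by
  have h : ∀ᶠ x in 𝓝[≠] (1 / 2 : ℝ), x ∈ Set.Icc (0 : ℝ) 1 :=
    nhdsWithin_le_nhds (Icc_mem_nhds (by norm_num) (by norm_num))
  obtain ⟨x, h1, h2⟩ := (h.and hπ).exists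
  exact ⟨hl, x, h1, h2⟩

lemma near_iff {p : ℝ → Prop} : (∀ᶠ x in 𝓝[≠] (1 / 2 : ℝ), p x) ↔
    ∃ δ > 0, ∀ x : ℝ, x ≠ 1 / 2 → |x - 1 / 2| < δ → p x := by
  rw [eventually_nhdsWithin_iff, Metric.eventually_nhds_iff]
  exact ⟨fun ⟨δ, h, k⟩ => ⟨δ, h, fun x a b => k b a⟩, fun ⟨δ, h, k⟩ => ⟨δ, h, fun x a b => k x b a⟩⟩

theorem main_pair (μ ν : ℝ) (h1 : 1 / 2 < μ) (h2 : μ ≤ 1) (k1 : 1 / 2 < ν) (k2 : ν ≤ 1) (n : ℕ)
    (hn : 1 ≤ n) : ∃ π : List ℕ, π.length = n ∧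
      (∃ δ > 0, ∀ x : ℝ, x ≠ 1 / 2 → |x - 1 / 2| < δ → IsPattern (tent ν) x π) ∧
      (π ∈ Allow (tent μ) ↔ ∀ ρ ∈ Allow (tent ν), ρ.length ≤ n → ρ ∈ Allow (tent μ)) := by
  obtain ⟨π, hl, hπ⟩ := exists_pi k1 n
  exact ⟨π, hl, near_iff.1 hπ, fun ha ρ hρ h => pair_transfer h1 h2 k1 k2 hπ ha ρ hρ (hl ▸ h),
    fun h => h π (near_allow (hl ▸ hn) hπ) hl.le⟩

end Pool.Agent.P.MP_25bc1d_an.Pr
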