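import Pool.Agent.P.MP_25bc1d_an.Main

namespace Pool.Agent.P.MP_25bc1d_an

open Set

/-- hypotheses on a unimodal map of `[0,1]` -/
structure Uni (f : ℝ → ℝ) (c : ℝ) : Prop where
  c0 : 0 < c
  c1 : c < 1
  cont : ContinuousOn f (Icc 0 1)
  mono : StrictMonoOn f (Icc 0 c)
  anti : StrictAntiOn f (Icc c 1)
  f0 : f 0 = 0
  f1 : f 1 = 0
  top : f c ≤ 1

namespace Uni
variable {f : ℝ → ℝ} {c : ℝ}

lemma cL (h : Uni f c) : c ∈ Icc (0 : ℝ) c := ⟨h.c0.le, le_rfl⟩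
lemma cR (h : Uni f c) : c ∈ Icc c 1 := ⟨le_rfl, h.c1.le⟩

lemma le_top (h : Uni f c) {x : ℝ} (hx : x ∈ Icc (0 : ℝ) 1) : f x ≤ f c := by
  rcases le_total x c with h1 | h1
  · exact h.mono.monotoneOn ⟨hx.1, h1⟩ h.cL h1
  · exact h.anti.antitoneOn h.cR ⟨h1, hx.2⟩ h1

lemma nonneg (h : Uni f c) {x : ℝ} (hx : x ∈ Icc (0 : ℝ) 1) : 0 ≤ f x := by
  rcases le_total x c with h1 | h1
  · have := h.mono.monotoneOn ⟨le_rfl, h.c0.le⟩ ⟨hx.1, h1⟩ hx.1
    rwa [h.f0] at this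
  · have := h.anti.antitoneOn ⟨h1, hx.2⟩ ⟨h.c1.le, le_rfl⟩ hx.2
    rwa [h.f1] at this

lemma maps (h : Uni f c) {x : ℝ} (hx : x ∈ Icc (0 : ℝ) 1) : f x ∈ Icc (0 : ℝ) 1 :=
  ⟨h.nonneg hx, (h.le_top hx).trans h.top⟩

lemma iter_mem (h : Uni f c) {x : ℝ} (hx : x ∈ Icc (0 : ℝ) 1) : ∀ k, f^[k] x ∈ Icc (0 : ℝ) 1
  | 0 => hx
  | k + 1 => by rw [Function.iterate_succ_apply']; exact h.maps (iter_mem h hx k)

end Uni

/-- a continuous clamped inverse of a strictly increasing continuous function on `[p,q]` -/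
lemma exists_inv (g : ℝ → ℝ) (p q : ℝ) (hpq : p ≤ q) (hc : ContinuousOn g (Icc p q))
    (hm : StrictMonoOn g (Icc p q)) :
    ∃ ψ : ℝ → ℝ, Continuous ψ ∧ (∀ y, ψ y ∈ Icc p q) ∧
      ∀ y, g p ≤ y → g (ψ y) = min y (g q) := by
  have hp : p ∈ Icc p q := ⟨le_rfl, hpq⟩
  have hq : q ∈ Icc p q := ⟨hpq, le_rfl⟩
  have hg : g p ≤ g q := hm.monotoneOn hp hq hpq
  let G : Icc p q → Icc (g p) (g q) := fun x =>
    ⟨g x, hm.monotoneOn hp x.2 x.2.1, hm.monotoneOn x.2 hq x.2.2⟩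
  have hGm : StrictMono G := fun x y hxy => hm x.2 y.2 hxy
  have hGs : Function.Surjective G := by
    rintro ⟨y, hy⟩
    obtain ⟨x, hx, rfl⟩ := intermediate_value_Icc hpq hc hy
    exact ⟨⟨x, hx⟩, rfl⟩
  let e := hGm.orderIsoOfSurjective G hGs
  refine ⟨fun y => (e.symm (projIcc (g p) (g q) hg y) : ℝ), ?_, fun y => (e.symm _).2, fun y hy => ?_⟩
  · exact continuous_subtype_val.comp (e.symm.continuous.comp continuous_projIcc)
  · have h1 : G (e.symm (projIcc (g p) (g q) hg y)) = projIcc (g p) (g q) hg y :=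
      e.apply_symm_apply _
    have h2 := congrArg Subtype.val h1
    simp only [G] at h2
    rw [h2, coe_projIcc, min_comm, max_eq_right (le_min hy hg)]

/-- clamped inverse branches -/
structure Br (f : ℝ → ℝ) (c : ℝ) (φ : Bool → ℝ → ℝ) : Prop where
  cont : ∀ e, Continuous (φ e)
  memL : ∀ y, φ false y ∈ Icc (0 : ℝ) c
  memR : ∀ y, φ true y ∈ Icc c 1
  inv : ∀ e y, 0 ≤ y → f (φ e y) = min y (f c)

lemma Uni.exists_br {f : ℝ → ℝ} {c : ℝ} (h : Uni f c) : ∃ φ, Br f c φ := by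
  obtain ⟨ψ, h1, h2, h3⟩ := exists_inv f 0 c h.c0.le
    (h.cont.mono (Icc_subset_Icc le_rfl h.c1.le)) h.mono
  obtain ⟨χ, k1, k2, k3⟩ := exists_inv (fun t => f (-t)) (-1) (-c) (by linarith [h.c1])
    (h.cont.comp continuous_neg.continuousOn (fun t ht => ⟨by linarith [ht.2, h.c0], by linarith [ht.1]⟩))
    (fun a ha b hb hab => h.anti ⟨by linarith [hb.2], by linarith [hb.1]⟩
      ⟨by linarith [ha.2], by linarith [ha.1]⟩ (by linarith))
  refine ⟨fun e => if e then fun y => -χ y else ψ, fun e => ?_, fun y => ?_, fun y => ?_,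
    fun e y hy => ?_⟩
  · cases e
    · simpa using h1
    · exact k1.neg
  · simpa using h2 y
  · have := k2 y
    simp only [if_true]
    exact ⟨by linarith [this.2], by linarith [this.1]⟩
  · cases e
    · simpa using h3 y (by rw [h.f0]; exact hy)
    · have := k3 y (by simp only [neg_neg]; rw [h.f1]; exact hy)
      simpa using this

section
variable {f : ℝ → ℝ} {c : ℝ} {φ : Bool → ℝ → ℝ}

lemma Br.mem (h : Uni f c) (hφ : Br f c φ) (e : Bool) (y : ℝ) : φ e y ∈ Icc (0 : ℝ) 1 := by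
  cases e
  · exact ⟨(hφ.memL y).1, (hφ.memL y).2.trans h.c1.le⟩
  · exact ⟨h.c0.le.trans (hφ.memR y).1, (hφ.memR y).2⟩

lemma Br.inv' (hφ : Br f c φ) (e : Bool) {y : ℝ} (h0 : 0 ≤ y) (h1 : y ≤ f c) :
    f (φ e y) = y := by rw [hφ.inv e y h0, min_eq_left h1]

lemma Br.eq_c (h : Uni f c) (hφ : Br f c φ) (e : Bool) {y : ℝ} (h1 : f c ≤ y) : φ e y = c := by
  have h0 : 0 ≤ y := (h.nonneg ⟨h.c0.le, h.c1.le⟩).trans h1
  have := hφ.inv e y h0
  rw [min_eq_right h1] at this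
  cases e
  · exact h.mono.injOn (hφ.memL y) h.cL this
  · exact h.anti.injOn (hφ.memR y) h.cR this

lemma Br.ltL (h : Uni f c) (hφ : Br f c φ) {y y' : ℝ} (h0 : 0 ≤ y) (hlt : y < y')
    (h1 : y' ≤ f c) : φ false y < φ false y' := by
  rw [← h.mono.lt_iff_lt (hφ.memL y) (hφ.memL y'), hφ.inv' _ h0 (by linarith),
    hφ.inv' _ (by linarith) h1]
  exact hlt

lemma Br.ltR (h : Uni f c) (hφ : Br f c φ) {y y' : ℝ} (h0 : 0 ≤ y) (hlt : y < y')
    (h1 : y' ≤ f c) : φ true y' < φ true y := by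
  rw [← h.anti.lt_iff_gt (hφ.memR y) (hφ.memR y'), hφ.inv' _ h0 (by linarith),
    hφ.inv' _ (by linarith) h1]
  exact hlt

lemma Br.ltLR (hφ : Br f c φ) {y : ℝ} (y' : ℝ) (h0 : 0 ≤ y) (h1 : y < f c) :
    φ false y < φ true y' := by
  have : φ false y ≠ c := fun hh => by
    have := hφ.inv' false h0 h1.le
    rw [hh] at this; linarith
  exact lt_of_lt_of_le (lt_of_le_of_ne (hφ.memL y).2 this) (hφ.memR y').1

/-- composition of `d` branches starting at index `i` -/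
noncomputable def V (φ : Bool → ℝ → ℝ) (u : ℕ → Bool) : ℕ → ℕ → ℝ → ℝ
  | _, 0, y => y
  | i, d + 1, y => φ (u i) (V φ u (i + 1) d y)

@[simp] lemma V_zero (u : ℕ → Bool) (i : ℕ) (y : ℝ) : V φ u i 0 y = y := rfl
lemma V_succ (u : ℕ → Bool) (i d : ℕ) (y : ℝ) :
    V φ u i (d + 1) y = φ (u i) (V φ u (i + 1) d y) := rfl

lemma V_mem (h : Uni f c) (hφ : Br f c φ) (u : ℕ → Bool) {y : ℝ} (hy : y ∈ Icc (0 : ℝ) 1) :
    ∀ d i, V φ u i d y ∈ Icc (0 : ℝ) 1
  | 0, _ => hy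
  | _ + 1, _ => hφ.mem h _ _

lemma V_cont (hφ : Br f c φ) (u : ℕ → Bool) : ∀ d i, Continuous (V φ u i d)
  | 0, _ => continuous_id
  | d + 1, i => (hφ.cont (u i)).comp (V_cont hφ u d (i + 1))

/-- least and greatest fixed points of a continuous self-map of the unit interval -/
lemma exists_least_fixed (g : ℝ → ℝ) (hg : Continuous g)
    (hm : ∀ y ∈ Icc (0 : ℝ) 1, g y ∈ Icc (0 : ℝ) 1) :
    ∃ p ∈ Icc (0 : ℝ) 1, g p = p ∧ ∀ y, 0 ≤ y → y < p → y < g y := by
  have ivt : ∀ y ∈ Icc (0 : ℝ) 1, g y ≤ y → ∃ p ∈ Icc (0 : ℝ) y, g p = p := fun y hy hle => by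
    have hc : ContinuousOn (fun t => g t - t) (Icc (0 : ℝ) y) := (hg.sub continuous_id).continuousOn
    obtain ⟨p, hp, hp'⟩ := intermediate_value_Icc' hy.1 hc
      (show (0 : ℝ) ∈ Icc (g y - y) (g 0 - 0) from
        ⟨by linarith, by linarith [(hm 0 ⟨le_rfl, zero_le_one⟩).1]⟩)
    exact ⟨p, hp, by simpa [sub_eq_zero] using hp'⟩
  have hK : IsCompact (Icc (0 : ℝ) 1 ∩ {t | g t = t}) :=
    isCompact_Icc.inter_right (isClosed_eq hg continuous_id)
  obtain ⟨p0, hp0, hp0'⟩ := ivt 1 ⟨zero_le_one, le_rfl⟩ (hm 1 ⟨zero_le_one, le_rfl⟩).2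
  obtain ⟨p, ⟨hp, hp'⟩, hmin⟩ := hK.exists_isLeast ⟨p0, hp0, hp0'⟩
  refine ⟨p, hp, hp', fun y h0 hy => ?_⟩
  by_contra hc
  obtain ⟨r, hr, hr'⟩ := ivt y ⟨h0, by linarith [hp.2]⟩ (not_lt.1 hc)
  have := hmin ⟨⟨hr.1, by linarith [hr.2, hp.2]⟩, hr'⟩
  linarith [hr.2]

lemma exists_greatest_fixed (g : ℝ → ℝ) (hg : Continuous g)
    (hm : ∀ y ∈ Icc (0 : ℝ) 1, g y ∈ Icc (0 : ℝ) 1) :
    ∃ p ∈ Icc (0 : ℝ) 1, g p = p ∧ ∀ y, y ≤ 1 → p < y → g y < y := by
  obtain ⟨p, hp, hp', hlt⟩ := exists_least_fixed (fun t => 1 - g (1 - t))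
    (continuous_const.sub (hg.comp (continuous_const.sub continuous_id)))
    (fun y hy => by
      have := hm (1 - y) ⟨by linarith [hy.2], by linarith [hy.1]⟩
      exact ⟨by linarith [this.2], by linarith [this.1]⟩)
  refine ⟨1 - p, ⟨by linarith [hp.2], by linarith [hp.1]⟩, by linarith, fun y h1 hy => ?_⟩
  have := hlt (1 - y) (by linarith) (by linarith)
  simp only [sub_sub_cancel] at this
  linarith

/-- Order lemma for a unimodal map. -/
lemma order_uni {σ : Type*} (h : Uni f c) (hφ : Br f c φ) (nx : σ → σ) (l : σ → Bool)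
    (y Y : σ → ℝ) (hy : ∀ a, y a = φ (l a) (y (nx a))) (hY : ∀ a, Y a = br 2 (l a) (Y (nx a)))
    (hy' : ∀ a, y a < f c) (hY' : ∀ a, Y a ∈ Icc (0 : ℝ) 1) :
    ∀ a b, Y a < Y b → y a < y b := by
  have hy0 : ∀ a, 0 ≤ y a := fun a => by rw [hy a]; exact (hφ.mem h _ _).1
  have key : ∀ N : ℕ, ∀ a b, 1 < (Y b - Y a) * 2 ^ N → y a < y b := by
    intro N
    induction N with
    | zero =>
      intro a b h
      have := hY' a; have := hY' b
      simp only [mem_Icc] at *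
      norm_num at h; linarith
    | succ N ih =>
      intro a b hh
      have hpos : 0 < Y b - Y a := by
        by_contra hn
        have : (Y b - Y a) * 2 ^ (N + 1) ≤ 0 :=
          mul_nonpos_of_nonpos_of_nonneg (not_lt.1 hn) (by positivity)
        linarith
      have ea := hy a; have eb := hy b; have Ea := hY a; have Eb := hY b
      have La := hY' (nx a); have Lb := hY' (nx b)
      simp only [mem_Icc] at La Lb
      cases hla : l a <;> cases hlb : l b <;> rw [hla] at ea Ea <;> rw [hlb] at eb Eb <;>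
        simp only [br_true, br_false] at Ea Eb
      · have : y (nx a) < y (nx b) := by
          apply ih
          rw [Ea, Eb] at hh
          calc (1 : ℝ) < _ := hh
            _ = _ := by ring
        rw [ea, eb]; exact hφ.ltL h (hy0 _) this (hy' _).le
      · rw [ea, eb]; exact hφ.ltLR _ (hy0 _) (hy' _)
      · linarith
      · have : y (nx b) < y (nx a) := by
          apply ih
          rw [Ea, Eb] at hh
          calc (1 : ℝ) < _ := hh
            _ = _ := by ring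
        rw [ea, eb]; exact hφ.ltR h (hy0 _) this (hy' _).le
  intro a b hab
  obtain ⟨N, hN⟩ := pow_unbounded_of_one_lt (1 / (Y b - Y a)) (by norm_num : (1 : ℝ) < 2)
  apply key N
  rw [div_lt_iff₀ (by linarith)] at hN
  linarith

/-- the kneading condition: `f(c) > c` and `f^k(c) < c` for `2 ≤ k ≤ m` -/
def Kn (f : ℝ → ℝ) (c : ℝ) (m : ℕ) : Prop := c < f c ∧ ∀ k, 2 ≤ k → k ≤ m → f^[k] c < c

/-- a chain of branches that reaches the top value is followed by a run below `c` -/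
lemma run_low (h : Uni f c) (hφ : Br f c φ) {m : ℕ} (hK : Kn f c m) (w : ℕ → Bool) (z : ℕ → ℝ)
    (t D : ℕ) (hz : ∀ j, j < D → z (t + j) = φ (w (t + j)) (z (t + j + 1)))
    (hz0 : ∀ j, j ≤ D → z (t + j) ∈ Icc (0 : ℝ) 1) (ht : f c ≤ z t) (hD : D + 1 ≤ m) :
    ∀ j, 1 ≤ j → j ≤ D → z (t + j) ≤ f^[j + 1] c := by
  have hcm : c ∈ Icc (0 : ℝ) 1 := ⟨h.c0.le, h.c1.le⟩
  have step : ∀ j, j < D → f (z (t + j)) ≤ f^[j + 2] c → z (t + (j + 1)) ≤ f^[j + 2] c := by
    intro j hj hle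
    have h1 := hφ.inv (w (t + j)) (z (t + j + 1)) (hz0 (j + 1) hj).1
    rw [← hz j hj] at h1
    have h2 := hK.2 (j + 2) (by omega) (by omega)
    rcases le_total (z (t + j + 1)) (f c) with h3 | h3
    · rw [min_eq_left h3] at h1
      rw [show t + (j + 1) = t + j + 1 from rfl, ← h1]; exact hle
    · rw [min_eq_right h3] at h1
      linarith [hK.1]
  intro j hj
  induction j, hj using Nat.le_induction with
  | base =>
    intro hD1
    refine step 0 hD1 ?_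
    have := h.anti.antitoneOn ⟨hK.1.le, h.top⟩ ⟨hK.1.le.trans ht, (hz0 0 (by omega)).2⟩ ht
    simpa using this
  | succ j hj ih =>
    intro hD1
    refine step j hD1 ?_
    have h1 := ih (by omega)
    have h2 := hK.2 (j + 1) (by omega) (by omega)
    have := h.mono.monotoneOn ⟨(hz0 j (by omega)).1, by linarith⟩
      ⟨(h.iter_mem hcm (j + 1)).1, h2.le⟩ h1
    rwa [show j + 2 = (j + 1) + 1 from rfl, Function.iterate_succ_apply' f (j + 1)]

/-- admissibility of periodic chains of period at most `m` -/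
lemma periodic_uni (h : Uni f c) (hφ : Br f c φ) {m : ℕ} (hK : Kn f c m) (q : ℕ) (hq : 1 ≤ q)
    (hqm : q ≤ m) (w : ℕ → Bool) (y : ℕ → ℝ) (hyp : ∀ t, y (t + q) = y t)
    (hy : ∀ t, y t = φ (w t) (y (t + 1))) : ∀ t, y t < f c := by
  intro t
  by_contra hc
  push Not at hc
  have h1 : y (t + (q - 1)) = c := by
    rw [hy, show t + (q - 1) + 1 = t + q by omega, hyp]
    exact hφ.eq_c h _ hc
  rcases Nat.eq_or_lt_of_le hq with h2 | h2
  · subst h2
    simp only [Nat.sub_self, add_zero] at h1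
    linarith [hK.1]
  · have := run_low h hφ hK w y t (q - 1) (fun j _ => hy _)
      (fun j _ => by rw [hy]; exact hφ.mem h _ _) hc (by omega) (q - 1) (by omega) le_rfl
    have h3 := hK.2 (q - 1 + 1) (by omega) (by omega)
    linarith

end

end Pool.Agent.P.MP_25bc1d_an
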