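import Pool.Agent.P.MP_25bc1d_an.Uni1

namespace Pool.Agent.P.MP_25bc1d_an

open Set

variable {f : ℝ → ℝ} {c : ℝ} {φ : Bool → ℝ → ℝ}

lemma fixed_uni (h : Uni f c) (hφ : Br f c φ) {m : ℕ} (hK : Kn f c m)
    (u : ℕ → Bool) (i : ℕ) (hi : i < m) (p : ℝ) (hp : V φ u i (m - i) p = p) :
    ∀ k, i ≤ k → k ≤ m → V φ u k (m - k) p < f c := by
  set q := m - i with hq
  have hq1 : 1 ≤ q := by omega
  have key := periodic_uni h hφ hK q hq1 (by omega)
    (fun t => u (i + t % q)) (fun t => V φ u (i + t % q) (q - t % q) p)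
    (fun t => by simp) (fun t => by
      have hlt : t % q < q := Nat.mod_lt _ (by omega)
      obtain ⟨e, he⟩ : ∃ e, q - t % q = e + 1 := ⟨q - t % q - 1, by omega⟩
      rw [he, V_succ]
      congr 1
      rcases Nat.lt_or_ge (t % q + 1) q with h | h
      · have : (t + 1) % q = t % q + 1 := by
          rw [Nat.add_mod, Nat.mod_eq_of_lt (show 1 < q by omega), Nat.mod_eq_of_lt h]
        rw [this, show q - (t % q + 1) = e by omega, add_assoc]
      · have h1 : t % q + 1 = q := by omega
        have : (t + 1) % q = 0 := by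
          conv_lhs => rw [← Nat.mod_add_mod, h1]
          simp
        rw [this, show e = 0 by omega]
        simp only [add_zero, Nat.sub_zero, V_zero]
        exact hp.symm)
  intro k hik hkm
  rcases Nat.lt_or_ge k m with h | h
  · have := key (k - i)
    rw [Nat.mod_eq_of_lt (show k - i < q by omega), show i + (k - i) = k by omega,
      show q - (k - i) = m - k by omega] at this
    exact this
  · have := key 0
    simp only [Nat.zero_mod, add_zero, Nat.sub_zero] at this
    rw [hp] at this
    rw [show m - k = 0 by omega]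
    exact this

lemma fixed_order_uni (h : Uni f c) (hφ : Br f c φ) {m : ℕ} (hK : Kn f c m)
    (u : ℕ → Bool) (P Q : ℕ → ℝ) (hP : ∀ i, V φ u i (m - i) (P i) = P i)
    (hQ : ∀ i, W 2 u i (m - i) (Q i) = Q i) (hQ' : ∀ i, Q i ∈ Icc (0 : ℝ) 1)
    (i j : ℕ) (hi : i < m) (hj : j < m) (hij : Q i < Q j) : P i < P j := by
  let σ := {a : ℕ × ℕ // a.1 ≤ a.2 ∧ a.2 < m}
  let nx : σ → σ := fun a => ⟨nxt m a.1, by
    obtain ⟨⟨a1, a2⟩, h1, h2⟩ := a
    unfold nxt
    split_ifs with hh
    · exact ⟨by simp at h1 ⊢; omega, hh⟩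
    · exact ⟨le_rfl, by simp at h1 h2 ⊢; omega⟩⟩
  have stepW : ∀ a : σ, W 2 u a.1.2 (m - a.1.2) (Q a.1.1) =
      br 2 (u a.1.2) (W 2 u (nx a).1.2 (m - (nx a).1.2) (Q (nx a).1.1)) := by
    rintro ⟨⟨a1, a2⟩, h1, h2⟩
    simp only [] at h1 h2
    obtain ⟨e, he⟩ : ∃ e, m - a2 = e + 1 := ⟨m - a2 - 1, by omega⟩
    simp only [nx, nxt]
    rw [he, W_succ]
    congr 1
    split_ifs with hh
    · simp only []; rw [show m - (a2 + 1) = e by omega]
    · simp only []; rw [hQ, show e = 0 by omega]; rfl
  have stepV : ∀ a : σ, V φ u a.1.2 (m - a.1.2) (P a.1.1) =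
      φ (u a.1.2) (V φ u (nx a).1.2 (m - (nx a).1.2) (P (nx a).1.1)) := by
    rintro ⟨⟨a1, a2⟩, h1, h2⟩
    simp only [] at h1 h2
    obtain ⟨e, he⟩ : ∃ e, m - a2 = e + 1 := ⟨m - a2 - 1, by omega⟩
    simp only [nx, nxt]
    rw [he, V_succ]
    congr 1
    split_ifs with hh
    · simp only []; rw [show m - (a2 + 1) = e by omega]
    · simp only []; rw [hP, show e = 0 by omega]; rfl
  have := order_uni h hφ nx (fun a => u a.1.2)
    (fun a => V φ u a.1.2 (m - a.1.2) (P a.1.1)) (fun a => W 2 u a.1.2 (m - a.1.2) (Q a.1.1))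
    stepV stepW
    (fun a => fixed_uni h hφ hK u a.1.1 (lt_of_le_of_lt a.2.1 a.2.2) _ (hP _) _ a.2.1 a.2.2.le)
    (fun a => W_mem (by norm_num) u (hQ' _) _ _)
    ⟨(i, i), le_rfl, hi⟩ ⟨(j, j), le_rfl, hj⟩
  simp only [hP, hQ] at this
  exact this hij

/-- Transfer of patterns under the kneading condition. -/
theorem transfer_uni (h : Uni f c) (m : ℕ) (hK : Kn f c m) (x : ℝ) (hx : x ∈ Icc (0 : ℝ) 1) :
    ∃ y ∈ Icc (0 : ℝ) 1, ∀ i j, i ≤ m → j ≤ m →
      (Ts 2)^[i] x < (Ts 2)^[j] x → f^[i] y < f^[j] y := by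
  classical
  obtain ⟨φ, hφ⟩ := h.exists_br
  set a : ℕ → ℝ := fun k => (Ts 2)^[k] x with hadef
  have hamem : ∀ k, a k ∈ Icc (0 : ℝ) 1 := Ts_iter_mem (by norm_num) le_rfl hx
  set u : ℕ → Bool := fun k => decide (1 / 2 < a k) with hudef
  have ha : ∀ k, a k = br 2 (u k) (a (k + 1)) := fun k => by
    simp only [hadef, hudef, Function.iterate_succ_apply']; rw [br_Ts]
  have haW : ∀ i, i ≤ m → W 2 u i (m - i) (a m) = a i := fun i hi => by
    have := W_orbit 2 u a ha (m - i) i
    rwa [show i + (m - i) = m by omega] at this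
  have hPex : ∀ i, ∃ p ∈ Icc (0 : ℝ) 1, V φ u i (m - i) p = p ∧
      (a m < a i → ∀ y, 0 ≤ y → y < p → y < V φ u i (m - i) y) ∧
      (a i < a m → ∀ y, y ≤ 1 → p < y → V φ u i (m - i) y < y) := fun i => by
    by_cases hc : a m < a i
    · obtain ⟨p, h1, h2, h3⟩ := exists_least_fixed _ (V_cont hφ u (m - i) i)
        (fun y hy => V_mem h hφ u hy _ _)
      exact ⟨p, h1, h2, fun _ => h3, fun h' => absurd h' (not_lt.2 hc.le)⟩
    · obtain ⟨p, h1, h2, h3⟩ := exists_greatest_fixed _ (V_cont hφ u (m - i) i)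
        (fun y hy => V_mem h hφ u hy _ _)
      exact ⟨p, h1, h2, fun h' => absurd h' hc, fun _ => h3⟩
  choose P hPm hP hPhi hPlo using hPex
  choose Q hQm hQ using fun i => exists_fixed (s := 2) (by norm_num) u i (m - i)
  have hQlt : ∀ i, i < m → a i < a m → Q i < a m := fun i hi h =>
    fixed_lt_of_W_lt (by norm_num) u (by omega) (hQ i) (by rw [haW i hi.le]; exact h)
  have hQgt : ∀ i, i < m → a m < a i → a m < Q i := fun i hi h =>
    lt_fixed_of_lt_W (by norm_num) u (by omega) (hQ i) (by rw [haW i hi.le]; exact h)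
  let Up : Finset ℝ := insert (f c) (((Finset.range m).filter fun i => a m < a i).image P)
  have hUne : Up.Nonempty := ⟨_, Finset.mem_insert_self _ _⟩
  set U := Up.min' hUne with hU
  have hUmem : U ∈ Up := Finset.min'_mem _ _
  have hU1 : U ≤ f c := Finset.min'_le _ _ (Finset.mem_insert_self _ _)
  have hU2 : ∀ i, i < m → a m < a i → U ≤ P i := fun i hi h =>
    Finset.min'_le _ _ (Finset.mem_insert_of_mem (Finset.mem_image_of_mem _
      (Finset.mem_filter.2 ⟨Finset.mem_range.2 hi, h⟩)))
  have hrec : ∀ (y : ℝ) (k : ℕ), k < m →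
      V φ u k (m - k) y = φ (u k) (V φ u (k + 1) (m - (k + 1)) y) := fun y k hk => by
    rw [show m - k = (m - (k + 1)) + 1 by omega, V_succ]
  -- a chain reaching the top stays below `c` until the end
  have hrun : ∀ y ∈ Icc (0 : ℝ) 1, ∀ k, 1 ≤ k → k < m → f c ≤ V φ u k (m - k) y →
      ∀ l, k < l → l ≤ m → V φ u l (m - l) y < c := fun y hy k hk1 hk hge l hl1 hl2 => by
    have := run_low h hφ hK u (fun k => V φ u k (m - k) y) k (m - k)
      (fun j hj => hrec y (k + j) (by omega)) (fun j _ => V_mem h hφ u hy _ _) hge (by omega)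
      (l - k) (by omega) (by omega)
    rw [show k + (l - k) = l by omega] at this
    exact lt_of_le_of_lt this (hK.2 _ (by omega) (by omega))
  have hU3 : 0 < U ∧ (∀ i, i < m → a i < a m → P i < U) ∧
      ∀ k, 1 ≤ k → k < m → V φ u k (m - k) U < f c := by
    rcases Finset.mem_insert.1 hUmem with hh | hh
    · refine ⟨by rw [hh]; linarith [hK.1, h.c0], fun i hi _ => ?_, fun k hk1 hk => ?_⟩
      · have := fixed_uni h hφ hK u i hi _ (hP i) m hi.le le_rfl
        rw [hh]; simpa using this
      · by_contra hc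
        have := hrun U ⟨by rw [hh]; linarith [hK.1, h.c0], hU1.trans h.top⟩ k hk1 hk
          (not_lt.1 hc) m hk le_rfl
        simp only [Nat.sub_self, V_zero] at this
        linarith [hK.1]
    · obtain ⟨j, hj, hjU⟩ := Finset.mem_image.1 hh
      obtain ⟨hj1, hj2⟩ := Finset.mem_filter.1 hj
      have hj1' : j < m := Finset.mem_range.1 hj1
      have hQj := hQgt j hj1' hj2
      have hadm := fixed_uni h hφ hK u j hj1' _ (hP j)
      have hUm : U ∈ Icc (0 : ℝ) 1 := hjU ▸ hPm j
      have hfix : V φ u j (m - j) U = U := by rw [← hjU]; exact hP j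
      rw [hjU] at hadm
      have hex : ∃ k0, j ≤ k0 ∧ k0 < m ∧ u k0 = true := by
        by_contra hcon
        push Not at hcon
        have e := W_all_false (s := 2) u (Q j) (m - j) j
          (fun k h1 h2 => by simpa using hcon k h1 (by omega))
        rw [hQ j] at e
        have h2 : (1 : ℝ) < 2 ^ (m - j) := one_lt_pow₀ (by norm_num) (by omega)
        have h3 : 0 < Q j := lt_of_le_of_lt (hamem m).1 hQj
        have := div_lt_self h3 h2
        linarith
      obtain ⟨k0, hk1, hk2, hk3⟩ := hex
      have hz0 : c ≤ V φ u k0 (m - k0) U := by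
        rw [hrec U k0 hk2, hk3]; exact (hφ.memR _).1
      refine ⟨?_, fun i hi h' => ?_, fun k hk1' hk => ?_⟩
      · refine lt_of_le_of_ne hUm.1 fun h0 => ?_
        have hz : ∀ d, j + d ≤ m → V φ u (j + d) (m - (j + d)) U = 0 := by
          intro d
          induction d with
          | zero => intro _; rw [add_zero, hfix, ← h0]
          | succ d ih =>
            intro hd
            have e1 := ih (by omega)
            rw [hrec U (j + d) (by omega)] at e1
            have e2 := hφ.inv' (u (j + d)) (V_mem h hφ u hUm (m - (j + d + 1)) (j + d + 1)).1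
              (hadm (j + d + 1) (by omega) (by omega)).le
            rw [e1, h.f0] at e2
            exact e2.symm
        have := hz (k0 - j) (by omega)
        rw [show j + (k0 - j) = k0 by omega] at this
        linarith [h.c0]
      · rw [← hjU]
        exact fixed_order_uni h hφ hK u P Q hP hQ hQm i j hi hj1' ((hQlt i hi h').trans hQj)
      · rcases Nat.lt_or_ge k k0 with h' | h'
        · by_contra hc
          have := hrun U hUm k hk1' hk (not_lt.1 hc) k0 h' hk2.le
          linarith
        · exact hadm k (by omega) hk.le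
  obtain ⟨hU0, hUl, hUk⟩ := hU3
  have hev : ∀ᶠ y in nhdsWithin U (Iio U), y < U ∧ 0 < y ∧
      (∀ i ∈ Finset.range m, a i < a m → P i < y) ∧
      ∀ k ∈ Finset.range m, 1 ≤ k → V φ u k (m - k) y < f c := by
    refine Filter.Eventually.and self_mem_nhdsWithin (nhdsWithin_le_nhds ?_)
    refine Filter.Eventually.and (lt_mem_nhds hU0) (Filter.Eventually.and ?_ ?_)
    · rw [Filter.eventually_all_finset]
      intro i hi
      by_cases h : a i < a m
      · exact (lt_mem_nhds (hUl i (Finset.mem_range.1 hi) h) : ∀ᶠ y in nhds U, P i < y).mono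
          fun y hy _ => hy
      · exact Filter.Eventually.of_forall fun y h' => absurd h' h
    · rw [Filter.eventually_all_finset]
      intro k hk
      by_cases h : 1 ≤ k
      · have := (V_cont hφ u (m - k) k).continuousAt.eventually_lt (continuousAt_const (y := f c))
          (hUk k h (Finset.mem_range.1 hk))
        exact this.mono fun y hy _ => hy
      · exact Filter.Eventually.of_forall fun y h' => absurd h' h
  obtain ⟨y, hy1, hy0, hy2, hy3⟩ := hev.exists
  have hymem : y ∈ Icc (0 : ℝ) 1 := ⟨hy0.le, by linarith [h.top]⟩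
  set z : ℕ → ℝ := fun k => V φ u k (m - k) y with hzdef
  have hzm : z m = y := by simp [hzdef]
  have hzmem : ∀ k, z k ∈ Icc (0 : ℝ) 1 := fun k => V_mem h hφ u hymem _ _
  have hzlt : ∀ k, 1 ≤ k → k ≤ m → z k < f c := fun k h1 h2 => by
    rcases Nat.lt_or_ge k m with h | h
    · exact hy3 k (Finset.mem_range.2 h) h1
    · rw [show k = m by omega, hzm]; linarith
  have hzrec : ∀ k, k < m → z k = φ (u k) (z (k + 1)) := fun k hk => hrec y k hk
  have hiter : ∀ k, k ≤ m → f^[k] (z 0) = z k := by
    intro k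
    induction k with
    | zero => intro _; rfl
    | succ k ih =>
      intro hk
      rw [Function.iterate_succ_apply', ih (by omega), hzrec k (by omega),
        hφ.inv' _ (hzmem _).1 (hzlt _ (by omega) hk).le]
  refine ⟨z 0, hzmem 0, fun i j hi hj hij => ?_⟩
  rw [hiter i hi, hiter j hj]
  change a i < a j at hij
  have main : ∀ d i j, i ≤ m → j ≤ m → max i j + d = m → a i < a j → z i < z j := by
    intro d
    induction d with
    | zero =>
      intro i j hi hj hd hij
      rcases Nat.lt_or_ge j m with h | h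
      · have him : i = m := by omega
        subst him
        rw [hzm]
        exact hPhi j hij y hy0.le (lt_of_lt_of_le hy1 (hU2 j h hij))
      · have hjm : j = m := by omega
        subst hjm
        have him : i < j := by
          rcases Nat.lt_or_ge i j with h' | h'
          · exact h'
          · rw [show i = j by omega] at hij; exact absurd hij (lt_irrefl _)
        rw [hzm]
        exact hPlo i hij y hymem.2 (hy2 i (Finset.mem_range.2 him) hij)
    | succ d ih =>
      intro i j hi hj hd hij
      have hi' : i < m := by omega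
      have hj' : j < m := by omega
      have ea := hzrec i hi'; have eb := hzrec j hj'
      have Ea := ha i; have Eb := ha j
      have la := hzlt (i + 1) (by omega) hi'; have lb := hzlt (j + 1) (by omega) hj'
      have La := hamem (i + 1); have Lb := hamem (j + 1)
      simp only [mem_Icc] at La Lb
      cases hla : u i <;> cases hlb : u j <;> rw [hla] at ea Ea <;> rw [hlb] at eb Eb <;>
        simp only [br_true, br_false] at Ea Eb
      · have : z (i + 1) < z (j + 1) := ih _ _ hi' hj' (by omega) (by linarith)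
        rw [ea, eb]; exact hφ.ltL h (hzmem _).1 this lb.le
      · rw [ea, eb]; exact hφ.ltLR _ (hzmem _).1 la
      · linarith
      · have : z (j + 1) < z (i + 1) := ih _ _ hj' hi' (by omega) (by linarith)
        rw [ea, eb]; exact hφ.ltR h (hzmem _).1 this la.le
  exact main (m - max i j) i j hi hj (by omega) hij

end Pool.Agent.P.MP_25bc1d_an
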