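import Pool.Agent.P.MP_25bc1d_an.Uni2

namespace Pool.Agent.P.MP_25bc1d_an

open Set

lemma ord_disj {A B : Set ℝ} (hA : A.OrdConnected) (hB : B.OrdConnected) (hd : Disjoint A B)
    {p p' r r' : ℝ} (hp : p ∈ A) (hp' : p' ∈ A) (hr : r ∈ B) (hr' : r' ∈ B) (h : p < r) :
    p' < r' := by
  by_contra hc
  push Not at hc
  rcases le_total p r' with h1 | h1
  · exact disjoint_left.1 hd (hA.out hp hp' ⟨h1, hc⟩) hr'
  · exact disjoint_left.1 hd hp (hB.out hr' hr ⟨h1, h.le⟩)

/-- Two maps that differ only inside a cycle of `m` intervals have the same patterns of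
length `m + 1`. -/
lemma cycle_transfer (f g : ℝ → ℝ) (m : ℕ) (S : Set ℝ) (I : ℕ → Set ℝ)
    (hconv : ∀ k, (I k).OrdConnected) (hdis : ∀ i j, i < j → j < i + m → Disjoint (I i) (I j))
    (hf : ∀ k, MapsTo f (I k) (I (k + 1))) (hg : ∀ k, MapsTo g (I k) (I (k + 1)))
    (hfg : ∀ y ∈ S, y ∉ I 0 → g y = f y) (hS : MapsTo g S S) (hIS : ∀ k, I k ⊆ S)
    (hdn : ∀ k, ∃ w ∈ I k, f^[m] w < w) (hup : ∀ k, ∃ w ∈ I k, w < f^[m] w)
    (z : ℝ) (hz : z ∈ S) :
    ∃ w ∈ S, ∀ i j, i ≤ m → j ≤ m → g^[i] z < g^[j] z → f^[i] w < f^[j] w := by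
  classical
  have it : ∀ (F : ℝ → ℝ), (∀ k, MapsTo F (I k) (I (k + 1))) → ∀ k y, y ∈ I k → ∀ d,
      F^[d] y ∈ I (k + d) := fun F hF k y hy d => by
    induction d with
    | zero => exact hy
    | succ d ih => rw [Function.iterate_succ_apply']; exact hF _ ih
  have cmp : ∀ k y w, y ∈ I k → w ∈ I k → ∀ i j, i < j + m → j < i + m →
      g^[i] y < g^[j] y → f^[i] w < f^[j] w := fun k y w hy hw i j h1 h2 hlt => by
    have hd : Disjoint (I (k + i)) (I (k + j)) := by
      rcases lt_trichotomy i j with h | h | h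
      · exact hdis _ _ (by omega) (by omega)
      · subst h; exact absurd hlt (lt_irrefl _)
      · exact (hdis _ _ (by omega) (by omega)).symm
    exact ord_disj (hconv _) (hconv _) hd (it g hg k y hy i) (it f hf k w hw i)
      (it g hg k y hy j) (it f hf k w hw j) hlt
  have hzS : ∀ j, g^[j] z ∈ S := fun j => hS.iterate j hz
  have same : ∀ t, (∀ j, j < t → g^[j] z ∉ I 0) → ∀ j, j ≤ t → f^[j] z = g^[j] z := by
    intro t ht j
    induction j with
    | zero => intro _; rfl
    | succ j ih =>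
      intro hj
      rw [Function.iterate_succ_apply', Function.iterate_succ_apply', ih (by omega),
        hfg _ (hzS j) (ht j (by omega))]
  by_cases hex : ∃ t, ∃ k, g^[t] z ∈ I k
  swap
  · push Not at hex
    refine ⟨z, hz, fun i j hi hj hlt => ?_⟩
    rwa [same m (fun j _ => hex j 0) i hi, same m (fun j _ => hex j 0) j hj]
  obtain ⟨k, hk⟩ := Nat.find_spec hex
  have hmin : ∀ j, j < Nat.find hex → ∀ k, g^[j] z ∉ I k := fun j hj k hh =>
    Nat.find_min hex hj ⟨k, hh⟩
  set t := Nat.find hex with ht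
  rcases Nat.eq_zero_or_pos t with h0 | h0
  · rw [h0] at hk
    change z ∈ I k at hk
    have : ∃ w ∈ I k, (g^[m] z < z → f^[m] w < w) ∧ (z < g^[m] z → w < f^[m] w) := by
      by_cases hc : g^[m] z < z
      · obtain ⟨w, hw, hw'⟩ := hdn k
        exact ⟨w, hw, fun _ => hw', fun h => absurd h (not_lt.2 hc.le)⟩
      · obtain ⟨w, hw, hw'⟩ := hup k
        exact ⟨w, hw, fun h => absurd h hc, fun _ => hw'⟩
    obtain ⟨w, hw, h1, h2⟩ := this
    refine ⟨w, hIS k hw, fun i j hi hj hlt => ?_⟩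
    by_cases c1 : i < j + m
    · by_cases c2 : j < i + m
      · exact cmp k z w hk hw i j c1 c2 hlt
      · obtain rfl : i = 0 := by omega
        obtain rfl : j = m := by omega
        exact h2 hlt
    · obtain rfl : j = 0 := by omega
      obtain rfl : i = m := by omega
      exact h1 hlt
  · have hs := same t (fun j hj => hmin j hj 0)
    have eg : ∀ j, t ≤ j → g^[j] z = g^[j - t] (g^[t] z) := fun j hj => by
      rw [← Function.iterate_add_apply, Nat.sub_add_cancel hj]
    have ef : ∀ j, t ≤ j → f^[j] z = f^[j - t] (g^[t] z) := fun j hj => by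
      rw [← hs t le_rfl, ← Function.iterate_add_apply, Nat.sub_add_cancel hj]
    refine ⟨z, hz, fun i j hi hj hlt => ?_⟩
    rcases Nat.lt_or_ge i t with c1 | c1 <;> rcases Nat.lt_or_ge j t with c2 | c2
    · rwa [hs i c1.le, hs j c2.le]
    · rw [hs i c1.le, ef j c2]
      rw [eg j c2] at hlt
      exact ord_disj ordConnected_singleton (hconv (k + (j - t)))
        (disjoint_singleton_left.2 (hmin i c1 _)) rfl rfl (it g hg k _ hk _) (it f hf k _ hk _) hlt
    · rw [hs j c2.le, ef i c1]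
      rw [eg i c1] at hlt
      exact ord_disj (hconv (k + (i - t))) ordConnected_singleton
        (disjoint_singleton_right.2 (hmin j c2 _)) (it g hg k _ hk _) (it f hf k _ hk _) rfl rfl hlt
    · rw [ef i c1, ef j c2]
      rw [eg i c1, eg j c2] at hlt
      exact cmp k _ _ hk hk _ _ (by omega) (by omega) hlt

variable {f : ℝ → ℝ} {c : ℝ}

/-- The window case: the turning point returns to the right of itself. -/
lemma window (h : Uni f c) (m : ℕ) (hm : 2 ≤ m) (x : ℝ) (hxc : c < x) (hx1 : x ≤ 1)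
    (h01 : x < f x) (hinc : ∀ k l, 2 ≤ k → k ≤ l → l ≤ m → f^[k] x ≤ f^[l] x)
    (hlast : f^[m] x < x) (x0 : ℝ) (hx0 : x0 ∈ Icc (0 : ℝ) 1) :
    ∃ y ∈ Icc (0 : ℝ) 1, ∀ i j, i ≤ m → j ≤ m →
      (Ts 2)^[i] x0 < (Ts 2)^[j] x0 → f^[i] y < f^[j] y := by
  obtain ⟨φ, hφ⟩ := h.exists_br
  have hxm : x ∈ Icc (0 : ℝ) 1 := ⟨by linarith [h.c0], hx1⟩
  have hcm : c ∈ Icc (0 : ℝ) 1 := ⟨h.c0.le, h.c1.le⟩
  set X : ℕ → ℝ := fun k => f^[k] x with hX
  set C : ℕ → ℝ := fun k => f^[k] c with hC
  have hXm : ∀ k, X k ∈ Icc (0 : ℝ) 1 := h.iter_mem hxm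
  have hCm : ∀ k, C k ∈ Icc (0 : ℝ) 1 := h.iter_mem hcm
  have hXs : ∀ k, X (k + 1) = f (X k) := fun k => Function.iterate_succ_apply' f k x
  have hCs : ∀ k, C (k + 1) = f (C k) := fun k => Function.iterate_succ_apply' f k c
  have hfx : f x < f c := h.anti h.cR ⟨hxc.le, hx1⟩ hxc
  have hfx1 : f x ≤ 1 := (h.maps hxm).2
  have hfx0 : 0 ≤ f x := (h.maps hxm).1
  set x' := φ false (f x) with hx'
  have hfx' : f x' = f x := hφ.inv' _ hfx0 hfx.le
  have hx'L : x' ∈ Icc (0 : ℝ) c := hφ.memL _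
  have hx'c : x' < c := lt_of_le_of_ne hx'L.2 fun hh => by rw [hh] at hfx'; linarith
  have hJ : ∀ y, x' ≤ y → y ≤ x → f x ≤ f y := fun y h1 h2 => by
    rcases le_total y c with h3 | h3
    · rw [← hfx']; exact h.mono.monotoneOn hx'L ⟨hx'L.1.trans h1, h3⟩ h1
    · exact h.anti.antitoneOn ⟨h3, h2.trans hx1⟩ ⟨hxc.le, hx1⟩ h2
  have hJ' : ∀ y ∈ Icc (0 : ℝ) 1, y ∉ Icc x' x → f y ≤ f x := fun y hy hn => by
    rcases lt_or_ge y x' with h1 | h1
    · rw [← hfx']; exact h.mono.monotoneOn ⟨hy.1, by linarith⟩ hx'L h1.le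
    · have h2 : x < y := by
        by_contra hc; exact hn ⟨h1, not_lt.1 hc⟩
      exact h.anti.antitoneOn ⟨hxc.le, hx1⟩ ⟨by linarith, hy.2⟩ h2.le
  have hXx : ∀ k, 2 ≤ k → k ≤ m → X k < x := fun k h1 h2 =>
    lt_of_le_of_lt (hinc k m h1 h2 le_rfl) hlast
  have hXx' : ∀ k, 2 ≤ k → k < m → X k < x' := fun k h1 h2 => by
    by_contra hc
    have := hJ (X k) (not_lt.1 hc) (hXx k h1 h2.le).le
    have h3 := hXx (k + 1) (by omega) h2
    rw [hXs] at h3
    linarith
  have hCX : ∀ k, 2 ≤ k → k ≤ m → C k < X k := by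
    intro k hk
    induction k, hk using Nat.le_induction with
    | base =>
      intro _
      exact h.anti ⟨by linarith, hfx1⟩ ⟨by linarith, h.top⟩ hfx
    | succ k hk ih =>
      intro hkm
      have h1 := ih (by omega)
      have h2 := hXx' k hk hkm
      rw [hXs, hCs]
      exact h.mono ⟨(hCm k).1, by linarith⟩ ⟨(hXm k).1, by linarith⟩ h1
  by_cases hK : C m < c
  · refine transfer_uni h m ⟨by linarith, fun k h1 h2 => ?_⟩ x0 hx0
    rcases Nat.eq_or_lt_of_le h2 with rfl | h3
    · exact hK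
    · exact ((hCX k h1 h2).trans (hXx' k h1 h3)).trans hx'c
  push Not at hK
  -- left ends
  set L : ℕ → ℝ := fun j => (φ false)^[j] x' with hL
  have hLs : ∀ j, L (j + 1) = φ false (L j) := fun j => Function.iterate_succ_apply' _ j x'
  have hLm : ∀ j, L j ∈ Icc (0 : ℝ) c := fun j => by
    cases j with
    | zero => exact hx'L
    | succ j => rw [hLs]; exact hφ.memL _
  have hfL : ∀ j, f (L (j + 1)) = L j := fun j => by
    rw [hLs]; exact hφ.inv' _ (hLm j).1 (by linarith [(hLm j).2])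
  set M := φ true (L (m - 2)) with hM
  have hMR : M ∈ Icc c 1 := hφ.memR _
  have hfM : f M = L (m - 2) := hφ.inv' _ (hLm _).1 (by linarith [(hLm (m - 2)).2])
  have hLC : ∀ j, j + 2 ≤ m → L j < C (m - j) := by
    intro j
    induction j with
    | zero => intro _; exact lt_of_lt_of_le hx'c hK
    | succ j ih =>
      intro hj
      have h1 := ih (by omega)
      have h2 : C (m - (j + 1)) < c :=
        ((hCX _ (by omega) (by omega)).trans (hXx' _ (by omega) (by omega))).trans hx'c
      rw [← h.mono.lt_iff_lt (hLm _) ⟨(hCm _).1, h2.le⟩, hfL, ← hCs,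
        show m - (j + 1) + 1 = m - j by omega]
      exact h1
  have hLX : ∀ k, 2 ≤ k → k ≤ m → L (m - k) < X k := fun k h1 h2 => by
    have := hLC (m - k) (by omega)
    rw [show m - (m - k) = k by omega] at this
    exact this.trans (hCX k h1 h2)
  have hXL : ∀ j, j + 3 ≤ m → X (m - j - 1) < L j := by
    intro j
    induction j with
    | zero => intro _; exact hXx' _ (by omega) (by omega)
    | succ j ih =>
      intro hj
      have h1 := ih (by omega)
      have h2 : X (m - (j + 1) - 1) < c := (hXx' _ (by omega) (by omega)).trans hx'c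
      rw [← h.mono.lt_iff_lt ⟨(hXm _).1, h2.le⟩ (hLm _), hfL, ← hXs,
        show m - (j + 1) - 1 + 1 = m - j - 1 by omega]
      exact h1
  have hMc : f c < M := by
    have h1 := hLC (m - 2) (by omega)
    rw [show m - (m - 2) = 2 by omega, ← hfM] at h1
    exact (h.anti.lt_iff_gt hMR ⟨by linarith, h.top⟩).1 h1
  -- the modified map
  set lam := (M - f c) / (f c - f x) with hlam
  have hlam0 : 0 < lam := div_pos (by linarith) (by linarith)
  set H : ℝ → ℝ := fun t => t + lam * max (t - f x) 0 with hH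
  have hHm : StrictMono H := fun s t hst => by
    have : max (s - f x) 0 ≤ max (t - f x) 0 := max_le_max (by linarith) le_rfl
    have := mul_le_mul_of_nonneg_left this hlam0.le
    simp only [hH]; linarith
  have hHid : ∀ t, t ≤ f x → H t = t := fun t ht => by
    simp only [hH]; rw [max_eq_right (by linarith)]; ring
  have hHc : H (f c) = M := by
    simp only [hH]; rw [max_eq_left (by linarith), hlam, div_mul_cancel₀ _ (by linarith)]; ring
  set g : ℝ → ℝ := fun y => H (f y) with hg
  have hgU : Uni g c :=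
    { c0 := h.c0
      c1 := h.c1
      cont := (show Continuous H by simp only [hH]; fun_prop).comp_continuousOn h.cont
      mono := hHm.comp_strictMonoOn h.mono
      anti := hHm.comp_strictAntiOn h.anti
      f0 := by simp only [hg]; rw [h.f0]; exact hHid 0 hfx0
      f1 := by simp only [hg]; rw [h.f1]; exact hHid 0 hfx0
      top := by simp only [hg]; rw [hHc]; exact hMR.2 }
  have hgf : ∀ y ∈ Icc (0 : ℝ) 1, y ∉ Icc x' x → g y = f y := fun y hy hn => hHid _ (hJ' y hy hn)
  have hLmem : ∀ j, L j ∈ Icc (0 : ℝ) 1 := fun j => ⟨(hLm j).1, (hLm j).2.trans h.c1.le⟩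
  have hgK : Kn g c m := by
    refine ⟨by simp only [hg]; rw [hHc]; linarith, ?_⟩
    have : ∀ k, 2 ≤ k → k ≤ m → g^[k] c = L (m - k) := by
      intro k hk
      induction k, hk using Nat.le_induction with
      | base =>
        intro _
        change g (H (f c)) = _
        rw [hHc, hgf M ⟨h.c0.le.trans hMR.1, hMR.2⟩ (fun hh => by linarith [hh.2]), hfM]
      | succ k hk ih =>
        intro hkm
        have h1 := (hLX k hk (by omega)).trans (hXx' k hk hkm)
        rw [Function.iterate_succ_apply', ih (by omega),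
          hgf _ (hLmem _) (fun hh => by linarith [hh.1]), show m - k = (m - (k + 1)) + 1 by omega,
          hfL]
    intro k h1 h2
    rw [this k h1 h2]
    rcases Nat.eq_or_lt_of_le h2 with rfl | h3
    · rw [Nat.sub_self]; exact hx'c
    · exact ((hLX k h1 h2).trans (hXx' k h1 h3)).trans hx'c
  obtain ⟨z, hz, hzo⟩ := transfer_uni hgU m hgK x0 hx0
  -- the cycle of intervals
  let J : ℕ → Set ℝ := fun r => if r = 0 then Icc x' x else if r = 1 then Icc (f x) M
    else Icc (L (m - r)) (X r)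
  have J0 : J 0 = Icc x' x := rfl
  have J1 : J 1 = Icc (f x) M := rfl
  have J2 : ∀ r, 2 ≤ r → J r = Icc (L (m - r)) (X r) := fun r hr => by
    simp only [J]; rw [if_neg (by omega), if_neg (by omega)]
  have hJS : ∀ r, J r ⊆ Icc (0 : ℝ) 1 := fun r => by
    rcases r with _ | _ | r
    · exact Icc_subset_Icc hx'L.1 hx1
    · exact Icc_subset_Icc hfx0 hMR.2
    · rw [J2 _ (by omega)]; exact Icc_subset_Icc (hLm _).1 (hXm _).2
  have hJd : ∀ r s, r < s → s < m → Disjoint (J r) (J s) := by
    intro r s hrs hs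
    rw [disjoint_left]
    intro y hy hy'
    rcases Nat.lt_or_ge s 2 with h1 | h1
    · obtain rfl : s = 1 := by omega
      obtain rfl : r = 0 := by omega
      rw [J0] at hy; rw [J1] at hy'
      linarith [hy.2, hy'.1]
    · rw [J2 s h1] at hy'
      have h2 := hXx' s h1 hs
      rcases r with _ | _ | r
      · rw [J0] at hy; linarith [hy.1, hy'.2]
      · rw [J1] at hy; linarith [hy.1, hy'.2]
      · rw [J2 _ (by omega)] at hy
        have h3 := hXL (m - s) (by omega)
        have h4 := hinc (r + 1 + 1) (m - (m - s) - 1) (by omega) (by omega) (by omega)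
        change X _ ≤ X _ at h4
        linarith [hy.2, hy'.1]
  have hJf : ∀ r, 1 ≤ r → r < m → ∀ y ∈ J r, f y ∈ Icc (L (m - (r + 1))) (X (r + 1)) := by
    intro r h1 h2 y hy
    rcases Nat.eq_or_lt_of_le h1 with rfl | h3
    · rw [J1] at hy
      have hyR : y ∈ Icc c 1 := ⟨by linarith [hy.1], hy.2.trans hMR.2⟩
      refine ⟨?_, h.anti.antitoneOn ⟨by linarith, hfx1⟩ hyR hy.1⟩
      rw [← hfM]; exact h.anti.antitoneOn hyR hMR hy.2
    · rw [J2 r h3] at hy
      have h4 := (hXx' r h3 h2).trans hx'c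
      have hyL : y ∈ Icc (0 : ℝ) c := ⟨(hLm _).1.trans hy.1, by linarith [hy.2]⟩
      constructor
      · rw [← hfL, show m - (r + 1) + 1 = m - r by omega]
        exact h.mono.monotoneOn (hLm _) hyL hy.1
      · rw [hXs]; exact h.mono.monotoneOn hyL ⟨(hXm _).1, h4.le⟩ hy.2
  have hmod : ∀ k, (k + 1) % m = if k % m + 1 < m then k % m + 1 else 0 := fun k => by
    have := Nat.mod_lt k (show 0 < m by omega)
    split_ifs with hh
    · rw [Nat.add_mod, Nat.mod_eq_of_lt (show 1 < m by omega), Nat.mod_eq_of_lt hh]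
    · rw [← Nat.mod_add_mod, show k % m + 1 = m by omega, Nat.mod_self]
  have hmaps : ∀ F : ℝ → ℝ, MapsTo F (J 0) (J 1) → (∀ y ∈ Icc (0 : ℝ) 1, y ∉ J 0 → F y = f y) →
      ∀ k, MapsTo F (J (k % m)) (J ((k + 1) % m)) := by
    intro F hF0 hF k y hy
    have hlt := Nat.mod_lt k (show 0 < m by omega)
    rw [hmod]
    rcases Nat.eq_zero_or_pos (k % m) with h0 | h0
    · rw [h0] at hy ⊢
      rw [if_pos (by omega)]; exact hF0 hy
    · rw [hF y (hJS _ hy) (fun hh => disjoint_left.1 (hJd 0 _ h0 hlt) hh hy)]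
      have := hJf _ h0 hlt y hy
      split_ifs with hh
      · rw [J2 _ (by omega)]; exact this
      · rw [show k % m + 1 = m by omega, Nat.sub_self] at this
        exact ⟨this.1, this.2.trans hlast.le⟩
  -- iterates of the end points
  have hitL : ∀ j, f^[j] (L j) = x' := by
    intro j
    induction j with
    | zero => rfl
    | succ j ih => rw [Function.iterate_succ_apply, hfL, ih]
  have hitx' : ∀ r, 1 ≤ r → f^[r] x' = X r := fun r hr => by
    obtain ⟨r, rfl⟩ : ∃ s, r = s + 1 := ⟨r - 1, by omega⟩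
    simp only [hX]
    rw [Function.iterate_succ_apply, Function.iterate_succ_apply, hfx']
  have hcXm : c < X m := lt_of_le_of_lt hK (hCX m hm le_rfl)
  have hXm1 : f x < X (m + 1) := by
    rw [hXs]; exact h.anti ⟨hcXm.le, (hXm m).2⟩ ⟨hxc.le, hx1⟩ hlast
  have hXmr : ∀ r, 2 ≤ r → r ≤ m → X (m + r) < X r := by
    intro r hr
    induction r, hr using Nat.le_induction with
    | base =>
      intro _
      rw [show m + 2 = m + 1 + 1 from rfl, hXs (m + 1)]
      exact h.anti ⟨by linarith, hfx1⟩ ⟨by linarith, (hXm _).2⟩ hXm1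
    | succ r hr ih =>
      intro hrm
      have h1 := ih (by omega)
      have h2 := (hXx' r hr hrm).trans hx'c
      rw [← add_assoc, hXs, hXs]
      exact h.mono ⟨(hXm _).1, by linarith⟩ ⟨(hXm _).1, h2.le⟩ h1
  have hXadd : ∀ r, f^[m] (X r) = X (m + r) := fun r => (Function.iterate_add_apply f m r x).symm
  obtain ⟨w, hw, hwo⟩ := cycle_transfer f g m (Icc 0 1) (fun k => J (k % m))
    (fun k => by
      simp only [J]; split_ifs <;> exact ordConnected_Icc)
    (fun i j hij hj => by
      have h1 := Nat.mod_lt i (show 0 < m by omega)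
      have h2 := Nat.mod_lt j (show 0 < m by omega)
      have hne : i % m ≠ j % m := fun hh => by
        have := (Nat.modEq_iff_dvd' hij.le).1 hh
        have := Nat.le_of_dvd (by omega) this
        omega
      rcases lt_or_gt_of_ne hne with h3 | h3
      · exact hJd _ _ h3 h2
      · exact (hJd _ _ h3 h1).symm)
    (hmaps f (fun y hy => ⟨hJ y hy.1 hy.2, ((h.le_top (hJS 0 hy)).trans hMc.le)⟩) (fun _ _ _ => rfl))
    (hmaps g (fun y hy => ⟨by
        have := hHm.monotone (hJ y hy.1 hy.2); rwa [hHid _ le_rfl] at this, by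
        have := hHm.monotone (h.le_top (hJS 0 hy)); rwa [hHc] at this⟩) hgf)
    (fun y hy hn => hgf y hy (by rwa [Nat.zero_mod] at hn)) (fun y hy => hgU.maps hy) (fun k => hJS _)
    (fun k => by
      have h1 := Nat.mod_lt k (show 0 < m by omega)
      generalize k % m = r at h1
      rcases r with _ | _ | r
      · exact ⟨x, ⟨by linarith, le_rfl⟩, hlast⟩
      · refine ⟨M, ⟨by linarith, le_rfl⟩, ?_⟩
        have : f^[m] M = f x := by
          conv_lhs => rw [show m = 1 + (m - 2) + 1 by omega]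
          rw [Function.iterate_succ_apply, hfM, Function.iterate_add_apply, hitL]
          exact hfx'
        rw [this]; linarith
      · refine ⟨X (r + 1 + 1), by
          rw [J2 _ (by omega)]; exact ⟨(hLX _ (by omega) (by omega)).le, le_rfl⟩, ?_⟩
        rw [hXadd]; exact hXmr _ (by omega) (by omega))
    (fun k => by
      have h1 := Nat.mod_lt k (show 0 < m by omega)
      generalize k % m = r at h1
      rcases r with _ | _ | r
      · exact ⟨x', ⟨le_rfl, by linarith⟩, by rw [hitx' m (by omega)]; linarith⟩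
      · refine ⟨f x, ⟨le_rfl, by linarith⟩, ?_⟩
        have := hXadd 1
        change f^[m] (f x) = _ at this
        rw [this]; exact hXm1
      · refine ⟨L (m - (r + 1 + 1)), by
          rw [J2 _ (by omega)]; exact ⟨le_rfl, (hLX _ (by omega) (by omega)).le⟩, ?_⟩
        have : f^[m] (L (m - (r + 1 + 1))) = X (r + 1 + 1) := by
          have e : f^[m] = f^[r + 1 + 1 + (m - (r + 1 + 1))] := by congr 1; omega
          rw [e, Function.iterate_add_apply, hitL, hitx' _ (by omega)]
        rw [this]; exact hLX _ (by omega) (by omega))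
    z hz
  exact ⟨w, hw, fun i j hi hj hlt => hwo i j hi hj (hzo i j hi hj hlt)⟩

/-- An orbit with pattern `σ_{k+2}` forces all patterns of the full tent map up to that length. -/
theorem forcing_orbit (h : Uni f c) (k : ℕ) (x : ℝ) (hx : x ∈ Icc (0 : ℝ) 1)
    (hs : ∀ i j, i < k + 2 → j < k + 2 → sval k i < sval k j → f^[i] x < f^[j] x)
    (x0 : ℝ) (hx0 : x0 ∈ Icc (0 : ℝ) 1) :
    ∃ y ∈ Icc (0 : ℝ) 1, ∀ i j, i ≤ k + 1 → j ≤ k + 1 →
      (Ts 2)^[i] x0 < (Ts 2)^[j] x0 → f^[i] y < f^[j] y := by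
  have h01 : x < f x := hs 0 1 (by omega) (by omega) (by simp [sval])
  rcases Nat.eq_zero_or_pos k with rfl | hk
  · by_cases hc : x0 < Ts 2 x0
    · refine ⟨x, hx, fun i j hi hj hlt => ?_⟩
      interval_cases i <;> interval_cases j <;> simp at hlt ⊢
      · exact h01
      · linarith
    · refine ⟨1, ⟨zero_le_one, le_rfl⟩, fun i j hi hj hlt => ?_⟩
      interval_cases i <;> interval_cases j <;> simp at hlt ⊢
      · exact absurd hlt hc
      · rw [h.f1]; exact one_pos
  have hlow : ∀ i, 2 ≤ i → i ≤ k + 1 → f^[i] x < x := fun i h1 h2 =>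
    hs i 0 (by omega) (by omega) (by simp only [sval]; split_ifs <;> omega)
  rcases le_or_gt x c with hxc | hxc
  · have hfm := h.maps hx
    have h1 : c < f x := by
      by_contra hc
      push Not at hc
      have := h.mono ⟨hx.1, hxc⟩ ⟨hfm.1, hc⟩ h01
      have h2 := hlow 2 le_rfl (by omega)
      change f (f x) < x at h2
      linarith
    have h2 := h.le_top hx
    have hcm : c ∈ Icc (0 : ℝ) 1 := ⟨h.c0.le, h.c1.le⟩
    have hle : ∀ i, 2 ≤ i → i ≤ k + 1 → f^[i] c ≤ f^[i] x := by
      intro i hi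
      induction i, hi using Nat.le_induction with
      | base =>
        intro _
        exact h.anti.antitoneOn ⟨h1.le, hfm.2⟩ ⟨by linarith, h.top⟩ h2
      | succ i hi ih =>
        intro hik
        have e1 := ih (by omega)
        have e2 := hlow i hi (by omega)
        rw [Function.iterate_succ_apply', Function.iterate_succ_apply']
        exact h.mono.monotoneOn ⟨(h.iter_mem hcm i).1, by linarith⟩
          ⟨(h.iter_mem hx i).1, by linarith⟩ e1
    exact transfer_uni h (k + 1) ⟨by linarith, fun i h3 h4 => by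
      linarith [hle i h3 h4, hlow i h3 h4]⟩ x0 hx0
  · refine window h (k + 1) (by omega) x hxc hx.2 h01 (fun i j h1 h2 h3 => ?_)
      (hlow _ (by omega) le_rfl) x0 hx0
    rcases Nat.eq_or_lt_of_le h2 with rfl | h4
    · exact le_rfl
    · exact (hs i j (by omega) (by omega) (by simp only [sval]; split_ifs <;> omega)).le

theorem forcing (h : Uni f c) (k : ℕ) (hσ : sigma (k + 2) ∈ Allow f) (π : List ℕ)
    (hπ : π ∈ Allow (tent 1)) (hlen : π.length ≤ k + 2) : π ∈ Allow f := by
  obtain ⟨-, x, hx, -, -, hord⟩ := hσ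
  obtain ⟨hl, x0, hx0, hperm, hne, hord0⟩ := hπ
  rw [tent_one] at hne hord0
  obtain ⟨y, hy, hxy⟩ := forcing_orbit h k x hx (fun i j hi hj hij =>
    (hord ⟨i, by rw [sigma_length]; exact hi⟩ ⟨j, by rw [sigma_length]; exact hj⟩).1
      (by rw [sigma_get, sigma_get]; exact hij)) x0 hx0
  have hxy' : ∀ i j : Fin π.length, (Ts 2)^[i] x0 < (Ts 2)^[j] x0 → f^[i] y < f^[j] y :=
    fun i j => hxy i j (by omega) (by omega)
  refine ⟨hl, y, hy, hperm, fun i j hij => ?_, fun i j => ?_⟩
  · rcases lt_or_gt_of_ne (hne i j hij) with h | h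
    · exact (hxy' i j h).ne
    · exact (hxy' j i h).ne'
  · rw [hord0]
    refine ⟨hxy' i j, fun h => ?_⟩
    by_cases hij : i = j
    · subst hij; exact absurd h (lt_irrefl _)
    · rcases lt_or_gt_of_ne (hne i j hij) with h' | h'
      · exact h'
      · exact absurd (hxy' j i h') (not_lt.2 h.le)

theorem main_uni (h : Uni f c) (n : ℕ)
    (hn : IsLeast (List.length '' (Allow (tent 1) \ Allow f)) n) :
    2 ≤ n ∧ sigma n ∈ Allow (tent 1) ∧ sigma n ∉ Allow f := by
  obtain ⟨⟨π, ⟨hπ1, hπ2⟩, rfl⟩, -⟩ := hn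
  have h2 : 2 ≤ π.length := by
    by_contra hc
    obtain ⟨hl, x0, hx0, hperm, hne, hord0⟩ := hπ1
    refine hπ2 ⟨hl, x0, hx0, hperm, fun i j hij => absurd (Fin.ext (by omega)) hij, fun i j => ?_⟩
    obtain rfl : i = j := Fin.ext (by omega)
    simp
  obtain ⟨k, hk⟩ : ∃ k, π.length = k + 2 := ⟨π.length - 2, by omega⟩
  rw [hk]
  exact ⟨by omega, sigma_allowed_full k, fun hσ => hπ2 (forcing h k hσ π hπ1 hk.le)⟩

lemma uni_tent {μ : ℝ} (h0 : 0 < μ) (h1 : μ ≤ 1) : Uni (tent μ) (1 / 2) where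
  c0 := by norm_num
  c1 := by norm_num
  cont := (show Continuous (tent μ) by unfold tent; fun_prop).continuousOn
  mono := fun a ha b hb hab => by
    unfold tent
    rw [min_eq_left (by linarith [ha.2]), min_eq_left (by linarith [hb.2])]
    nlinarith
  anti := fun a ha b hb hab => by
    unfold tent
    rw [min_eq_right (by linarith [hb.1] : 1 - b ≤ b), min_eq_right (by linarith [ha.1] : 1 - a ≤ a)]
    nlinarith
  f0 := by simp [tent]
  f1 := by simp [tent]
  top := by unfold tent; norm_num; linarith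

end Pool.Agent.P.MP_25bc1d_an
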