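import Pool.Agent.P.MP_25bc1d_an.Main

open Pool.Agent.P.MP_25bc1d_an

/-- For every `μ ∈ (1/2, 1)` there is a least length `n` of a `μ`-forbidden pattern, `n ≥ 2`,
and `σ_n` is allowed for the full tent map and avoided by `T_μ`. -/
theorem Pool.Agent.P.MP_25bc1d_an.VariantShortestForbidden.result
    (μ : ℝ) (h1 : 1 / 2 < μ) (h2 : μ < 1) :
    ∃ n : ℕ, IsLeast (List.length '' Forbidden μ) n ∧ 2 ≤ n ∧
      sigma n ∈ Allow (tent 1) ∧ sigma n ∉ Allow (tent μ) :=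
  Pool.Agent.P.MP_25bc1d_an.main μ h1 h2
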